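import Pool.Agent.H56.CR.RED

/-!
# AUTF: the topological zeta function is invariant under isomorphisms
-/

set_option autoImplicit false

namespace Pool.Agent.H56.CR

open Finset MvPolynomial
open Pool.Agent.H37.SM Pool.Agent.H22.T7 Pool.Agent.H56.ST

section meas

variable {K : Type} [Field K] {A : Type} [CommRing A]

theorem ev_bind {σ τ : Type} (ι : A →+* K) {k : ℕ} (y : τ → Jet K k) (P : σ → MvPolynomial τ A)
    (f : MvPolynomial σ A) : ev ι y (bind₁ P f) = ev ι (fun i => ev ι y (P i)) f := by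
  unfold ev
  rw [eval₂Hom_bind₁]

/-- The bijection on points. -/
noncomputable def evEquiv {σ τ : Type} (ι : A →+* K) (k : ℕ) (P : σ → MvPolynomial τ A)
    (Q : τ → MvPolynomial σ A) (hPQ : ∀ i, bind₁ Q (P i) = X i)
    (hQP : ∀ j, bind₁ P (Q j) = X j) : (τ → Jet K k) ≃ (σ → Jet K k) where
  toFun y i := ev ι y (P i)
  invFun x j := ev ι x (Q j)
  left_inv y := by
    funext j
    dsimp only
    rw [← ev_bind, hQP, ev_X]
  right_inv x := by
    funext i
    dsimp only
    rw [← ev_bind, hPQ, ev_X]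

theorem meas_bind {σ τ : Type} (ι : A →+* K) (k : ℕ) (P : σ → MvPolynomial τ A)
    (Q : τ → MvPolynomial σ A) (hPQ : ∀ i, bind₁ Q (P i) = X i)
    (hQP : ∀ j, bind₁ P (Q j) = X j) (f : MvPolynomial σ A) :
    meas ι (bind₁ P f) k = meas ι f k := by
  rw [meas_eq, meas_eq]
  have h1 : Nat.card {y : τ → Jet K k // ev ι y (bind₁ P f) = 0} =
      Nat.card {x : σ → Jet K k // ev ι x f = 0} := by
    refine Nat.card_congr ((evEquiv ι k P Q hPQ hQP).subtypeEquiv fun y => ?_)
    rw [ev_bind]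
    rfl
  rw [h1, Nat.card_congr (evEquiv ι k P Q hPQ hQP)]

end meas

theorem isTop_aut {σ τ : Type} [Finite σ] [Finite τ]
    (ψ : MvPolynomial σ ℂ ≃ₐ[ℂ] MvPolynomial τ ℂ) (f : MvPolynomial σ ℂ) (Z : RatFunc ℂ)
    (hT : IsTopZeta f Z) : IsTopZeta (ψ f) Z := by
  classical
  have : Fintype σ := Fintype.ofFinite σ
  have : Fintype τ := Fintype.ofFinite τ
  obtain ⟨S, f0, hS, hf, hZ⟩ := enlarge f Z hT
    ((univ.biUnion fun i => (ψ (X i)).coeffs) ∪ (univ.biUnion fun j => (ψ.symm (X j)).coeffs))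
  have hP1 : ∀ i, (ψ (X i)).coeffs ⊆ S := fun i =>
    (Finset.subset_biUnion_of_mem (fun i => (ψ (X i)).coeffs) (mem_univ i)).trans
      (Finset.subset_union_left.trans hS)
  have hQ1 : ∀ j, (ψ.symm (X j)).coeffs ⊆ S := fun j =>
    (Finset.subset_biUnion_of_mem (fun j => (ψ.symm (X j)).coeffs) (mem_univ j)).trans
      (Finset.subset_union_right.trans hS)
  choose P hP using fun i => exists_lift S (ψ (X i)) (hP1 i)
  choose Q hQ using fun j => exists_lift S (ψ.symm (X j)) (hQ1 j)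
  have hmap1 : ∀ g : MvPolynomial σ (Subring.closure (S : Set ℂ)),
      MvPolynomial.map (Subring.subtype (Subring.closure (S : Set ℂ))) (bind₁ P g) =
        ψ (MvPolynomial.map (Subring.subtype (Subring.closure (S : Set ℂ))) g) := by
    intro g
    rw [map_bind₁]
    simp only [hP]
    have h1 : (bind₁ fun i => ψ (X i) : MvPolynomial σ ℂ →ₐ[ℂ] MvPolynomial τ ℂ) =
        (ψ : MvPolynomial σ ℂ →ₐ[ℂ] MvPolynomial τ ℂ) := by
      apply MvPolynomial.algHom_ext
      intro i
      rw [bind₁_X_right]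
      rfl
    rw [h1]
    rfl
  have hmap2 : ∀ g : MvPolynomial τ (Subring.closure (S : Set ℂ)),
      MvPolynomial.map (Subring.subtype (Subring.closure (S : Set ℂ))) (bind₁ Q g) =
        ψ.symm (MvPolynomial.map (Subring.subtype (Subring.closure (S : Set ℂ))) g) := by
    intro g
    rw [map_bind₁]
    simp only [hQ]
    have h1 : (bind₁ fun j => ψ.symm (X j) : MvPolynomial τ ℂ →ₐ[ℂ] MvPolynomial σ ℂ) =
        (ψ.symm : MvPolynomial τ ℂ →ₐ[ℂ] MvPolynomial σ ℂ) := by
      apply MvPolynomial.algHom_ext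
      intro i
      rw [bind₁_X_right]
      rfl
    rw [h1]
    rfl
  have hinj1 : Function.Injective (MvPolynomial.map (σ := σ)
      (Subring.subtype (Subring.closure (S : Set ℂ)))) :=
    MvPolynomial.map_injective _ Subtype.val_injective
  have hinj2 : Function.Injective (MvPolynomial.map (σ := τ)
      (Subring.subtype (Subring.closure (S : Set ℂ)))) :=
    MvPolynomial.map_injective _ Subtype.val_injective
  have hPQ : ∀ i, bind₁ Q (P i) = X i := by
    intro i
    apply hinj1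
    rw [hmap2, hP, AlgEquiv.symm_apply_apply, MvPolynomial.map_X]
  have hQP : ∀ j, bind₁ P (Q j) = X j := by
    intro j
    apply hinj2
    rw [hmap1, hQ, AlgEquiv.apply_symm_apply, MvPolynomial.map_X]
  refine ⟨S, bind₁ P f0, ?_, ?_⟩
  · rw [hmap1, hf]
  · intro F _ _ ι K _ _ hK
    have h1 := hZ F ι K hK
    unfold igusa at h1 ⊢
    simp only [meas_bind _ _ P Q hPQ hQP]
    exact h1

theorem good_aut {σ τ : Type} [Finite σ] [Finite τ]
    (ψ : MvPolynomial σ ℂ ≃ₐ[ℂ] MvPolynomial τ ℂ) (f : MvPolynomial σ ℂ) (h : Good (ψ f)) :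
    Good f := by
  intro hf Z hZ b hb s hs
  exact h (nc_equiv ψ f hf) Z (isTop_aut ψ f Z hZ) b (aut ψ f b hb) s hs

end Pool.Agent.H56.CR
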