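import Pool.Agent.H56.CR.AUTF

/-!
# CIR: reduction of polynomials with integral coefficients to arithmetic circuits
-/

set_option autoImplicit false

namespace Pool.Agent.H56.CR

open Finset MvPolynomial
open Pool.Agent.H37.SM Pool.Agent.H22.T7 Pool.Agent.H56.ST

/-- The polynomial `g` is one of `-x_a`, `-(x_a + x_b)`, `-x_a x_b` with different `a, b < m`. -/
def IsGate {N : ℕ} (m : ℕ) (g : MvPolynomial (Fin N) ℂ) : Prop :=
  (∃ a : Fin N, (a : ℕ) < m ∧ g = - X a) ∨
    ∃ a b : Fin N, (a : ℕ) < m ∧ (b : ℕ) < m ∧ a ≠ b ∧ (g = - (X a + X b) ∨ g = - (X a * X b))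

/-- `y E(x) + ∑_k u_k (x_{M+k} - g_k)`. -/
noncomputable def St (M K : ℕ) (E : MvPolynomial (Fin (M + K)) ℂ)
    (g : Fin K → MvPolynomial (Fin (M + K)) ℂ) :
    MvPolynomial (Fin (M + K) ⊕ (Fin K ⊕ Unit)) ℂ :=
  X (Sum.inr (Sum.inr ())) * rename Sum.inl E +
    ∑ k, X (Sum.inr (Sum.inl k)) * (X (Sum.inl (Fin.natAdd M k)) - rename Sum.inl (g k))

/-- The renaming of the variables in the induction step. -/
def psiF (M K : ℕ) : (Fin (M + K) ⊕ (Fin K ⊕ Unit)) ⊕ (Fin 1 ⊕ Fin 1) →
    Fin (M + (K + 1)) ⊕ (Fin (K + 1) ⊕ Unit) :=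
  Sum.elim (Sum.elim (fun j => Sum.inl (Fin.castSucc j))
      (Sum.elim (fun k => Sum.inr (Sum.inl (Fin.castSucc k))) (fun _ => Sum.inr (Sum.inr ()))))
    (Sum.elim (fun _ => Sum.inr (Sum.inl (Fin.last K))) (fun _ => Sum.inl (Fin.last (M + K))))

theorem psiF_bij (M K : ℕ) : Function.Bijective (psiF M K) := by
  constructor
  · rintro ((j | k | u) | (z | z)) ((j' | k' | u') | (z' | z')) h
    all_goals simp only [psiF, Sum.elim_inl, Sum.elim_inr, Sum.inl.injEq, Sum.inr.injEq,
      reduceCtorEq] at h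
    all_goals first
      | (rw [Fin.castSucc_inj] at h; rw [h])
      | rfl
      | (exact absurd h (Fin.castSucc_ne_last _))
      | (exact absurd h.symm (Fin.castSucc_ne_last _))
      | (have e : z = z' := Subsingleton.elim _ _; rw [e])
  · rintro (j | k | u)
    · induction j using Fin.lastCases with
      | last => exact ⟨Sum.inr (Sum.inr 0), rfl⟩
      | cast j => exact ⟨Sum.inl (Sum.inl j), rfl⟩
    · induction k using Fin.lastCases with
      | last => exact ⟨Sum.inr (Sum.inl 0), rfl⟩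
      | cast k => exact ⟨Sum.inl (Sum.inr (Sum.inl k)), rfl⟩
    · exact ⟨Sum.inl (Sum.inr (Sum.inr ())), rfl⟩

/-- The inclusion of the polynomials in `x_1, …, x_{M+K}`. -/
noncomputable def ren (M K : ℕ) :
    MvPolynomial (Fin (M + K)) ℂ →ₐ[ℂ] MvPolynomial (Fin (M + (K + 1))) ℂ :=
  rename Fin.castSucc

theorem St_lin (M K : ℕ) (E p h : MvPolynomial (Fin (M + K)) ℂ)
    (g : Fin K → MvPolynomial (Fin (M + K)) ℂ) :
    St M K (E + p * h) g = St M K E g +
      (X (Sum.inr (Sum.inr ())) * rename Sum.inl p) * rename Sum.inl h := by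
  unfold St
  rw [map_add, map_mul]
  ring

/-- The induction step. -/
theorem St_step (M K : ℕ) (E p h : MvPolynomial (Fin (M + K)) ℂ)
    (g : Fin K → MvPolynomial (Fin (M + K)) ℂ) :
    rename (psiF M K) (stepW (St M K E g) (X (Sum.inr (Sum.inr ())) * rename Sum.inl p)
      (rename Sum.inl h)) =
    St M (K + 1) (ren M K E + ren M K p * X (Fin.last (M + K)))
      (Fin.snoc (fun k => ren M K (g k)) (ren M K h)) := by
  have hr1 : ∀ q : MvPolynomial (Fin (M + K)) ℂ,
      rename (psiF M K) (rename Sum.inl (rename Sum.inl q :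
        MvPolynomial (Fin (M + K) ⊕ (Fin K ⊕ Unit)) ℂ)) = rename Sum.inl (ren M K q) := by
    intro q
    unfold ren
    rw [rename_rename, rename_rename, rename_rename]
    rfl
  unfold stepW St
  simp only [map_add, map_sub, map_mul, map_sum, rename_X, hr1]
  rw [Fin.sum_univ_castSucc]
  simp only [Fin.snoc_castSucc, Fin.snoc_last]
  have hn : ∀ k : Fin K, (Fin.natAdd M (Fin.castSucc k) : Fin (M + (K + 1))) =
      Fin.castSucc (Fin.natAdd M k) := fun k => rfl
  have hl : (Fin.natAdd M (Fin.last K) : Fin (M + (K + 1))) = Fin.last (M + K) := rfl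
  simp only [hn, hl]
  change X (Sum.inr (Sum.inr ())) * _ +
      ∑ k : Fin K, X (Sum.inr (Sum.inl (Fin.castSucc k))) *
        (X (Sum.inl (Fin.castSucc (Fin.natAdd M k))) - _) +
      X (Sum.inr (Sum.inl (Fin.last K))) * X (Sum.inl (Fin.last (M + K))) -
    X (Sum.inr (Sum.inl (Fin.last K))) * _ + X (Sum.inr (Sum.inr ())) * _ *
      X (Sum.inl (Fin.last (M + K))) = _
  ring

theorem good_red (M K : ℕ) (E p h : MvPolynomial (Fin (M + K)) ℂ)
    (g : Fin K → MvPolynomial (Fin (M + K)) ℂ)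
    (hG : Good (St M (K + 1) (ren M K E + ren M K p * X (Fin.last (M + K)))
      (Fin.snoc (fun k => ren M K (g k)) (ren M K h)))) :
    Good (St M K (E + p * h) g) := by
  rw [St_lin]
  apply good_step
  apply good_rename (Equiv.ofBijective (psiF M K) (psiF_bij M K))
  rw [Equiv.coe_ofBijective, St_step]
  exact hG

theorem gate_ren (M K m : ℕ) (g : MvPolynomial (Fin (M + K)) ℂ) (h : IsGate m g) :
    IsGate m (ren M K g) := by
  unfold ren
  rcases h with ⟨a, ha, rfl⟩ | ⟨a, b, ha, hb, hab, rfl | rfl⟩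
  · left
    exact ⟨Fin.castSucc a, ha, by rw [map_neg, rename_X]⟩
  · right
    refine ⟨Fin.castSucc a, Fin.castSucc b, ha, hb, fun h => hab (Fin.castSucc_injective _ h),
      Or.inl ?_⟩
    rw [map_neg, map_add, rename_X, rename_X]
  · right
    refine ⟨Fin.castSucc a, Fin.castSucc b, ha, hb, fun h => hab (Fin.castSucc_injective _ h),
      Or.inr ?_⟩
    rw [map_neg, map_mul, rename_X, rename_X]

theorem gate_snoc (M K : ℕ) (g : Fin K → MvPolynomial (Fin (M + K)) ℂ)
    (h : MvPolynomial (Fin (M + K)) ℂ) (hg : ∀ k : Fin K, IsGate (M + (k : ℕ)) (g k))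
    (hh : IsGate (M + K) h) (k : Fin (K + 1)) :
    IsGate (M + (k : ℕ)) ((Fin.snoc (fun k => ren M K (g k)) (ren M K h) :
      Fin (K + 1) → MvPolynomial (Fin (M + (K + 1))) ℂ) k) := by
  induction k using Fin.lastCases with
  | last =>
    rw [Fin.snoc_last]
    exact gate_ren M K _ h hh
  | cast k =>
    rw [Fin.snoc_castSucc]
    exact gate_ren M K _ _ (hg k)

/-- The sum of the monomials with the exponents in `s`. -/
noncomputable def Es {N : ℕ} : Multiset (Fin N →₀ ℕ) →+ MvPolynomial (Fin N) ℂ :=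
  Multiset.sumAddMonoidHom.comp (Multiset.mapAddMonoidHom fun ρ => monomial ρ (1 : ℂ))

theorem Es_cons {N : ℕ} (ρ : Fin N →₀ ℕ) (s : Multiset (Fin N →₀ ℕ)) :
    Es (ρ ::ₘ s) = monomial ρ 1 + Es s := by
  unfold Es
  simp

theorem Es_zero {N : ℕ} : Es (0 : Multiset (Fin N →₀ ℕ)) = 0 := map_zero _

theorem Es_replicate {N : ℕ} (m : ℕ) (ρ : Fin N →₀ ℕ) :
    Es (Multiset.replicate m ρ) = C (m : ℂ) * monomial ρ 1 := by
  unfold Es
  simp

theorem Es_map (M K : ℕ) (s : Multiset (Fin (M + K) →₀ ℕ)) :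
    Es (s.map (Finsupp.mapDomain Fin.castSucc)) = ren M K (Es s) := by
  induction s using Multiset.induction with
  | empty => rw [Multiset.map_zero, Es_zero, Es_zero, map_zero]
  | cons ρ s ih =>
    rw [Multiset.map_cons, Es_cons, Es_cons, map_add, ih]
    congr 1
    unfold ren
    rw [rename_monomial]

/-- The multiset after one step. -/
noncomputable def nxt {N : ℕ} (ρ' : Fin N →₀ ℕ) (s' : Multiset (Fin N →₀ ℕ)) :
    Multiset (Fin (N + 1) →₀ ℕ) :=
  (Finsupp.mapDomain Fin.castSucc ρ' + Finsupp.single (Fin.last N) 1) ::ₘ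
    s'.map (Finsupp.mapDomain Fin.castSucc)

theorem Es_nxt (M K : ℕ) (ρ' : Fin (M + K) →₀ ℕ) (s' : Multiset (Fin (M + K) →₀ ℕ)) :
    Es (nxt ρ' s') = ren M K (Es s') + ren M K (monomial ρ' 1) * X (Fin.last (M + K)) := by
  unfold nxt
  rw [Es_cons, Es_map]
  refine (add_comm _ _).trans ?_
  congr 1
  unfold ren
  rw [rename_monomial, X, monomial_mul, mul_one]

/-- Two steps. -/
theorem good_two (M K : ℕ) (E p h : MvPolynomial (Fin (M + K)) ℂ)
    (g : Fin K → MvPolynomial (Fin (M + K)) ℂ)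
    (hG : Good (St M (K + 1 + 1) (ren M (K + 1) (ren M K E) +
      ren M (K + 1) (ren M K p) * X (Fin.last (M + (K + 1))))
      (Fin.snoc (fun k => ren M (K + 1) ((Fin.snoc (fun k => ren M K (g k)) (ren M K (-h)) :
        Fin (K + 1) → MvPolynomial (Fin (M + (K + 1))) ℂ) k))
        (ren M (K + 1) (- X (Fin.last (M + K))))))) :
    Good (St M K (E + p * h) g) := by
  have h1 : E + p * h = E + (-p) * (-h) := by ring
  rw [h1]
  apply good_red
  have h2 : ren M K E + ren M K (-p) * X (Fin.last (M + K)) =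
      ren M K E + ren M K p * (- X (Fin.last (M + K))) := by
    rw [map_neg]
    ring
  rw [h2]
  exact good_red M (K + 1) _ _ _ _ hG

theorem good_nxt (M K : ℕ) (ρ' : Fin (M + K) →₀ ℕ) (s' : Multiset (Fin (M + K) →₀ ℕ))
    (h : MvPolynomial (Fin (M + K)) ℂ) (g : Fin K → MvPolynomial (Fin (M + K)) ℂ)
    (hG : Good (St M (K + 1 + 1) (Es (nxt (Finsupp.mapDomain Fin.castSucc ρ' :
        Fin (M + (K + 1)) →₀ ℕ) (s'.map (Finsupp.mapDomain Fin.castSucc))))
      (Fin.snoc (fun k => ren M (K + 1) ((Fin.snoc (fun k => ren M K (g k)) (ren M K (-h)) :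
        Fin (K + 1) → MvPolynomial (Fin (M + (K + 1))) ℂ) k))
        (ren M (K + 1) (- X (Fin.last (M + K))))))) :
    Good (St M K (Es s' + monomial ρ' 1 * h) g) := by
  apply good_two
  have h1 : ren M K (monomial ρ' 1) = monomial (Finsupp.mapDomain Fin.castSucc ρ' :
        Fin (M + (K + 1)) →₀ ℕ) 1 := by
    unfold ren
    rw [rename_monomial]
  have h2 : Es (nxt (Finsupp.mapDomain Fin.castSucc ρ' :
        Fin (M + (K + 1)) →₀ ℕ) (s'.map (Finsupp.mapDomain Fin.castSucc))) =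
      ren M (K + 1) (ren M K (Es s')) +
      ren M (K + 1) (ren M K (monomial ρ' 1)) * X (Fin.last (M + (K + 1))) := by
    refine (Es_nxt M (K + 1) (Finsupp.mapDomain Fin.castSucc ρ')
      (s'.map (Finsupp.mapDomain Fin.castSucc))).trans ?_
    exact congrArg₂ (· + ·) (congrArg (ren M (K + 1)) (Es_map M K s'))
      (congrArg (fun z => ren M (K + 1) z * X (Fin.last (M + (K + 1)))) h1.symm)
  rw [← h2]
  exact hG

/-- The excess. -/
def exc {N : ℕ} (v : Fin N →₀ ℕ) : ℕ := ∑ i, (v i - 1)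

theorem exc_nxt {N : ℕ} (ρ' : Fin N →₀ ℕ) (s' : Multiset (Fin N →₀ ℕ)) :
    exc (nxt ρ' s').sum = exc (ρ' + s'.sum) := by
  have h1 : (nxt ρ' s').sum = Finsupp.mapDomain Fin.castSucc (ρ' + s'.sum) +
      Finsupp.single (Fin.last N) 1 := by
    unfold nxt
    rw [Multiset.sum_cons, Finsupp.mapDomain_add]
    have h2 := map_multiset_sum
      (Finsupp.mapDomain.addMonoidHom Fin.castSucc : (Fin N →₀ ℕ) →+ (Fin (N + 1) →₀ ℕ)) s'
    have h3 : Finsupp.mapDomain Fin.castSucc s'.sum =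
        (s'.map (Finsupp.mapDomain Fin.castSucc)).sum := h2
    rw [h3]
    abel
  rw [h1]
  unfold exc
  rw [Fin.sum_univ_castSucc]
  have h2 : ∀ v : Fin N →₀ ℕ, (Finsupp.mapDomain Fin.castSucc v) (Fin.last N) = 0 := by
    intro v
    apply Finsupp.mapDomain_of_notMem_range
    rintro ⟨i, hi⟩
    exact Fin.castSucc_ne_last i hi
  rw [Finsupp.add_apply, h2, Finsupp.single_eq_same, zero_add, Nat.sub_self, add_zero]
  refine sum_congr rfl fun i _ => ?_
  rw [Finsupp.add_apply, Finsupp.mapDomain_apply (Fin.castSucc_injective N),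
    Finsupp.single_eq_of_ne (Fin.castSucc_ne_last i), add_zero]

theorem exc_map {N : ℕ} (ρ' : Fin N →₀ ℕ) (s' : Multiset (Fin N →₀ ℕ)) :
    exc ((Finsupp.mapDomain Fin.castSucc ρ' : Fin (N + 1) →₀ ℕ) +
      (s'.map (Finsupp.mapDomain Fin.castSucc)).sum) = exc (ρ' + s'.sum) := by
  have h2 := map_multiset_sum
    (Finsupp.mapDomain.addMonoidHom Fin.castSucc : (Fin N →₀ ℕ) →+ (Fin (N + 1) →₀ ℕ)) s'
  have h3 : Finsupp.mapDomain Fin.castSucc s'.sum =
      (s'.map (Finsupp.mapDomain Fin.castSucc)).sum := h2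
  rw [← h3, ← Finsupp.mapDomain_add]
  unfold exc
  rw [Fin.sum_univ_castSucc]
  have h4 : ∀ v : Fin N →₀ ℕ, (Finsupp.mapDomain Fin.castSucc v) (Fin.last N) = 0 := by
    intro v
    apply Finsupp.mapDomain_of_notMem_range
    rintro ⟨i, hi⟩
    exact Fin.castSucc_ne_last i hi
  rw [h4, Nat.zero_sub, add_zero]
  refine sum_congr rfl fun i _ => ?_
  rw [Finsupp.mapDomain_apply (Fin.castSucc_injective N)]

/-- The total degree. -/
noncomputable def tdg {N : ℕ} (s : Multiset (Fin N →₀ ℕ)) : ℕ := (s.map Finsupp.degree).sum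

theorem tdg_cons {N : ℕ} (ρ : Fin N →₀ ℕ) (s : Multiset (Fin N →₀ ℕ)) :
    tdg (ρ ::ₘ s) = ρ.degree + tdg s := by
  unfold tdg
  rw [Multiset.map_cons, Multiset.sum_cons]

theorem tdg_nxt {N : ℕ} (ρ' : Fin N →₀ ℕ) (s' : Multiset (Fin N →₀ ℕ)) :
    tdg (nxt ρ' s') = ρ'.degree + 1 + tdg s' := by
  unfold nxt
  rw [tdg_cons, map_add, Finsupp.degree_mapDomain, Finsupp.degree_single]
  congr 1
  unfold tdg
  rw [Multiset.map_map]
  congr 1
  refine Multiset.map_congr rfl fun ρ _ => ?_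
  exact Finsupp.degree_mapDomain _ _

theorem tdg_map {N : ℕ} (s' : Multiset (Fin N →₀ ℕ)) :
    tdg (s'.map (Finsupp.mapDomain Fin.castSucc) : Multiset (Fin (N + 1) →₀ ℕ)) = tdg s' := by
  unfold tdg
  rw [Multiset.map_map]
  congr 1
  refine Multiset.map_congr rfl fun ρ _ => ?_
  exact Finsupp.degree_mapDomain _ _

theorem map_ne {N : ℕ} (s' : Multiset (Fin N →₀ ℕ)) (hs : ∀ ρ ∈ s', ρ ≠ 0) :
    ∀ ρ ∈ (s'.map (Finsupp.mapDomain Fin.castSucc) : Multiset (Fin (N + 1) →₀ ℕ)), ρ ≠ 0 := by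
  intro ρ hρ h
  rw [Multiset.mem_map] at hρ
  obtain ⟨ρ1, h1, rfl⟩ := hρ
  apply hs ρ1 h1
  apply Finsupp.mapDomain_injective (Fin.castSucc_injective N)
  rw [h, Finsupp.mapDomain_zero]

theorem nxt_ne {N : ℕ} (ρ' : Fin N →₀ ℕ) (s' : Multiset (Fin N →₀ ℕ))
    (hs : ∀ ρ ∈ s', ρ ≠ 0) : ∀ ρ ∈ nxt ρ' s', ρ ≠ 0 := by
  intro ρ hρ h
  unfold nxt at hρ
  rw [Multiset.mem_cons, Multiset.mem_map] at hρ
  rcases hρ with rfl | ⟨ρ1, h1, rfl⟩
  · have h2 := congrArg Finsupp.degree h
    rw [map_add, Finsupp.degree_single, map_zero] at h2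
    omega
  · apply hs ρ1 h1
    apply Finsupp.mapDomain_injective (Fin.castSucc_injective N)
    rw [h, Finsupp.mapDomain_zero]

theorem exists_single {σ : Type} (ρ : σ →₀ ℕ) (h : ρ ≠ 0) :
    ∃ (j : σ) (ρ' : σ →₀ ℕ), ρ = ρ' + Finsupp.single j 1 := by
  classical
  obtain ⟨j, hj⟩ := Finsupp.ne_iff.1 h
  refine ⟨j, ρ - Finsupp.single j 1, ?_⟩
  rw [tsub_add_cancel_of_le]
  intro i
  by_cases hi : i = j
  · subst hi
    rw [Finsupp.single_eq_same]
    exact Nat.one_le_iff_ne_zero.2 hj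
  · rw [Finsupp.single_eq_of_ne hi]
    exact Nat.zero_le _

theorem exists_single_at {σ : Type} (ρ : σ →₀ ℕ) (j : σ) (hj : ρ j ≠ 0) :
    ∃ (ρ' : σ →₀ ℕ), ρ = ρ' + Finsupp.single j 1 := by
  classical
  refine ⟨ρ - Finsupp.single j 1, ?_⟩
  rw [tsub_add_cancel_of_le]
  intro i
  by_cases hi : i = j
  · subst hi
    rw [Finsupp.single_eq_same]
    exact Nat.one_le_iff_ne_zero.2 hj
  · rw [Finsupp.single_eq_of_ne hi]
    exact Nat.zero_le _

theorem exists_mem_of_sum {σ : Type} (s : Multiset (σ →₀ ℕ)) (α : σ) (h : s.sum α ≠ 0) :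
    ∃ ρ ∈ s, ρ α ≠ 0 := by
  induction s using Multiset.induction with
  | empty => exact absurd rfl h
  | cons ρ s ih =>
    by_cases h1 : ρ α = 0
    · rw [Multiset.sum_cons, Finsupp.add_apply, h1, zero_add] at h
      obtain ⟨ρ2, h2, h3⟩ := ih h
      exact ⟨ρ2, Multiset.mem_cons_of_mem h2, h3⟩
    · exact ⟨ρ, Multiset.mem_cons_self ρ s, h1⟩

theorem exc_mono {N : ℕ} (v w : Fin N →₀ ℕ) : exc v ≤ exc (v + w) := by
  unfold exc
  refine sum_le_sum fun i _ => ?_
  rw [Finsupp.add_apply]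
  omega

theorem exc_add_single {N : ℕ} (v : Fin N →₀ ℕ) (α : Fin N) (h : v α ≠ 0) :
    exc (v + Finsupp.single α 1) = exc v + 1 := by
  classical
  obtain ⟨w, hw⟩ : ∃ w : Fin N →₀ ℕ, w = v + Finsupp.single α 1 := ⟨_, rfl⟩
  rw [← hw]
  unfold exc
  rw [← Finset.add_sum_erase univ (fun i => w i - 1) (mem_univ α),
    ← Finset.add_sum_erase univ (fun i => v i - 1) (mem_univ α)]
  have h1 : ∑ i ∈ univ.erase α, (w i - 1) = ∑ i ∈ univ.erase α, (v i - 1) := by
    refine sum_congr rfl fun i hi => ?_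
    rw [hw, Finsupp.add_apply, Finsupp.single_eq_of_ne (ne_of_mem_erase hi), add_zero]
  have h2 : w α = v α + 1 := by
    rw [hw, Finsupp.add_apply, Finsupp.single_eq_same]
  rw [h1, h2]
  omega

/-- The base case. -/
def Base : Prop := ∀ (M K : ℕ) (j : Fin (M + K)) (g : Fin K → MvPolynomial (Fin (M + K)) ℂ),
  (∀ k : Fin K, IsGate (M + (k : ℕ)) (g k)) → Good (St M K (X j) g)

theorem good_ms (H : Base) (M m : ℕ) :
    ∀ (K : ℕ) (s : Multiset (Fin (M + K) →₀ ℕ)) (g : Fin K → MvPolynomial (Fin (M + K)) ℂ),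
      (∀ k : Fin K, IsGate (M + (k : ℕ)) (g k)) → s ≠ 0 → (∀ ρ ∈ s, ρ ≠ 0) →
      tdg s + exc s.sum ≤ m → Good (St M K (Es s) g) := by
  classical
  induction m with
  | zero =>
    intro K s g hg hs0 hs hm
    exfalso
    obtain ⟨ρ, hρ⟩ := Multiset.exists_mem_of_ne_zero hs0
    obtain ⟨s', rfl⟩ := Multiset.exists_cons_of_mem hρ
    rw [tdg_cons] at hm
    apply hs ρ hρ
    rw [← Finsupp.degree_eq_zero_iff]
    omega
  | succ m ih =>
    intro K s g hg hs0 hs hm
    have hstep : ∀ (ρ' : Fin (M + K) →₀ ℕ) (s' : Multiset (Fin (M + K) →₀ ℕ))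
        (h : MvPolynomial (Fin (M + K)) ℂ), IsGate (M + K) (-h) → (∀ ρ ∈ s', ρ ≠ 0) →
        Es s = Es s' + monomial ρ' 1 * h →
        ρ'.degree + 1 + tdg s' + exc (ρ' + s'.sum) ≤ m → Good (St M K (Es s) g) := by
      intro ρ' s' h hh hs' hE hm'
      rw [hE]
      apply good_nxt
      refine ih (K + 1 + 1) (nxt (Finsupp.mapDomain Fin.castSucc ρ' : Fin (M + (K + 1)) →₀ ℕ)
        (s'.map (Finsupp.mapDomain Fin.castSucc))) _
        (gate_snoc M (K + 1) _ _ (gate_snoc M K g (-h) hg hh)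
          (Or.inl ⟨Fin.last (M + K), Fin.is_lt _, rfl⟩)) ?_
        (nxt_ne _ _ (map_ne s' hs')) ?_
      · unfold nxt
        exact Multiset.cons_ne_zero
      · have h1 := tdg_nxt (N := M + (K + 1)) (Finsupp.mapDomain Fin.castSucc ρ')
          (s'.map (Finsupp.mapDomain Fin.castSucc))
        have h2 := exc_nxt (N := M + (K + 1)) (Finsupp.mapDomain Fin.castSucc ρ')
          (s'.map (Finsupp.mapDomain Fin.castSucc))
        have h3 := exc_map ρ' s'
        have h4 := tdg_map s'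
        have h5 : (Finsupp.mapDomain Fin.castSucc ρ' : Fin (M + K + 1) →₀ ℕ).degree =
            ρ'.degree := Finsupp.degree_mapDomain _ _
        refine le_trans (le_of_eq ?_) hm'
        refine (congrArg₂ (· + ·) h1 h2).trans ?_
        refine congrArg₂ (· + ·) ?_ h3
        exact congrArg₂ (· + ·) (congrArg (· + 1) h5) h4
    by_cases hA : ∃ α, 2 ≤ s.sum α
    · obtain ⟨α, hα⟩ := hA
      obtain ⟨ρ, hρ, hρα⟩ := exists_mem_of_sum s α (by omega)
      obtain ⟨s', rfl⟩ := Multiset.exists_cons_of_mem hρ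
      obtain ⟨ρ', rfl⟩ := exists_single_at ρ α hρα
      refine hstep ρ' s' (X α) (Or.inl ⟨α, α.2, rfl⟩)
        (fun ρ h => hs ρ (Multiset.mem_cons_of_mem h)) ?_ ?_
      · rw [Es_cons]
        refine (add_comm _ _).trans ?_
        rw [X, monomial_mul, mul_one]
      · rw [tdg_cons, map_add, Finsupp.degree_single, Multiset.sum_cons,
          add_right_comm ρ', exc_add_single] at hm
        · omega
        · rw [Multiset.sum_cons, add_right_comm ρ', Finsupp.add_apply,
            Finsupp.single_eq_same] at hα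
          omega
    · push Not at hA
      by_cases hB : ∃ ρ ∈ s, 2 ≤ ρ.degree
      · obtain ⟨ρ, hρ, hd⟩ := hB
        obtain ⟨s', rfl⟩ := Multiset.exists_cons_of_mem hρ
        obtain ⟨β, ρ1, h1⟩ := exists_single ρ (hs ρ hρ)
        have hd1 : ρ.degree = ρ1.degree + 1 := by
          rw [h1, map_add, Finsupp.degree_single]
        obtain ⟨α, ρ', h2⟩ := exists_single ρ1 (by
          rintro rfl
          rw [map_zero] at hd1
          omega)
        have hab : α ≠ β := by
          rintro rfl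
          have h3 := hA α
          rw [Multiset.sum_cons, h1, h2, Finsupp.add_apply, Finsupp.add_apply, Finsupp.add_apply,
            Finsupp.single_eq_same] at h3
          omega
        subst h2
        subst h1
        refine hstep ρ' s' (X α * X β) (Or.inr ⟨α, β, α.2, β.2, hab, Or.inr rfl⟩)
          (fun ρ h => hs ρ (Multiset.mem_cons_of_mem h)) ?_ ?_
        · rw [Es_cons]
          refine (add_comm _ _).trans ?_
          rw [X, X, monomial_mul, monomial_mul, mul_one, mul_one, add_assoc]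
        · rw [tdg_cons, map_add, map_add, Finsupp.degree_single, Finsupp.degree_single,
            Multiset.sum_cons] at hm
          have h3 := exc_mono (ρ' + s'.sum) (Finsupp.single α 1 + Finsupp.single β 1)
          have h4 : ρ' + s'.sum + (Finsupp.single α 1 + Finsupp.single β 1) =
              ρ' + Finsupp.single α 1 + Finsupp.single β 1 + s'.sum := by abel
          rw [h4] at h3
          omega
      · push Not at hB
        have hsing : ∀ ρ ∈ s, ∃ j, ρ = Finsupp.single j 1 := by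
          intro ρ hρ
          obtain ⟨j, ρ', h1⟩ := exists_single ρ (hs ρ hρ)
          have h2 := hB ρ hρ
          rw [h1, map_add, Finsupp.degree_single] at h2
          have h3 : ρ' = 0 := by
            rw [← Finsupp.degree_eq_zero_iff]
            omega
          exact ⟨j, by rw [h1, h3, zero_add]⟩
        obtain ⟨ρ, hρ⟩ := Multiset.exists_mem_of_ne_zero hs0
        obtain ⟨s1, rfl⟩ := Multiset.exists_cons_of_mem hρ
        obtain ⟨a, rfl⟩ := hsing ρ hρ
        by_cases hs1 : s1 = 0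
        · subst hs1
          rw [Es_cons, Es_zero, add_zero]
          exact H M K a g hg
        · obtain ⟨ρ2, hρ2⟩ := Multiset.exists_mem_of_ne_zero hs1
          obtain ⟨s', rfl⟩ := Multiset.exists_cons_of_mem hρ2
          obtain ⟨b, rfl⟩ := hsing ρ2 (Multiset.mem_cons_of_mem hρ2)
          have hab : a ≠ b := by
            rintro rfl
            have h3 := hA a
            rw [Multiset.sum_cons, Multiset.sum_cons, Finsupp.add_apply, Finsupp.add_apply,
              Finsupp.single_eq_same] at h3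
            omega
          refine hstep 0 s' (X a + X b) (Or.inr ⟨a, b, a.2, b.2, hab, Or.inl rfl⟩)
            (fun ρ h => hs ρ (Multiset.mem_cons_of_mem (Multiset.mem_cons_of_mem h))) ?_ ?_
          · rw [Es_cons, Es_cons]
            have h1 : (monomial (0 : Fin (M + K) →₀ ℕ) (1 : ℂ)) = 1 := rfl
            rw [h1, one_mul, X, X]
            ring
          · rw [tdg_cons, tdg_cons, Finsupp.degree_single, Finsupp.degree_single,
              Multiset.sum_cons, Multiset.sum_cons] at hm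
            have h3 := exc_mono (0 + s'.sum) (Finsupp.single a 1 + Finsupp.single b 1)
            have h4 : 0 + s'.sum + (Finsupp.single a 1 + Finsupp.single b 1) =
                Finsupp.single a 1 + (Finsupp.single b 1 + s'.sum) := by
              rw [zero_add]
              abel
            rw [h4] at h3
            rw [map_zero]
            omega

end Pool.Agent.H56.CR
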