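import Pool.Agent.H56.CR.JET

/-!
# CNT: solutions of `u v = c` in `K[t]/(t^k)`
-/

set_option autoImplicit false

namespace Pool.Agent.H56.CR

open Finset

variable {K : Type} [Field K]

/-- Telescoping along the ideals generated by `t^j`. -/
theorem tele [Finite K] {k : ℕ} [Fintype (Jet K k)] (h : Jet K k → ℂ) (v : ℕ → ℂ)
    (hv : ∀ j < k, ∀ u : Jet K k, (jt K k) ^ j ∣ u → ¬ (jt K k) ^ (j + 1) ∣ u → h u = v j) :
    ∑ u, h u = ∑ j ∈ range k,
      ((Nat.card K : ℂ) ^ (k - j) - (Nat.card K : ℂ) ^ (k - (j + 1))) * v j + h 0 := by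
  classical
  set D : ℕ → Finset (Jet K k) := fun j => univ.filter fun u => (jt K k) ^ j ∣ u with hD
  have hsub : ∀ j, D (j + 1) ⊆ D j := by
    intro j u hu
    rw [hD, mem_filter] at hu ⊢
    exact ⟨mem_univ _, (pow_dvd_pow _ (Nat.le_succ j)).trans hu.2⟩
  have hcard : ∀ j ≤ k, ((D j).card : ℂ) = (Nat.card K : ℂ) ^ (k - j) := by
    intro j hj
    have h1 := card_dvd (K := K) hj
    rw [Nat.card_eq_fintype_card, Fintype.card_subtype] at h1
    rw [hD]
    dsimp only
    rw [h1]
    push_cast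
    rfl
  have hstep : ∀ j < k, ∑ u ∈ D j, h u =
      ((Nat.card K : ℂ) ^ (k - j) - (Nat.card K : ℂ) ^ (k - (j + 1))) * v j +
        ∑ u ∈ D (j + 1), h u := by
    intro j hj
    rw [← Finset.sum_sdiff (hsub j)]
    congr 1
    rw [Finset.sum_congr rfl (g := fun _ => v j), sum_const, nsmul_eq_mul]
    · congr 1
      rw [Finset.card_sdiff_of_subset (hsub j), Nat.cast_sub (card_le_card (hsub j)),
        hcard j hj.le, hcard (j + 1) hj]
    · intro u hu
      rw [mem_sdiff, hD, mem_filter, mem_filter] at hu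
      exact hv j hj u hu.1.2 fun h' => hu.2 ⟨mem_univ _, h'⟩
  have hall : ∀ i ≤ k, ∑ u, h u = ∑ j ∈ range i,
      ((Nat.card K : ℂ) ^ (k - j) - (Nat.card K : ℂ) ^ (k - (j + 1))) * v j +
        ∑ u ∈ D i, h u := by
    intro i
    induction i with
    | zero =>
      intro _
      rw [sum_range_zero, zero_add]
      refine sum_congr ?_ fun _ _ => rfl
      rw [hD]
      ext u
      simp
    | succ i ih =>
      intro hi
      rw [ih (by omega), hstep i (by omega), sum_range_succ, add_assoc]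
  rw [hall k le_rfl]
  congr 1
  have h1 : D k = {0} := by
    ext u
    rw [hD, mem_filter, mem_singleton, jt_pow, zero_dvd_iff]
    simp
  rw [h1, sum_singleton]

/-- `t^j v = c`. -/
theorem card_mul_pow [Finite K] {k j : ℕ} (hj : j ≤ k) (c : Jet K k)
    (hc : (jt K k) ^ j ∣ c) : Nat.card {v : Jet K k // (jt K k) ^ j * v = c} = Nat.card K ^ j := by
  obtain ⟨v0, rfl⟩ := hc
  have h0 : Nat.card {v : Jet K k // (jt K k) ^ j * v = (jt K k) ^ j * v0} =
      Nat.card {v : Jet K k // (jt K k) ^ j * v = 0} := by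
    refine Nat.card_congr ⟨fun v => ⟨v.1 - v0, by rw [mul_sub, v.2, sub_self]⟩,
      fun v => ⟨v.1 + v0, by rw [mul_add, v.2, zero_add]⟩, fun v => by simp, fun v => by simp⟩
  rw [h0]
  set g : Jet K k →+ Jet K k := AddMonoidHom.mulLeft ((jt K k) ^ j) with hg
  have h1 := card_preimage g.rangeRestrict g.rangeRestrict_surjective (fun y => y = 0)
  have h2 : Nat.card {y : g.range // y = 0} = 1 := by
    rw [Nat.card_eq_one_iff_unique]
    exact ⟨⟨fun a b => Subtype.ext (a.2.trans b.2.symm)⟩, ⟨⟨0, rfl⟩⟩⟩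
  have h3 : Nat.card {x : Jet K k // g.rangeRestrict x = 0} =
      Nat.card {v : Jet K k // (jt K k) ^ j * v = 0} := by
    refine Nat.card_congr (Equiv.subtypeEquivRight fun x => ?_)
    rw [Subtype.ext_iff]
    rfl
  have h4 : Nat.card g.range = Nat.card K ^ (k - j) := by
    rw [← card_dvd hj]
    refine Nat.card_congr (Equiv.subtypeEquivRight fun x => ?_)
    constructor
    · rintro ⟨y, rfl⟩
      exact ⟨y, rfl⟩
    · rintro ⟨y, rfl⟩
      exact ⟨y, rfl⟩
  rw [h2, h3, h4, mul_one, jet_card] at h1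
  have h5 : Nat.card K ^ k = Nat.card K ^ j * Nat.card K ^ (k - j) := by
    rw [← pow_add, Nat.add_sub_cancel' hj]
  rw [h5] at h1
  exact Nat.eq_of_mul_eq_mul_right (pow_pos Nat.card_pos _) h1

/-- An element of exact order `j` is a unit times `t^j`. -/
theorem unit_of_order {k j : ℕ} (u : Jet K k) (h1 : (jt K k) ^ j ∣ u)
    (h2 : ¬ (jt K k) ^ (j + 1) ∣ u) : ∃ e : (Jet K k)ˣ, u = (jt K k) ^ j * e := by
  obtain ⟨a, rfl⟩ := h1
  rcases jet_unit k a with h | h
  · obtain ⟨e, rfl⟩ := h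
    exact ⟨e, rfl⟩
  · exfalso
    apply h2
    rw [pow_succ]
    exact mul_dvd_mul_left _ h

open Classical in
/-- The number of solutions of `u v = c`. -/
theorem card_mul_eq [Finite K] {k : ℕ} (c : Jet K k) :
    (Nat.card {z : Jet K k × Jet K k // z.1 * z.2 = c} : ℂ) =
      (Nat.card K : ℂ) ^ k * ((1 - (Nat.card K : ℂ)⁻¹) *
        ∑ j ∈ range k, (if (jt K k) ^ j ∣ c then 1 else 0) + if (jt K k) ^ k ∣ c then 1 else 0) := by
  have : Fintype (Jet K k) := Fintype.ofFinite _
  have hq : (Nat.card K : ℂ) ≠ 0 := by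
    have := Nat.card_pos (α := K)
    exact_mod_cast this.ne'
  have e : {z : Jet K k × Jet K k // z.1 * z.2 = c} ≃ Σ u : Jet K k, {v : Jet K k // u * v = c} :=
    ⟨fun z => ⟨z.1.1, ⟨z.1.2, z.2⟩⟩, fun z => ⟨(z.1, z.2.1), z.2.2⟩, fun _ => rfl, fun _ => rfl⟩
  rw [Nat.card_congr e, Nat.card_sigma]
  push_cast
  rw [tele (fun u => (Nat.card {v : Jet K k // u * v = c} : ℂ))
    (fun j => if (jt K k) ^ j ∣ c then (Nat.card K : ℂ) ^ j else 0)]
  · rw [mul_add, ← mul_assoc, mul_sum]
    congr 1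
    · refine sum_congr rfl fun j hj => ?_
      rw [mem_range] at hj
      split_ifs with h
      · have h1 : (Nat.card K : ℂ) ^ (k - j) = (Nat.card K : ℂ) ^ (k - (j + 1)) * Nat.card K := by
          rw [← pow_succ]
          congr 1
          omega
        have h2 : (Nat.card K : ℂ) ^ k =
            (Nat.card K : ℂ) ^ (k - (j + 1)) * (Nat.card K : ℂ) ^ j * Nat.card K := by
          rw [← pow_add, ← pow_succ]
          congr 1
          omega
        rw [h1, h2]
        field_simp
      · rw [mul_zero, mul_zero]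
    · rw [jt_pow]
      by_cases h : c = 0
      · rw [if_pos (by rw [h])]
        rw [mul_one]
        have h1 : Nat.card {v : Jet K k // (0 : Jet K k) * v = c} = Nat.card (Jet K k) :=
          Nat.card_congr (Equiv.subtypeUnivEquiv fun v => by rw [zero_mul, h])
        rw [h1, jet_card]
        push_cast
        rfl
      · rw [if_neg (by rwa [zero_dvd_iff]), mul_zero]
        have h1 : Nat.card {v : Jet K k // (0 : Jet K k) * v = c} = 0 := by
          rw [Nat.card_eq_zero]
          left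
          exact ⟨fun v => h (by rw [← v.2, zero_mul])⟩
        rw [h1, Nat.cast_zero]
  · intro j hj u h1 h2
    obtain ⟨e, rfl⟩ := unit_of_order u h1 h2
    have h3 : Nat.card {v : Jet K k // (jt K k) ^ j * e * v = c} =
        Nat.card {v : Jet K k // (jt K k) ^ j * v = c} := by
      refine Nat.card_congr ⟨fun v => ⟨e * v.1, by rw [← mul_assoc]; exact v.2⟩,
        fun v => ⟨(e⁻¹ : (Jet K k)ˣ) * v.1, ?_⟩, fun v => ?_, fun v => ?_⟩
      · rw [mul_assoc, ← mul_assoc (e : Jet K k), Units.mul_inv, one_mul, v.2]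
      · simp
      · simp
    rw [h3]
    split_ifs with h
    · rw [card_mul_pow hj.le c h]
      push_cast
      rfl
    · have h4 : Nat.card {v : Jet K k // (jt K k) ^ j * v = c} = 0 := by
        rw [Nat.card_eq_zero]
        left
        exact ⟨fun v => h ⟨v.1, v.2.symm⟩⟩
      rw [h4, Nat.cast_zero]

theorem jt_ann {k j : ℕ} (hj : j ≤ k) (u : Jet K k) :
    u * (jt K k) ^ j = 0 ↔ (jt K k) ^ (k - j) ∣ u := by
  constructor
  · obtain ⟨p, rfl⟩ := AdjoinRoot.mk_surjective u
    intro h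
    have h1 : (jt K k) ^ j = AdjoinRoot.mk _ (Polynomial.X ^ j) := by
      rw [map_pow, AdjoinRoot.mk_X]
      rfl
    rw [h1, ← map_mul, AdjoinRoot.mk_eq_zero] at h
    obtain ⟨r, hr⟩ := h
    have h2 : (Polynomial.X : Polynomial K) ^ k = Polynomial.X ^ (k - j) * Polynomial.X ^ j := by
      rw [← pow_add, Nat.sub_add_cancel hj]
    rw [h2] at hr
    have h3 : p = Polynomial.X ^ (k - j) * r := by
      have h4 : (Polynomial.X : Polynomial K) ^ j ≠ 0 := pow_ne_zero _ Polynomial.X_ne_zero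
      apply mul_right_cancel₀ h4
      rw [hr]
      ring
    refine ⟨AdjoinRoot.mk _ r, ?_⟩
    rw [h3, map_mul, map_pow, AdjoinRoot.mk_X]
    rfl
  · rintro ⟨r, rfl⟩
    have h2 : (jt K k) ^ (k - j) * (jt K k) ^ j = 0 := by
      rw [← pow_add, Nat.sub_add_cancel hj, jt_pow]
    calc (jt K k) ^ (k - j) * r * (jt K k) ^ j = (jt K k) ^ (k - j) * (jt K k) ^ j * r := by ring
      _ = 0 := by rw [h2, zero_mul]

open Classical in
/-- The number of solutions `v` of `u v = 0`. -/
theorem card_ann [Finite K] {k : ℕ} (u : Jet K k) :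
    (Nat.card {v : Jet K k // u * v = 0} : ℂ) =
      ∑ i ∈ range k, ((Nat.card K : ℂ) ^ (i + 1) - (Nat.card K : ℂ) ^ i) *
        (if (jt K k) ^ (i + 1) ∣ u then 1 else 0) + 1 := by
  have : Fintype (Jet K k) := Fintype.ofFinite _
  have h0 : (Nat.card {v : Jet K k // u * v = 0} : ℂ) =
      ∑ v : Jet K k, if u * v = 0 then 1 else 0 := by
    rw [Nat.card_eq_fintype_card, Fintype.card_subtype, Finset.sum_boole]
  rw [h0, tele (fun v => if u * v = 0 then 1 else 0)
    (fun j => if (jt K k) ^ (k - j) ∣ u then 1 else 0)]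
  · rw [if_pos (mul_zero u)]
    congr 1
    rw [← Finset.sum_range_reflect]
    refine sum_congr rfl fun j hj => ?_
    rw [mem_range] at hj
    have h1 : k - (k - 1 - j) = j + 1 := by omega
    have h2 : k - (k - 1 - j + 1) = j := by omega
    rw [h1, h2]
    congr!
  · intro j hj v h1 h2
    obtain ⟨e, rfl⟩ := unit_of_order v h1 h2
    have h3 : u * ((jt K k) ^ j * e) = 0 ↔ (jt K k) ^ (k - j) ∣ u := by
      rw [← jt_ann hj.le, ← mul_assoc]
      constructor
      · intro h
        have h4 := congrArg (fun z => z * ((e⁻¹ : (Jet K k)ˣ) : Jet K k)) h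
        rwa [mul_assoc, Units.mul_inv, mul_one, zero_mul] at h4
      · intro h
        rw [h, zero_mul]
    simp only [h3]

end Pool.Agent.H56.CR
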