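import Mathlib
import Pool.Agent.H22.Defs

/-!
# The topological zeta function of an arbitrary polynomial, and hypergraph polynomials

`meas`, `igusa`: the measure of `{x ∈ K[[t]]^σ : t^k ∣ f(x)}` and the zeta function
`∑_k meas{ord f(x) = k} T^k`. `Lim q`: the pairs `(H, Z)` such that `Z(s)` is the limit of
`H_e(q^{-es})` for `e → 0`. `IsTopZeta f Z`: `Z` is the topological zeta function of `f`
(Denef and Loeser).
-/

set_option autoImplicit false

namespace Pool.Agent.H56.CR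

open Finset

/-- The ring `K[t]/(t^k)`. -/
abbrev Jet (K : Type) [Field K] (k : ℕ) : Type :=
  AdjoinRoot ((Polynomial.X : Polynomial K) ^ k)

/-- The number of solutions of `f = 0` in `K[t]/(t^k)`, divided by the number of all tuples; the
coefficients of `f` are mapped to `K` by `ι`. -/
noncomputable def meas {σ A K : Type} [CommRing A] [Field K] (ι : A →+* K)
    (f : MvPolynomial σ A) (k : ℕ) : ℂ :=
  (Nat.card {x : σ → Jet K k //
    MvPolynomial.eval₂ ((algebraMap K (Jet K k)).comp ι) x f = 0} : ℂ) /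
      (Nat.card (σ → Jet K k) : ℂ)

/-- Igusa's zeta function of `f` over `K[[t]]`, as a power series in `T`: the coefficient of `T^k`
is the measure of `{x : ord f(x) = k}`. -/
noncomputable def igusa {σ A K : Type} [CommRing A] [Field K] (ι : A →+* K)
    (f : MvPolynomial σ A) : PowerSeries ℂ :=
  PowerSeries.mk fun k => meas ι f k - meas ι f (k + 1)

/-- The power series `(q - 1) q^{-ν} T^N / (1 - q^{-ν} T^N)`. -/
noncomputable def geo (q : ℂ) (N ν : ℕ) : PowerSeries ℂ :=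
  PowerSeries.C (q - 1) * (PowerSeries.C ((q ^ ν)⁻¹) * PowerSeries.X ^ N) *
    (1 - PowerSeries.C ((q ^ ν)⁻¹) * PowerSeries.X ^ N)⁻¹

/-- The algebra generated by the pairs `(e ↦ λ^e, 1)` with `λ ≠ 0`, and
`(e ↦ (q^e - 1) q^{-νe} T^N / (1 - q^{-νe} T^N), 1 / (ν + N s))` with `N, ν ≥ 1`; here
`e = 1, 2, 3, …` is the number `e + 1`, `e : ℕ`, in Lean. -/
noncomputable def Lim (q : ℕ) : Subalgebra ℂ ((ℕ → PowerSeries ℂ) × RatFunc ℂ) :=
  Algebra.adjoin ℂ
    ({z | ∃ l : ℂ, l ≠ 0 ∧ z = (fun e => PowerSeries.C (l ^ (e + 1)), 1)} ∪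
     {z | ∃ N ν : ℕ, 0 < N ∧ 0 < ν ∧ z = (fun e => geo ((q : ℂ) ^ (e + 1)) N ν,
        1 / ((ν : RatFunc ℂ) + (N : RatFunc ℂ) * RatFunc.X))})

/-- `Z` is the topological zeta function of `f`: `f` has coefficients in a finitely generated
subring `A` of `ℂ` such that for all homomorphisms from `A` to a finite field `F` the sequence of
the zeta functions over the extensions of `F` of degree `e = 1, 2, 3, …` has the limit `Z` for
`e → 0`. -/
def IsTopZeta {σ : Type} (f : MvPolynomial σ ℂ) (Z : RatFunc ℂ) : Prop :=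
  ∃ (S : Finset ℂ) (f0 : MvPolynomial σ (Subring.closure (S : Set ℂ))),
    MvPolynomial.map (Subring.subtype (Subring.closure (S : Set ℂ))) f0 = f ∧
    ∀ (F : Type) [Field F] [Finite F] (ι : Subring.closure (S : Set ℂ) →+* F)
      (K : ℕ → Type) [∀ e, Field (K e)] [∀ e, Algebra F (K e)],
      (∀ e, Nat.card (K e) = Nat.card F ^ (e + 1)) →
      ((fun e => igusa ((algebraMap F (K e)).comp ι) f0, Z) :
        (ℕ → PowerSeries ℂ) × RatFunc ℂ) ∈ Lim (Nat.card F)

/-- `f` is a sum of different squarefree monomials of degree `2` or `3`: the polynomial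
`∑_{E ∈ ℋ} ∏_{i ∈ E} x_i` of a hypergraph `ℋ` all of whose edges have size `2` or `3`. -/
def IsEdgePoly {n : ℕ} (f : MvPolynomial (Fin n) ℂ) : Prop :=
  ∃ ℋ : Finset (Finset (Fin n)), (∀ E ∈ ℋ, E.card = 2 ∨ E.card = 3) ∧
    f = ∑ E ∈ ℋ, ∏ i ∈ E, MvPolynomial.X i

/-- The strong monodromy conjecture for the polynomials with the property `𝒞`. -/
def SMC (𝒞 : ∀ n : ℕ, MvPolynomial (Fin n) ℂ → Prop) : Prop :=
  ∀ (n : ℕ) (f : MvPolynomial (Fin n) ℂ), 𝒞 n f → (∀ c : ℂ, f ≠ MvPolynomial.C c) →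
    ∀ Z : RatFunc ℂ, IsTopZeta f Z →
      ∀ (b : Polynomial ℂ) (P : H22.WeylS n), H22.FunctionalEquation f b P →
        ∀ s : ℂ, Z.denom.IsRoot s → b.IsRoot s

end Pool.Agent.H56.CR
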