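import Pool.Agent.H56.CR.CIR

/-!
# EDG: circuits are hypergraph polynomials
-/

set_option autoImplicit false

namespace Pool.Agent.H56.CR

open Finset MvPolynomial
open Pool.Agent.H37.SM Pool.Agent.H22.T7 Pool.Agent.H56.ST

theorem ne_of_mem {α : Type} {s t : Finset α} (x : α) (hs : x ∈ s) (ht : x ∉ t) : s ≠ t := by
  rintro rfl
  exact ht hs

/-- The edges of a gate. -/
theorem gate_edges {M K : ℕ} (k : Fin K) (g : MvPolynomial (Fin (M + K)) ℂ)
    (hg : IsGate (M + (k : ℕ)) g) :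
    ∃ He : Finset (Finset (Fin (M + K) ⊕ (Fin K ⊕ Unit))),
      (∀ E ∈ He, Sum.inr (Sum.inl k) ∈ E ∧ (E.card = 2 ∨ E.card = 3) ∧ Sum.inr (Sum.inr ()) ∉ E ∧
        ∀ k', Sum.inr (Sum.inl k') ∈ E → k' = k) ∧
      (X (Sum.inr (Sum.inl k)) * (X (Sum.inl (Fin.natAdd M k)) - rename Sum.inl g) :
        MvPolynomial (Fin (M + K) ⊕ (Fin K ⊕ Unit)) ℂ) = ∑ E ∈ He, ∏ i ∈ E, X i := by
  classical
  have huc : (Sum.inr (Sum.inl k) : Fin (M + K) ⊕ (Fin K ⊕ Unit)) ≠
      Sum.inl (Fin.natAdd M k) := by simp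
  have hua : ∀ a : Fin (M + K), (Sum.inr (Sum.inl k) : Fin (M + K) ⊕ (Fin K ⊕ Unit)) ≠
      Sum.inl a := by simp
  have hca : ∀ a : Fin (M + K), (a : ℕ) < M + (k : ℕ) →
      (Sum.inl (Fin.natAdd M k) : Fin (M + K) ⊕ (Fin K ⊕ Unit)) ≠ Sum.inl a := by
    intro a ha h
    have h1 := Sum.inl_injective h
    have h2 := congrArg (fun z : Fin (M + K) => (z : ℕ)) h1
    simp only [Fin.val_natAdd] at h2
    omega
  have hgood2 : ∀ a : Fin (M + K), Sum.inr (Sum.inl k) ∈
        ({Sum.inr (Sum.inl k), Sum.inl a} : Finset (Fin (M + K) ⊕ (Fin K ⊕ Unit))) ∧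
      (({Sum.inr (Sum.inl k), Sum.inl a} : Finset (Fin (M + K) ⊕ (Fin K ⊕ Unit))).card = 2 ∨
        ({Sum.inr (Sum.inl k), Sum.inl a} : Finset (Fin (M + K) ⊕ (Fin K ⊕ Unit))).card = 3) ∧
      Sum.inr (Sum.inr ()) ∉
        ({Sum.inr (Sum.inl k), Sum.inl a} : Finset (Fin (M + K) ⊕ (Fin K ⊕ Unit))) ∧
      ∀ k', Sum.inr (Sum.inl k') ∈
        ({Sum.inr (Sum.inl k), Sum.inl a} : Finset (Fin (M + K) ⊕ (Fin K ⊕ Unit))) → k' = k := by
    intro a
    refine ⟨by simp, Or.inl (Finset.card_pair (hua a)), by simp, ?_⟩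
    intro k' hk'
    simpa using hk'
  rcases hg with ⟨a, ha, rfl⟩ | ⟨a, b, ha, hb, hab, rfl | rfl⟩
  · refine ⟨{{Sum.inr (Sum.inl k), Sum.inl (Fin.natAdd M k)}, {Sum.inr (Sum.inl k), Sum.inl a}},
      ?_, ?_⟩
    · intro E hE
      rw [mem_insert, mem_singleton] at hE
      rcases hE with rfl | rfl
      · exact hgood2 _
      · exact hgood2 _
    · have hne : ({Sum.inr (Sum.inl k), Sum.inl (Fin.natAdd M k)} :
          Finset (Fin (M + K) ⊕ (Fin K ⊕ Unit))) ≠ {Sum.inr (Sum.inl k), Sum.inl a} := by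
        refine ne_of_mem (Sum.inl (Fin.natAdd M k)) (by simp) ?_
        rw [mem_insert, mem_singleton, not_or]
        exact ⟨huc.symm, hca a ha⟩
      rw [Finset.sum_pair hne, Finset.prod_pair huc, Finset.prod_pair (hua a), map_neg, rename_X]
      ring
  · refine ⟨{{Sum.inr (Sum.inl k), Sum.inl (Fin.natAdd M k)}, {Sum.inr (Sum.inl k), Sum.inl a},
      {Sum.inr (Sum.inl k), Sum.inl b}}, ?_, ?_⟩
    · intro E hE
      rw [mem_insert, mem_insert, mem_singleton] at hE
      rcases hE with rfl | rfl | rfl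
      · exact hgood2 _
      · exact hgood2 _
      · exact hgood2 _
    · have hne : ∀ a : Fin (M + K), (a : ℕ) < M + (k : ℕ) →
          ({Sum.inr (Sum.inl k), Sum.inl (Fin.natAdd M k)} :
          Finset (Fin (M + K) ⊕ (Fin K ⊕ Unit))) ≠ {Sum.inr (Sum.inl k), Sum.inl a} := by
        intro a ha
        refine ne_of_mem (Sum.inl (Fin.natAdd M k)) (by simp) ?_
        rw [mem_insert, mem_singleton, not_or]
        exact ⟨huc.symm, hca a ha⟩
      have hne2 : ({Sum.inr (Sum.inl k), Sum.inl a} :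
          Finset (Fin (M + K) ⊕ (Fin K ⊕ Unit))) ≠ {Sum.inr (Sum.inl k), Sum.inl b} := by
        refine ne_of_mem (Sum.inl a) (by simp) ?_
        rw [mem_insert, mem_singleton, not_or]
        exact ⟨(hua a).symm, fun h => hab (Sum.inl_injective h)⟩
      rw [Finset.sum_insert (by
          rw [mem_insert, mem_singleton, not_or]
          exact ⟨hne a ha, hne b hb⟩), Finset.sum_pair hne2, Finset.prod_pair huc,
        Finset.prod_pair (hua a), Finset.prod_pair (hua b), map_neg, map_add, rename_X, rename_X]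
      ring
  · refine ⟨{{Sum.inr (Sum.inl k), Sum.inl (Fin.natAdd M k)},
      {Sum.inr (Sum.inl k), Sum.inl a, Sum.inl b}}, ?_, ?_⟩
    · intro E hE
      rw [mem_insert, mem_singleton] at hE
      rcases hE with rfl | rfl
      · exact hgood2 _
      · refine ⟨by simp, Or.inr ?_, by simp, ?_⟩
        · rw [Finset.card_eq_three]
          exact ⟨_, _, _, hua a, hua b, fun h => hab (Sum.inl_injective h), rfl⟩
        · intro k' hk'
          simpa using hk'
    · have hne : ({Sum.inr (Sum.inl k), Sum.inl (Fin.natAdd M k)} :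
          Finset (Fin (M + K) ⊕ (Fin K ⊕ Unit))) ≠
          {Sum.inr (Sum.inl k), Sum.inl a, Sum.inl b} := by
        refine ne_of_mem (Sum.inl (Fin.natAdd M k)) (by simp) ?_
        rw [mem_insert, mem_insert, mem_singleton, not_or, not_or]
        exact ⟨huc.symm, hca a ha, hca b hb⟩
      have hab' : (Sum.inl a : Fin (M + K) ⊕ (Fin K ⊕ Unit)) ≠ Sum.inl b :=
        fun h => hab (Sum.inl_injective h)
      rw [Finset.sum_pair hne, Finset.prod_pair huc, Finset.prod_insert (by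
          rw [mem_insert, mem_singleton, not_or]
          exact ⟨hua a, hua b⟩), Finset.prod_pair hab', map_neg, map_mul, rename_X, rename_X]
      ring

theorem St_edges (M K : ℕ) (j : Fin (M + K)) (g : Fin K → MvPolynomial (Fin (M + K)) ℂ)
    (hg : ∀ k : Fin K, IsGate (M + (k : ℕ)) (g k)) :
    ∃ H : Finset (Finset (Fin (M + K) ⊕ (Fin K ⊕ Unit))), (∀ E ∈ H, E.card = 2 ∨ E.card = 3) ∧
      St M K (X j) g = ∑ E ∈ H, ∏ i ∈ E, X i := by
  classical
  choose He h1 h2 using fun k => gate_edges k (g k) (hg k)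
  refine ⟨insert {Sum.inr (Sum.inr ()), Sum.inl j} (univ.biUnion He), ?_, ?_⟩
  · intro E hE
    rw [mem_insert, mem_biUnion] at hE
    rcases hE with rfl | ⟨k, -, hk⟩
    · exact Or.inl (Finset.card_pair (by simp))
    · exact (h1 k E hk).2.1
  · rw [Finset.sum_insert, Finset.sum_biUnion, Finset.prod_pair (by simp)]
    · unfold St
      rw [rename_X]
      congr 1
      exact Finset.sum_congr rfl fun k _ => h2 k
    · intro k _ k' _ hkk'
      rw [Function.onFun, Finset.disjoint_left]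
      intro E hE hE'
      exact hkk' ((h1 k' E hE').2.2.2 k (h1 k E hE).1)
    · rw [mem_biUnion]
      rintro ⟨k, -, hk⟩
      exact (h1 k _ hk).2.2.1 (mem_insert_self _ _)

theorem base_of (H : SMC fun _ f => IsEdgePoly f) : Base := by
  classical
  intro M K j g hg
  obtain ⟨n, ⟨φ⟩⟩ := Finite.exists_equiv_fin (Fin (M + K) ⊕ (Fin K ⊕ Unit))
  apply good_rename φ
  intro hc Z hZ b hb t ht
  obtain ⟨P, hP⟩ := fe_of_feq _ b hb
  refine H n _ ?_ hc Z hZ b P hP t ht
  obtain ⟨ℋ, h1, h2⟩ := St_edges M K j g hg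
  refine ⟨ℋ.map (Finset.mapEmbedding φ.toEmbedding).toEmbedding, ?_, ?_⟩
  · intro E hE
    rw [Finset.mem_map] at hE
    obtain ⟨E', hE', rfl⟩ := hE
    change (E'.map φ.toEmbedding).card = 2 ∨ (E'.map φ.toEmbedding).card = 3
    rw [Finset.card_map]
    exact h1 E' hE'
  · rw [Finset.sum_map, h2, map_sum]
    refine Finset.sum_congr rfl fun E _ => ?_
    change _ = ∏ i ∈ E.map φ.toEmbedding, X i
    rw [Finset.prod_map, map_prod]
    exact Finset.prod_congr rfl fun i _ => rename_X φ i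

end Pool.Agent.H56.CR
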