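import Pool.Agent.H56.CR.EDG

/-!
# INI: polynomials with integral coefficients
-/

set_option autoImplicit false

namespace Pool.Agent.H56.CR

open Finset MvPolynomial
open Pool.Agent.H37.SM Pool.Agent.H22.T7 Pool.Agent.H56.ST

theorem map_int {M : ℕ} (f : MvPolynomial (Fin M) ℤ) :
    MvPolynomial.map (Int.castRingHom ℂ) f =
      Es (∑ ρ ∈ f.support, Multiset.replicate (f.coeff ρ).toNat ρ) -
        Es (∑ ρ ∈ f.support, Multiset.replicate (-f.coeff ρ).toNat ρ) := by
  rw [map_sum, map_sum, ← sum_sub_distrib]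
  conv_lhs => rw [← f.support_sum_monomial_coeff, map_sum]
  refine sum_congr rfl fun ρ _ => ?_
  rw [Es_replicate, Es_replicate, MvPolynomial.map_monomial, C_mul_monomial, C_mul_monomial,
    ← map_sub]
  congr 1
  have h1 : ((f.coeff ρ : ℤ) : ℂ) = ((f.coeff ρ).toNat : ℂ) - ((-f.coeff ρ).toNat : ℂ) := by
    have h2 := Int.toNat_sub_toNat_neg (f.coeff ρ)
    have h3 := congrArg (Int.cast : ℤ → ℂ) h2
    push_cast at h3
    exact h3.symm
  rw [eq_intCast, h1]
  ring

/-- Negative coefficients. -/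
theorem good_pm (H : Base) (M m : ℕ) :
    ∀ (K : ℕ) (s t : Multiset (Fin (M + K) →₀ ℕ)) (g : Fin K → MvPolynomial (Fin (M + K)) ℂ),
      (∀ k : Fin K, IsGate (M + (k : ℕ)) (g k)) → s + t ≠ 0 → (∀ ρ ∈ s, ρ ≠ 0) →
      (∀ ρ ∈ t, ρ ≠ 0) → Multiset.card t = m → Good (St M K (Es s - Es t) g) := by
  classical
  induction m with
  | zero =>
    intro K s t g hg hst hs ht hm
    rw [Multiset.card_eq_zero] at hm
    subst hm
    rw [add_zero] at hst
    rw [Es_zero, sub_zero]
    exact good_ms H M (tdg s + exc s.sum) K s g hg hst hs le_rfl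
  | succ m ih =>
    intro K s t g hg hst hs ht hm
    have ht0 : t ≠ 0 := by
      rintro rfl
      rw [Multiset.card_zero] at hm
      omega
    obtain ⟨ρ, hρt⟩ := Multiset.exists_mem_of_ne_zero ht0
    obtain ⟨t', rfl⟩ := Multiset.exists_cons_of_mem hρt
    have ht' : Multiset.card t' = m := by
      rw [Multiset.card_cons] at hm
      omega
    obtain ⟨α, ρ', rfl⟩ := exists_single ρ (ht ρ (Multiset.mem_cons_self _ _))
    have h1 : Es s - Es ((ρ' + Finsupp.single α 1) ::ₘ t') =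
        (Es s - Es t') + monomial ρ' 1 * (- X α) := by
      rw [Es_cons]
      have h2 : (monomial (ρ' + Finsupp.single α 1) (1 : ℂ)) = monomial ρ' 1 * X α := by
        rw [X, monomial_mul, mul_one]
      rw [h2]
      ring
    rw [h1]
    apply good_red
    have h3 : ren M K (Es s - Es t') + ren M K (monomial ρ' 1) * X (Fin.last (M + K)) =
        Es (nxt ρ' s) - Es (t'.map (Finsupp.mapDomain Fin.castSucc)) := by
      rw [Es_nxt, Es_map, map_sub]
      ring
    have h4 : Good (St M (K + 1) (Es (nxt ρ' s) - Es (t'.map (Finsupp.mapDomain Fin.castSucc)))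
        (Fin.snoc (fun k => ren M K (g k)) (ren M K (- X α)))) := by
      refine ih (K + 1) (nxt ρ' s) (t'.map (Finsupp.mapDomain Fin.castSucc)) _
        (gate_snoc M K g (- X α) hg (Or.inl ⟨α, α.2, rfl⟩)) ?_ (nxt_ne ρ' s hs)
        (map_ne t' fun ρ h => ht ρ (Multiset.mem_cons_of_mem h)) ?_
      · intro h5
        have h6 := congrArg Multiset.card h5
        unfold nxt at h6
        rw [Multiset.card_add, Multiset.card_cons, Multiset.card_zero] at h6
        omega
      · rw [Multiset.card_map]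
        exact ht'
    rw [← h3] at h4
    exact h4

theorem good_int (H : Base) {M : ℕ} (f : MvPolynomial (Fin M) ℤ)
    (h0 : f.coeff 0 = 0) : Good (MvPolynomial.map (Int.castRingHom ℂ) f) := by
  classical
  by_cases hf : f = 0
  · intro hc
    exfalso
    apply hc 0
    rw [hf, map_zero, map_zero]
  apply good_mulY
  apply good_rename (Equiv.sumCongr (Equiv.refl (Fin (M + 0)))
    (Equiv.emptySum (Fin 0) Unit).symm : Fin M ⊕ Unit ≃ Fin (M + 0) ⊕ (Fin 0 ⊕ Unit))
  obtain ⟨s, hs⟩ : ∃ s : Multiset (Fin (M + 0) →₀ ℕ),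
    s = ∑ ρ ∈ f.support, Multiset.replicate (f.coeff ρ).toNat ρ := ⟨_, rfl⟩
  obtain ⟨t, ht⟩ : ∃ t : Multiset (Fin (M + 0) →₀ ℕ),
    t = ∑ ρ ∈ f.support, Multiset.replicate (-f.coeff ρ).toNat ρ := ⟨_, rfl⟩
  have h2 : rename (Equiv.sumCongr (Equiv.refl (Fin (M + 0)))
      (Equiv.emptySum (Fin 0) Unit).symm : Fin M ⊕ Unit ≃ Fin (M + 0) ⊕ (Fin 0 ⊕ Unit))
      (mulY (MvPolynomial.map (Int.castRingHom ℂ) f)) =
      St M 0 (Es s - Es t) Fin.elim0 := by
    rw [hs, ht]
    unfold St mulY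
    rw [Finset.univ_eq_empty (α := Fin 0), Finset.sum_empty]
    refine Eq.trans ?_ (add_zero _).symm
    rw [map_int, map_mul, rename_X, rename_rename]
    rfl
  rw [h2]
  have hne : ∀ (ε : ℤ) (ρ : Fin (M + 0) →₀ ℕ),
      ρ ∈ (∑ ρ ∈ f.support, Multiset.replicate (ε * f.coeff ρ).toNat ρ :
        Multiset (Fin (M + 0) →₀ ℕ)) → ρ ≠ 0 := by
    intro ε ρ hρ h
    rw [Multiset.mem_sum] at hρ
    obtain ⟨ρ0, h4, h5⟩ := hρ
    rw [Multiset.mem_replicate, h] at h5
    rw [← h5.2] at h4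
    exact (MvPolynomial.mem_support_iff.1 h4) h0
  refine good_pm H M _ 0 s t Fin.elim0 (fun k => k.elim0) ?_ ?_ ?_ rfl
  · intro hst
    apply hf
    rw [← MvPolynomial.support_eq_empty, Finset.eq_empty_iff_forall_notMem]
    intro ρ hρ
    rw [hs, ht, ← sum_add_distrib] at hst
    have h4 := (Finset.sum_eq_zero_iff.1 hst) ρ hρ
    have h5 := congrArg Multiset.card h4
    rw [Multiset.card_add, Multiset.card_replicate, Multiset.card_replicate,
      Multiset.card_zero] at h5
    rw [MvPolynomial.mem_support_iff] at hρ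
    omega
  · intro ρ hρ
    rw [hs] at hρ
    refine hne 1 ρ ?_
    simp only [one_mul]
    exact hρ
  · intro ρ hρ
    rw [ht] at hρ
    refine hne (-1) ρ ?_
    simp only [neg_mul, one_mul]
    exact hρ

end Pool.Agent.H56.CR
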