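import Pool.Agent.H56.CR.NRM
import Pool.Agent.H56.CR.INI

/-!
# FIN: reduction to polynomials with integral coefficients, and the theorem
-/

set_option autoImplicit false

namespace Pool.Agent.H56.CR

open Finset MvPolynomial
open Pool.Agent.H37.SM Pool.Agent.H22.T7 Pool.Agent.H56.ST

theorem reg_of_pow (s : ℂ) (Z : RatFunc ℂ) (m : ℕ) (h : Reg s (Z ^ m)) (hm : m ≠ 0) :
    Reg s Z := by
  obtain ⟨p, q, hq, hpq⟩ := (reg_iff _).1 h
  intro h0
  have h1 := RatFunc.num_div_denom Z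
  have hd : algebraMap (Polynomial ℂ) (RatFunc ℂ) Z.denom ≠ 0 :=
    RatFunc.algebraMap_ne_zero (RatFunc.denom_ne_zero Z)
  have hq0 : algebraMap (Polynomial ℂ) (RatFunc ℂ) q ≠ 0 := by
    apply RatFunc.algebraMap_ne_zero
    rintro rfl
    exact hq Polynomial.eval_zero
  rw [← h1, div_pow, div_eq_div_iff (pow_ne_zero _ hd) hq0, ← map_pow, ← map_pow, ← map_mul,
    ← map_mul] at hpq
  have h2 := RatFunc.algebraMap_injective ℂ hpq
  have h3 := congrArg (Polynomial.eval s) h2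
  rw [Polynomial.eval_mul, Polynomial.eval_mul, Polynomial.eval_pow, Polynomial.eval_pow, h0,
    zero_pow hm, mul_zero] at h3
  have h4 : Z.num.eval s = 0 := by
    rcases mul_eq_zero.1 h3 with h5 | h5
    · exact pow_eq_zero_iff hm |>.1 h5
    · exact absurd h5 hq
  obtain ⟨a, b, hab⟩ := RatFunc.isCoprime_num_denom Z
  have h5 := congrArg (Polynomial.eval s) hab
  rw [Polynomial.eval_add, Polynomial.eval_mul, Polynomial.eval_mul, h4, h0, mul_zero, mul_zero,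
    add_zero, Polynomial.eval_one] at h5
  exact zero_ne_one h5

/-- A counterexample to the strong monodromy conjecture. -/
def Bad {σ : Type} (f : MvPolynomial σ ℂ) : Prop :=
  (∀ c : ℂ, f ≠ C c) ∧ ∃ (Z : RatFunc ℂ) (b : Polynomial ℂ) (s : ℂ), IsTopZeta f Z ∧
    FEq (MvPolynomial σ ℂ) f b ∧ ¬ Reg s Z ∧ b.eval s ≠ 0

theorem not_bad_of_good {σ : Type} (f : MvPolynomial σ ℂ) (h : Good f) : ¬ Bad f := by
  rintro ⟨hf, Z, b, s, hZ, hb, hs, h1⟩
  apply h1
  refine h hf Z hZ b hb s ?_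
  by_contra h2
  exact hs h2

theorem prod_nc {σ ι : Type} [Fintype ι] (i0 : ι) (F : ι → MvPolynomial σ ℂ)
    (hF : ∀ i, ∀ c : ℂ, F i ≠ C c) (c : ℂ) : ∏ i, F i ≠ C c := by
  classical
  intro h
  by_cases hc : c = 0
  · rw [hc, map_zero, Finset.prod_eq_zero_iff] at h
    obtain ⟨i, -, hi⟩ := h
    exact nc_zero _ (hF i) hi
  · have h1 : IsUnit (∏ i, F i) := by
      rw [h]
      exact (isUnit_iff_ne_zero.2 hc).map C
    exact nc_unit _ (hF i0) (isUnit_of_dvd_unit (Finset.dvd_prod_of_mem F (mem_univ i0)) h1)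

theorem rename_nc {σ τ : Type} (φ : σ → τ) (hφ : Function.Injective φ) (f : MvPolynomial σ ℂ)
    (hf : ∀ c : ℂ, f ≠ C c) (c : ℂ) : rename φ f ≠ C c := by
  intro h
  apply hf c
  apply rename_injective φ hφ
  rw [h, rename_C]

theorem nc_coeff {σ : Type} (f : MvPolynomial σ ℂ) (hf : ∀ c : ℂ, f ≠ C c) :
    ∃ ρ : σ →₀ ℕ, ρ ≠ 0 ∧ f.coeff ρ ≠ 0 := by
  classical
  by_contra h
  push Not at h
  apply hf (f.coeff 0)
  ext ρ
  rw [MvPolynomial.coeff_C]
  split_ifs with h0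
  · rw [h0]
  · exact h ρ (Ne.symm h0)

theorem nc_of_coeff {σ : Type} (f : MvPolynomial σ ℂ) (ρ : σ →₀ ℕ) (h0 : ρ ≠ 0)
    (h : f.coeff ρ ≠ 0) (c : ℂ) : f ≠ C c := by
  classical
  rintro rfl
  rw [MvPolynomial.coeff_C, if_neg (Ne.symm h0)] at h
  exact h rfl

/-- The translation by `p`. -/
noncomputable def trsF {n : ℕ} (p : Fin n → ℂ) :
    MvPolynomial (Fin n) ℂ →ₐ[ℂ] MvPolynomial (Fin n) ℂ := aeval fun i => X i + C (p i)

theorem trsF_comp {n : ℕ} (p : Fin n → ℂ) :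
    (trsF (fun i => - p i)).comp (trsF p) = AlgHom.id ℂ _ := by
  apply MvPolynomial.algHom_ext
  intro i
  rw [AlgHom.comp_apply]
  unfold trsF
  rw [aeval_X, map_add, aeval_X, MvPolynomial.algHom_C, MvPolynomial.algebraMap_eq, map_neg]
  simp

/-- The translation by `p` as an isomorphism. -/
noncomputable def trsE {n : ℕ} (p : Fin n → ℂ) :
    MvPolynomial (Fin n) ℂ ≃ₐ[ℂ] MvPolynomial (Fin n) ℂ :=
  AlgEquiv.ofAlgHom (trsF p) (trsF fun i => - p i) (by
    have h := trsF_comp (fun i => - p i)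
    simp only [neg_neg] at h
    exact h) (trsF_comp p)

theorem trsE_cc {n : ℕ} (p : Fin n → ℂ) (f : MvPolynomial (Fin n) ℂ) :
    constantCoeff (trsE p f) = aeval p f := by
  have h1 : (constantCoeff : MvPolynomial (Fin n) ℂ →+* ℂ).comp (trsF p).toRingHom =
      (aeval p : MvPolynomial (Fin n) ℂ →ₐ[ℂ] ℂ).toRingHom := by
    apply MvPolynomial.ringHom_ext
    · intro r
      change constantCoeff (trsF p (C r)) = aeval p (C r)
      rw [MvPolynomial.algHom_C, MvPolynomial.algHom_C, MvPolynomial.algebraMap_eq,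
        constantCoeff_C]
      rfl
    · intro i
      change constantCoeff (trsF p (X i)) = aeval p (X i)
      unfold trsF
      rw [aeval_X, aeval_X]
      simp
  exact RingHom.congr_fun h1 f

/-- Nonconstant polynomials have zeros. -/
theorem exists_zero {n : ℕ} (f : MvPolynomial (Fin n) ℂ) (hf : ∀ c : ℂ, f ≠ C c) :
    ∃ p : Fin n → ℂ, aeval p f = 0 := by
  obtain ⟨I, hI, hfI⟩ := exists_max_ideal_of_mem_nonunits (nc_unit f hf)
  obtain ⟨x, rfl⟩ := isMaximal_iff_eq_vanishingIdeal_singleton.1 hI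
  exact ⟨x, (mem_vanishingIdeal_singleton_iff x f).1 hfI⟩

theorem bad_aut {σ τ : Type} [Finite σ] [Finite τ]
    (ψ : MvPolynomial σ ℂ ≃ₐ[ℂ] MvPolynomial τ ℂ) (f : MvPolynomial σ ℂ) (h : Bad f) :
    Bad (ψ f) := by
  obtain ⟨hf, Z, b, s, hZ, hb, hs, hbs⟩ := h
  exact ⟨nc_equiv ψ f hf, Z, b, s, isTop_aut ψ f Z hZ, aut ψ f b hb, hs, hbs⟩

theorem bad_rat {n : ℕ} (f : MvPolynomial (Fin n) ℂ) (h : Bad f) (hcc : constantCoeff f = 0) :
    ∃ (d : ℕ) (G : MvPolynomial (Fin n × Fin (d + 1)) ℚ),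
      Bad (MvPolynomial.map (algebraMap ℚ ℂ) G) ∧ constantCoeff G = 0 := by
  classical
  obtain ⟨hf, Z, b, s, hZ, hb, hs, hbs⟩ := h
  obtain ⟨P, hP⟩ := fe_of_feq f b hb
  obtain ⟨T, hT⟩ := transfer f b P hP
  obtain ⟨N, ν, hN, hνs⟩ := isTop_rat f Z hZ s hs
  obtain ⟨ρ, hρ0, hρ⟩ := nc_coeff f hf
  obtain ⟨S, f1, hTS, hf1, hZ1⟩ := enlarge f Z hZ (T ∪ {(f.coeff ρ)⁻¹, s, (b.eval s)⁻¹})
  obtain ⟨f0, b0, hf0, hb0, hφ⟩ := hT S (Finset.subset_union_left.trans hTS)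
  have hinj : Function.Injective (Subring.subtype (Subring.closure (S : Set ℂ))) :=
    Subtype.val_injective
  have hf10 : f1 = f0 := by
    apply MvPolynomial.map_injective _ hinj
    rw [hf1, hf0]
  subst hf10
  have hm : ∀ x ∈ ({(f.coeff ρ)⁻¹, s, (b.eval s)⁻¹} : Finset ℂ),
      x ∈ Subring.closure (S : Set ℂ) := fun x hx =>
    Subring.subset_closure (hTS (Finset.mem_union_right _ hx))
  have hm1 : (f.coeff ρ)⁻¹ ∈ Subring.closure (S : Set ℂ) := hm _ (by simp)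
  have hm2 : s ∈ Subring.closure (S : Set ℂ) := hm _ (by simp)
  have hm3 : (b.eval s)⁻¹ ∈ Subring.closure (S : Set ℂ) := hm _ (by simp)
  -- units
  have hu1 : f1.coeff ρ * ⟨(f.coeff ρ)⁻¹, hm1⟩ = 1 := by
    apply hinj
    rw [map_mul, map_one]
    have h1 : (Subring.subtype (Subring.closure (S : Set ℂ))) (f1.coeff ρ) = f.coeff ρ := by
      rw [← hf1, MvPolynomial.coeff_map]
    rw [h1]
    exact mul_inv_cancel₀ hρ
  have hu2 : b0.eval ⟨s, hm2⟩ * ⟨(b.eval s)⁻¹, hm3⟩ = 1 := by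
    apply hinj
    rw [map_mul, map_one]
    have h1 : (Subring.subtype (Subring.closure (S : Set ℂ))) (b0.eval ⟨s, hm2⟩) = b.eval s := by
      rw [← Polynomial.eval_map_apply, hb0]
      rfl
    rw [h1]
    exact mul_inv_cancel₀ hbs
  obtain ⟨L, hL1, hL2, hL3, ⟨φ0⟩⟩ := exists_numberField S
  obtain ⟨d, e, ψ, G, hG, hψ⟩ := norm_rat L (MvPolynomial.map φ0 f1)
  have hcc1 : constantCoeff f1 = 0 := by
    apply hinj
    rw [map_zero, ← hcc, ← hf1, constantCoeff_map]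
  have hccG : constantCoeff G = 0 := by
    have h1 : (algebraMap ℚ ℂ) (constantCoeff G) = 0 := by
      rw [← constantCoeff_map, ← hG, hψ, map_prod]
      apply Finset.prod_eq_zero (mem_univ 0)
      rw [constantCoeff_rename, constantCoeff_map, constantCoeff_map, hcc1, map_zero, map_zero]
    exact (map_eq_zero _).1 h1
  refine ⟨d, G, ?_, hccG⟩
  have hfi : ∀ i, IsTopZeta (MvPolynomial.map (e i) (MvPolynomial.map φ0 f1)) Z ∧
      FEq (MvPolynomial (Fin n) ℂ) (MvPolynomial.map (e i) (MvPolynomial.map φ0 f1))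
        (b0.map ((e i).comp φ0)) := by
    intro i
    rw [MvPolynomial.map_map]
    obtain ⟨P', hP'⟩ := hφ ((e i).comp φ0)
    exact ⟨isTop_map S f1 Z hZ1 _, fea _ _ P' hP'⟩
  obtain ⟨h1, h2⟩ := tz_prodN Z d _ _ hfi
  have hs' : ∀ i, ((e i).comp φ0) ⟨s, hm2⟩ = s := by
    intro i
    have h3 : (ν : Subring.closure (S : Set ℂ)) + (N : Subring.closure (S : Set ℂ)) *
        ⟨s, hm2⟩ = 0 := by
      apply hinj
      rw [map_add, map_mul, map_natCast, map_natCast, map_zero]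
      exact hνs
    have h4 := congrArg ((e i).comp φ0) h3
    rw [map_add, map_mul, map_natCast, map_natCast, map_zero, ← hνs] at h4
    have h5 := add_left_cancel h4
    exact mul_left_cancel₀ (by exact_mod_cast hN.ne') h5
  refine ⟨?_, Z ^ (d + 1), ∏ i, b0.map ((e i).comp φ0), s, ?_, ?_, ?_, ?_⟩
  · rw [← hG]
    apply nc_equiv ψ
    apply prod_nc 0
    intro i
    apply rename_nc _ (fun l l' h => (Prod.mk.inj h).1)
    apply nc_of_coeff _ ρ hρ0
    rw [MvPolynomial.map_map, MvPolynomial.coeff_map]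
    intro h3
    have h4 := congrArg ((e i).comp φ0) hu1
    rw [map_mul, h3, zero_mul, map_one] at h4
    exact zero_ne_one h4
  · rw [← hG]
    exact isTop_aut ψ _ _ h1
  · rw [← hG]
    exact aut ψ _ _ h2
  · intro h3
    exact hs (reg_of_pow s Z (d + 1) h3 (Nat.succ_ne_zero d))
  · rw [Polynomial.eval_prod]
    apply Finset.prod_ne_zero_iff.2
    intro i _ h3
    have h4 : (b0.map ((e i).comp φ0)).eval s = ((e i).comp φ0) (b0.eval ⟨s, hm2⟩) := by
      rw [← Polynomial.eval_map_apply, hs' i]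
    rw [h4] at h3
    have h5 := congrArg ((e i).comp φ0) hu2
    rw [map_mul, h3, zero_mul, map_one] at h5
    exact zero_ne_one h5

theorem bad_rename {σ τ : Type} (φ : σ ≃ τ) (f : MvPolynomial σ ℂ) (h : Bad f) :
    Bad (rename φ f) := by
  obtain ⟨hf, Z, b, s, hZ, hb, hs, hbs⟩ := h
  exact ⟨rename_nc φ φ.injective f hf, Z, b, s, isTop_rename φ f Z hZ, feq_rename φ f b hb, hs,
    hbs⟩

theorem bad_smul {σ : Type} (c : ℂ) (hc : c ≠ 0) (f : MvPolynomial σ ℂ) (h : Bad f) :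
    Bad (C c * f) := by
  obtain ⟨hf, Z, b, s, hZ, hb, hs, hbs⟩ := h
  refine ⟨fun d hd => ?_, Z, b, s, isTop_smul c hc f Z hZ, fe_smul c hc f b hb, hs, hbs⟩
  apply hf (c⁻¹ * d)
  rw [map_mul, ← hd, ← mul_assoc, ← map_mul, inv_mul_cancel₀ hc, map_one, one_mul]

/-- Clearing denominators. -/
theorem clear_den {σ : Type} (G : MvPolynomial σ ℚ) (hcc : constantCoeff G = 0) :
    ∃ (N : ℚ) (H : MvPolynomial σ ℤ),
    N ≠ 0 ∧ MvPolynomial.map (Int.castRingHom ℚ) H = C N * G ∧ H.coeff 0 = 0 := by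
  classical
  obtain ⟨N, hN0, hN⟩ : ∃ N : ℕ, N ≠ 0 ∧ ∀ ρ ∈ G.support, ∃ z : ℤ, (z : ℚ) = N * G.coeff ρ := by
    refine ⟨∏ ρ ∈ G.support, (G.coeff ρ).den,
      Finset.prod_ne_zero_iff.2 fun ρ _ => (G.coeff ρ).den_nz, fun ρ hρ => ?_⟩
    obtain ⟨m, hm⟩ := Finset.dvd_prod_of_mem (fun ρ => (G.coeff ρ).den) hρ
    refine ⟨(m : ℤ) * (G.coeff ρ).num, ?_⟩
    rw [hm]
    push_cast
    have h1 := Rat.mul_den_eq_num (G.coeff ρ)
    rw [← h1]
    ring
  choose! z hz using hN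
  have h1 : MvPolynomial.map (Int.castRingHom ℚ) (∑ ρ ∈ G.support, monomial ρ (z ρ)) =
      C (N : ℚ) * G := by
    rw [map_sum]
    conv_rhs => rw [← G.support_sum_monomial_coeff, Finset.mul_sum]
    refine sum_congr rfl fun ρ hρ => ?_
    rw [MvPolynomial.map_monomial, C_mul_monomial, ← hz ρ hρ]
    rfl
  have hN1 : (N : ℚ) ≠ 0 := by exact_mod_cast hN0
  refine ⟨N, _, hN1, h1, ?_⟩
  have h2 := congrArg constantCoeff h1
  rw [map_mul, hcc, mul_zero, constantCoeff_map] at h2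
  have h3 : ((constantCoeff (∑ ρ ∈ G.support, monomial ρ (z ρ)) : ℤ) : ℚ) = 0 := h2
  rw [← constantCoeff_eq]
  exact_mod_cast h3

/-- The theorem. -/
theorem main (H : SMC fun _ f => IsEdgePoly f) : SMC fun _ _ => True := by
  intro n f _ hc Z hZ b P hP s hs
  by_contra hbs
  have hbad : Bad f := ⟨hc, Z, b, s, hZ, fea f b P hP, fun h => h hs, hbs⟩
  obtain ⟨p, hp⟩ := exists_zero f hc
  obtain ⟨d, G, hG, hG0⟩ := bad_rat (trsE p f) (bad_aut _ _ hbad) (by rw [trsE_cc, hp])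
  obtain ⟨m, ⟨e⟩⟩ := Finite.exists_equiv_fin (Fin n × Fin (d + 1))
  obtain ⟨N, I, hN, hI, hI0⟩ := clear_den (rename e G) (by rw [constantCoeff_rename, hG0])
  have h1 : MvPolynomial.map (Int.castRingHom ℂ) I =
      C (N : ℂ) * rename e (MvPolynomial.map (algebraMap ℚ ℂ) G) := by
    have h2 := congrArg (MvPolynomial.map (algebraMap ℚ ℂ)) hI
    rw [MvPolynomial.map_map, map_mul, MvPolynomial.map_C, MvPolynomial.map_rename] at h2
    have h3 : (algebraMap ℚ ℂ).comp (Int.castRingHom ℚ) = Int.castRingHom ℂ :=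
      RingHom.ext_int _ _
    rw [h3] at h2
    exact h2
  have h4 : Bad (MvPolynomial.map (Int.castRingHom ℂ) I) := by
    rw [h1]
    exact bad_smul _ (by exact_mod_cast hN) _ (bad_rename e _ hG)
  exact not_bad_of_good _ (good_int (base_of H) I hI0) h4

end Pool.Agent.H56.CR
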