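import Mathlib

/-!
# FINF: finitely generated subrings of `ℂ` have homomorphisms to finite fields
-/

set_option autoImplicit false

namespace Pool.Agent.H56.CR

open Finset

theorem jac_int : IsJacobsonRing ℤ := by
  rw [isJacobsonRing_iff_prime_eq]
  intro P hP
  by_cases h0 : P = ⊥
  · subst h0
    rw [eq_bot_iff]
    intro x hx
    rw [Ideal.mem_bot]
    by_contra hx0
    obtain ⟨p, hp1, hp2⟩ := Nat.exists_infinite_primes (x.natAbs + 1)
    have hm : (Ideal.span {(p : ℤ)}).IsMaximal :=
      PrincipalIdealRing.isMaximal_of_irreducible (Nat.prime_iff_prime_int.1 hp2).irreducible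
    have h1 : x ∈ Ideal.span {(p : ℤ)} := by
      rw [Ideal.jacobson, Ideal.mem_sInf] at hx
      exact hx ⟨bot_le, hm⟩
    rw [Ideal.mem_span_singleton] at h1
    have h2 := Int.natAbs_dvd_natAbs.2 h1
    rw [Int.natAbs_natCast] at h2
    have h3 := Nat.le_of_dvd (Int.natAbs_pos.2 hx0) h2
    omega
  · have hm : P.IsMaximal := hP.isMaximal h0
    exact Ideal.jacobson_eq_self_of_isMaximal

theorem finite_of_ft (S : Type) [Field S] [Algebra.FiniteType ℤ S] : Finite S := by
  have h0 := jac_int
  have h1 : Module.Finite ℤ S := finite_of_finite_type_of_isJacobsonRing ℤ S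
  apply Module.finite_of_fg_torsion
  obtain ⟨p, hp⟩ := CharP.exists S
  have hp0 : p ≠ 0 := by
    rintro rfl
    have h2 : CharZero S := CharP.charP_to_charZero S
    have h3 : Function.Injective (algebraMap ℤ S) := RingHom.injective_int _
    have h4 : Algebra.IsIntegral ℤ S := inferInstance
    obtain ⟨b, hb⟩ := (isField_of_isIntegral_of_isField h3 (Field.toIsField S)).mul_inv_cancel
      (show (2 : ℤ) ≠ 0 by norm_num)
    omega
  intro x
  refine ⟨⟨(p : ℤ), mem_nonZeroDivisors_of_ne_zero (by exact_mod_cast hp0)⟩, ?_⟩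
  change (p : ℤ) • x = 0
  rw [natCast_zsmul, nsmul_eq_mul, CharP.cast_eq_zero, zero_mul]

theorem finite_of_surj {A : Type} [CommRing A] [Algebra ℤ A] [Algebra.FiniteType ℤ A]
    (S : Type) [Field S] (f : A →+* S) (hf : Function.Surjective f) : Finite S := by
  let g : A →ₐ[ℤ] S :=
    { toRingHom := f
      commutes' := fun n => RingHom.congr_fun
        (RingHom.ext_int (f.comp (algebraMap ℤ A)) (algebraMap ℤ S)) n }
  have h2 : Algebra.FiniteType ℤ S := Algebra.FiniteType.of_surjective g hf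
  exact finite_of_ft S

theorem exists_hom (S : Finset ℂ) : ∃ (F : Type) (_ : Field F) (_ : Finite F),
    Nonempty (Subring.closure (S : Set ℂ) →+* F) := by
  have h1 : Algebra.FiniteType ℤ (Algebra.adjoin ℤ (S : Set ℂ)) :=
    (Subalgebra.fg_iff_finiteType _).1 (Subalgebra.fg_adjoin_finset S)
  obtain ⟨m, hm⟩ := Ideal.exists_maximal (Algebra.adjoin ℤ (S : Set ℂ))
  let inst : Field (Algebra.adjoin ℤ (S : Set ℂ) ⧸ m) := Ideal.Quotient.field m
  refine ⟨Algebra.adjoin ℤ (S : Set ℂ) ⧸ m, inst,
    finite_of_surj _ (Ideal.Quotient.mk m) Ideal.Quotient.mk_surjective, ⟨?_⟩⟩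
  exact (Ideal.Quotient.mk m).comp (Subring.inclusion
    (show Subring.closure (S : Set ℂ) ≤ (Algebra.adjoin ℤ (S : Set ℂ)).toSubring from by
      rw [Subring.closure_le]
      exact Algebra.subset_adjoin))

end Pool.Agent.H56.CR
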