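import Pool.Agent.H56.CR.MEA

/-!
# IGU: the zeta functions of `g + u v - u h + p v` and of `y f`
-/

set_option autoImplicit false

namespace Pool.Agent.H56.CR

open Finset

/-- `1 - T / q`. -/
noncomputable def DD (a : ℂ) : PowerSeries ℂ := 1 - PowerSeries.C a * PowerSeries.X

theorem DD_ne (a : ℂ) : DD a ≠ 0 := by
  intro h
  have h1 := congrArg PowerSeries.constantCoeff h
  simp [DD] at h1

theorem geo_mul (q : ℂ) (hq : q ≠ 0) : geo q 1 1 * DD q⁻¹ =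
    (1 - PowerSeries.C q⁻¹) * PowerSeries.X := by
  have h0 : PowerSeries.constantCoeff (DD q⁻¹) ≠ 0 := by simp [DD]
  have h1 := PowerSeries.inv_mul_cancel (DD q⁻¹) h0
  unfold geo
  rw [pow_one, pow_one]
  rw [show (1 : PowerSeries ℂ) - PowerSeries.C q⁻¹ * PowerSeries.X = DD q⁻¹ from rfl]
  rw [mul_assoc, h1, mul_one, ← mul_assoc, ← map_mul, sub_mul, mul_inv_cancel₀ hq, one_mul,
    map_sub, map_one]

theorem sum_mk_one (m : ℕ → ℂ) (h0 : m 0 = 1) :
    (1 - PowerSeries.X) * PowerSeries.mk m =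
      1 - PowerSeries.X * PowerSeries.mk (fun k => m k - m (k + 1)) := by
  ext k
  rcases k with _ | k
  · simp [sub_mul, h0]
  · rw [sub_mul, one_mul, map_sub, map_sub, PowerSeries.coeff_succ_X_mul,
      PowerSeries.coeff_succ_X_mul, PowerSeries.coeff_mk, PowerSeries.coeff_mk,
      PowerSeries.coeff_mk, PowerSeries.coeff_one, if_neg (Nat.succ_ne_zero k)]
    ring

theorem stab_mk (a : ℂ) (m : ℕ → ℂ) :
    DD a * PowerSeries.mk (fun k => a ^ k * ((1 - a) * ∑ j ∈ range k, m j + m k)) =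
      (1 - PowerSeries.C (a ^ 2) * PowerSeries.X) * PowerSeries.rescale a (PowerSeries.mk m) := by
  unfold DD
  ext k
  rcases k with _ | k
  · rw [sub_mul, sub_mul, one_mul, one_mul, mul_assoc, mul_assoc, map_sub, map_sub,
      PowerSeries.coeff_C_mul, PowerSeries.coeff_C_mul, PowerSeries.coeff_zero_X_mul,
      PowerSeries.coeff_zero_X_mul, PowerSeries.coeff_rescale, PowerSeries.coeff_mk,
      PowerSeries.coeff_mk]
    simp
  · rw [sub_mul, sub_mul, one_mul, one_mul, mul_assoc, mul_assoc, map_sub, map_sub,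
      PowerSeries.coeff_C_mul, PowerSeries.coeff_C_mul, PowerSeries.coeff_succ_X_mul,
      PowerSeries.coeff_succ_X_mul, PowerSeries.coeff_rescale, PowerSeries.coeff_rescale,
      PowerSeries.coeff_mk, PowerSeries.coeff_mk, PowerSeries.coeff_mk, PowerSeries.coeff_mk,
      sum_range_succ]
    ring

theorem stab_id (q : ℂ) (hq : q ≠ 0) (m : ℕ → ℂ) (h0 : m 0 = 1) :
    PowerSeries.mk (fun k =>
      ((q⁻¹) ^ k * ((1 - q⁻¹) * ∑ j ∈ range k, m j + m k)) -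
      ((q⁻¹) ^ (k + 1) * ((1 - q⁻¹) * ∑ j ∈ range (k + 1), m j + m (k + 1)))) =
    ((1 - PowerSeries.C q⁻¹) + PowerSeries.C q⁻¹ * geo q 1 1) ^ 2 +
      PowerSeries.C q⁻¹ * (1 - geo q 1 1) * (1 + PowerSeries.C q⁻¹ * geo q 1 1) *
        PowerSeries.rescale q⁻¹ (PowerSeries.mk fun k => m k - m (k + 1)) := by
  set a := q⁻¹ with ha
  set P' := PowerSeries.mk (fun k => (a ^ k * ((1 - a) * ∑ j ∈ range k, m j + m k)) -
      (a ^ (k + 1) * ((1 - a) * ∑ j ∈ range (k + 1), m j + m (k + 1)))) with hP'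
  set Pa := PowerSeries.rescale a (PowerSeries.mk fun k => m k - m (k + 1)) with hPa
  set G := geo q 1 1 with hG
  have hg : G * DD a = (1 - PowerSeries.C a) * PowerSeries.X := geo_mul q hq
  have h1 := sum_mk_one (fun k => a ^ k * ((1 - a) * ∑ j ∈ range k, m j + m k)) (by simp [h0])
  have h2 := stab_mk a m
  have h3 := congrArg (PowerSeries.rescale a) (sum_mk_one m h0)
  rw [map_mul, map_sub, map_sub, map_one, map_mul, PowerSeries.rescale_X] at h3
  have hDX : ((DD a) ^ 2 * PowerSeries.X) ≠ 0 :=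
    mul_ne_zero (pow_ne_zero _ (DD_ne a)) PowerSeries.X_ne_zero
  apply mul_right_cancel₀ hDX
  have hC : PowerSeries.C (a ^ 2) = (PowerSeries.C a : PowerSeries ℂ) ^ 2 := map_pow _ _ _
  rw [hC] at h2
  have hD : DD a = 1 - PowerSeries.C a * PowerSeries.X := rfl
  set Q' := PowerSeries.mk (fun k => a ^ k * ((1 - a) * ∑ j ∈ range k, m j + m k)) with hQ'
  set Qa := PowerSeries.rescale a (PowerSeries.mk m) with hQa
  set D := DD a with hDdef
  set c := (PowerSeries.C a : PowerSeries ℂ) with hc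
  set X := (PowerSeries.X : PowerSeries ℂ) with hX
  -- h1 : (1 - X) Q' = 1 - X P'
  -- h2 : D Q' = (1 - c^2 X) Qa
  -- h3 : (1 - c X) Qa = 1 - c X Pa
  have h4 : P' * (D ^ 2 * X) = D ^ 2 - (1 - X) * (1 - c ^ 2 * X) * (1 - c * X * Pa) := by
    have h5 : D * Qa = 1 - c * X * Pa := by rw [hD]; exact h3
    linear_combination (D ^ 2) * h1 + (-(1 - X) * D) * h2 + (-(1 - X) * (1 - c ^ 2 * X)) * h5
  rw [h4]
  have h6 : ((1 - c) + c * G) * D = 1 - c := by
    rw [add_mul, mul_assoc, hg, hD]; ring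
  have h7 : (1 - G) * D = 1 - X := by
    rw [sub_mul, hg, hD]; ring
  have h8 : (1 + c * G) * D = 1 - c ^ 2 * X := by
    rw [add_mul, mul_assoc, hg, hD]; ring
  have h9 : (((1 - c) + c * G) ^ 2 + c * (1 - G) * (1 + c * G) * Pa) * (D ^ 2 * X) =
      ((((1 - c) + c * G) * D) ^ 2 + c * ((1 - G) * D) * ((1 + c * G) * D) * Pa) * X := by ring
  rw [h9, h6, h7, h8, hD]
  ring

theorem mulY_id (q : ℂ) (hq : q ≠ 0) (m : ℕ → ℂ) (h0 : m 0 = 1) :
    PowerSeries.mk (fun k =>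
      ((q⁻¹) ^ k * (∑ i ∈ range k, (q ^ (i + 1) - q ^ i) * m (i + 1) + 1)) -
      ((q⁻¹) ^ (k + 1) * (∑ i ∈ range (k + 1), (q ^ (i + 1) - q ^ i) * m (i + 1) + 1))) =
    ((1 - PowerSeries.C q⁻¹) + PowerSeries.C q⁻¹ * geo q 1 1) *
      (PowerSeries.mk fun k => m k - m (k + 1)) := by
  have hg := geo_mul q hq
  apply mul_right_cancel₀ (DD_ne q⁻¹)
  have h6 : ((1 - PowerSeries.C q⁻¹) + PowerSeries.C q⁻¹ * geo q 1 1) * DD q⁻¹ =
      PowerSeries.C (1 - q⁻¹) := by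
    rw [add_mul, mul_assoc, hg, map_sub, map_one]
    unfold DD
    ring
  have h7 : ((1 - PowerSeries.C q⁻¹) + PowerSeries.C q⁻¹ * geo q 1 1) *
      (PowerSeries.mk fun k => m k - m (k + 1)) * DD q⁻¹ =
      (((1 - PowerSeries.C q⁻¹) + PowerSeries.C q⁻¹ * geo q 1 1) * DD q⁻¹) *
        (PowerSeries.mk fun k => m k - m (k + 1)) := by ring
  rw [h7, h6, mul_comm _ (DD q⁻¹)]
  unfold DD
  have hq1 : ∀ k : ℕ, (q⁻¹) ^ k * q ^ k = 1 := fun k => by
    rw [← mul_pow, inv_mul_cancel₀ hq, one_pow]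
  ext k
  rcases k with _ | k
  · simp [sub_mul, mul_assoc, h0]
    field_simp
    ring
  · rw [sub_mul, one_mul, mul_assoc, map_sub, PowerSeries.coeff_C_mul,
      PowerSeries.coeff_succ_X_mul, PowerSeries.coeff_C_mul, PowerSeries.coeff_mk,
      PowerSeries.coeff_mk, PowerSeries.coeff_mk, sum_range_succ _ (k + 1), sum_range_succ _ k]
    set S := ∑ i ∈ range k, (q ^ (i + 1) - q ^ i) * m (i + 1) with hS
    have e1 : (q⁻¹) ^ (k + 1) * q ^ k = q⁻¹ := by rw [pow_succ']; rw [mul_assoc, hq1, mul_one]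
    have e2 := hq1 (k + 1)
    have e3 : (q⁻¹) ^ (k + 1 + 1) * q ^ (k + 1) = q⁻¹ := by
      rw [pow_succ', mul_assoc, hq1, mul_one]
    have e4 := hq1 (k + 1 + 1)
    have e5 : q⁻¹ ^ (k + 1 + 1) = q⁻¹ * q⁻¹ ^ (k + 1) := pow_succ' _ _
    have e6 : q⁻¹ ^ (k + 1) = q⁻¹ * q⁻¹ ^ k := pow_succ' _ _
    have e7 : q⁻¹ * q⁻¹ ^ k * q ^ (k + 1) = 1 := by rw [← e6]; exact e2
    have e8 : q⁻¹ * q⁻¹ ^ k * q ^ k = q⁻¹ := by rw [← e6]; exact e1
    have e9 : q⁻¹ * (q⁻¹ * q⁻¹ ^ k) * q ^ (k + 1 + 1) = 1 := by rw [← e6, ← e5]; exact e4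
    rw [e5, e6]
    linear_combination (m (k + 1)) * (e7 - e8) -
      m (k + 1 + 1) * e9 + m (k + 1 + 1) * q⁻¹ * e7

end Pool.Agent.H56.CR
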