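import Pool.Agent.H56.CR.Defs

/-!
# JET: the ring `K[t]/(t^k)` over a finite field
-/

set_option autoImplicit false

namespace Pool.Agent.H56.CR

open Finset

section general

/-- Fibres of a surjective homomorphism have the same number of elements. -/
theorem card_preimage {G H : Type} [AddCommGroup G] [AddCommGroup H] [Finite G] [Finite H]
    (g : G →+ H) (hg : Function.Surjective g) (P : H → Prop) :
    Nat.card {x : G // P (g x)} * Nat.card H = Nat.card G * Nat.card {y : H // P y} := by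
  classical
  have h1 : ∀ y : H, Nat.card {x : G // g x = y} = Nat.card g.ker := by
    intro y
    obtain ⟨x0, hx0⟩ := hg y
    refine Nat.card_congr ⟨fun x => ⟨x.1 - x0, ?_⟩, fun z => ⟨z.1 + x0, ?_⟩, ?_, ?_⟩
    · rw [AddMonoidHom.mem_ker, map_sub, x.2, hx0, sub_self]
    · have := z.2
      rw [AddMonoidHom.mem_ker] at this
      rw [map_add, this, hx0, zero_add]
    · intro x; simp
    · intro z; simp
  have : Fintype H := Fintype.ofFinite H
  have h2 : ∀ Q : H → Prop, Nat.card {x : G // Q (g x)} = Nat.card {y : H // Q y} * Nat.card g.ker := by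
    intro Q
    have e : {x : G // Q (g x)} ≃ Σ y : {y : H // Q y}, {x : G // g x = y.1} :=
      ⟨fun x => ⟨⟨g x.1, x.2⟩, ⟨x.1, rfl⟩⟩, fun z => ⟨z.2.1, by rw [z.2.2]; exact z.1.2⟩,
        fun x => rfl, fun z => by
          obtain ⟨⟨y, hy⟩, ⟨x, hx⟩⟩ := z
          dsimp only at hx
          subst hx
          rfl⟩
    have : Fintype {y : H // Q y} := Fintype.ofFinite _
    rw [Nat.card_congr e, Nat.card_sigma, Finset.sum_congr rfl fun y _ => h1 y.1, sum_const,
      Finset.card_univ, smul_eq_mul, Fintype.card_eq_nat_card]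
  have h3 := h2 (fun _ => True)
  have h4 : Nat.card G = Nat.card H * Nat.card g.ker := by
    rw [← Nat.card_congr (Equiv.subtypeUnivEquiv (p := fun _ : G => True) fun _ => trivial), h3,
      Nat.card_congr (Equiv.subtypeUnivEquiv (p := fun _ : H => True) fun _ => trivial)]
  rw [h2 P, h4]
  ring

end general

variable {K : Type} [Field K]

theorem jet_card [Finite K] (k : ℕ) : Nat.card (Jet K k) = Nat.card K ^ k := by
  have hm : ((Polynomial.X : Polynomial K) ^ k).Monic := Polynomial.monic_X_pow k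
  have h1 : Module.Finite K (Jet K k) := .of_basis (AdjoinRoot.powerBasis' hm).basis
  rw [Module.natCard_eq_pow_finrank (K := K)]
  congr 1
  rw [(AdjoinRoot.powerBasis' hm).finrank, AdjoinRoot.powerBasis'_dim, Polynomial.natDegree_X_pow]

instance jet_finite [Finite K] (k : ℕ) : Finite (Jet K k) := by
  have hm : ((Polynomial.X : Polynomial K) ^ k).Monic := Polynomial.monic_X_pow k
  have h1 : Module.Finite K (Jet K k) := .of_basis (AdjoinRoot.powerBasis' hm).basis
  exact Module.finite_of_finite K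

/-- The element `t`. -/
noncomputable def jt (K : Type) [Field K] (k : ℕ) : Jet K k :=
  AdjoinRoot.root ((Polynomial.X : Polynomial K) ^ k)

theorem jt_pow (k : ℕ) : (jt K k) ^ k = 0 := by
  have h := AdjoinRoot.eval₂_root ((Polynomial.X : Polynomial K) ^ k)
  rw [Polynomial.eval₂_pow, Polynomial.eval₂_X] at h
  exact h

theorem jet_unit (k : ℕ) (a : Jet K k) : IsUnit a ∨ jt K k ∣ a := by
  obtain ⟨p, rfl⟩ := AdjoinRoot.mk_surjective a
  by_cases hp : p.coeff 0 = 0
  · right
    obtain ⟨r, rfl⟩ := Polynomial.X_dvd_iff.2 hp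
    refine ⟨AdjoinRoot.mk _ r, ?_⟩
    rw [map_mul, AdjoinRoot.mk_X]
    rfl
  · left
    have h1 : IsCoprime p (Polynomial.X : Polynomial K) := by
      refine (Polynomial.irreducible_X.coprime_iff_not_dvd.2 ?_).symm
      rwa [Polynomial.X_dvd_iff]
    obtain ⟨u, v, huv⟩ := h1.pow_right (n := k)
    refine IsUnit.of_mul_eq_one (AdjoinRoot.mk _ u) ?_
    rw [← map_mul]
    have h2 : p * u = 1 - v * Polynomial.X ^ k := by rw [← huv]; ring
    rw [h2, map_sub, map_one, map_mul, AdjoinRoot.mk_self, mul_zero, sub_zero]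

/-- The reduction. -/
noncomputable def red (K : Type) [Field K] {k i : ℕ} (h : i ≤ k) : Jet K k →ₐ[K] Jet K i :=
  AdjoinRoot.liftAlgHom _ (Algebra.ofId K (Jet K i)) (jt K i) (by
    rw [Polynomial.eval₂_pow, Polynomial.eval₂_X]
    exact pow_eq_zero_of_le h (jt_pow i))

theorem red_mk {k i : ℕ} (h : i ≤ k) (p : Polynomial K) :
    red K h (AdjoinRoot.mk _ p) = AdjoinRoot.mk _ p := by
  unfold red
  rw [AdjoinRoot.liftAlgHom_mk]
  exact AdjoinRoot.aeval_eq p

theorem red_surj {k i : ℕ} (h : i ≤ k) : Function.Surjective (red K h) := by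
  intro a
  obtain ⟨p, rfl⟩ := AdjoinRoot.mk_surjective a
  exact ⟨AdjoinRoot.mk _ p, red_mk h p⟩

theorem red_eq_zero {k i : ℕ} (h : i ≤ k) (a : Jet K k) : red K h a = 0 ↔ (jt K k) ^ i ∣ a := by
  obtain ⟨p, rfl⟩ := AdjoinRoot.mk_surjective a
  rw [red_mk, AdjoinRoot.mk_eq_zero]
  constructor
  · rintro ⟨r, rfl⟩
    refine ⟨AdjoinRoot.mk _ r, ?_⟩
    rw [map_mul, map_pow, AdjoinRoot.mk_X]
    rfl
  · rintro ⟨r, hr⟩
    obtain ⟨s, rfl⟩ := AdjoinRoot.mk_surjective r
    have h1 : (jt K k) ^ i = AdjoinRoot.mk _ (Polynomial.X ^ i) := by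
      rw [map_pow, AdjoinRoot.mk_X]
      rfl
    rw [h1, ← map_mul, AdjoinRoot.mk_eq_mk] at hr
    have h2 : (Polynomial.X : Polynomial K) ^ i ∣ Polynomial.X ^ k := pow_dvd_pow _ h
    have h3 := h2.trans hr
    have h4 := (dvd_sub_right (Dvd.intro _ rfl : (Polynomial.X : Polynomial K) ^ i ∣ Polynomial.X ^ i * s)).1
      ((dvd_neg.2 h3).trans (by rw [neg_sub]))
    exact h4

theorem card_dvd [Finite K] {k i : ℕ} (h : i ≤ k) :
    Nat.card {u : Jet K k // (jt K k) ^ i ∣ u} = Nat.card K ^ (k - i) := by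
  have h1 := card_preimage (red K h).toRingHom.toAddMonoidHom (red_surj h) (fun y => y = 0)
  have h2 : Nat.card {y : Jet K i // y = 0} = 1 := by
    rw [Nat.card_eq_one_iff_unique]
    exact ⟨⟨fun a b => Subtype.ext (a.2.trans b.2.symm)⟩, ⟨⟨0, rfl⟩⟩⟩
  rw [h2, mul_one, jet_card, jet_card] at h1
  have h3 : Nat.card {u : Jet K k // (jt K k) ^ i ∣ u} =
      Nat.card {x : Jet K k // (red K h).toRingHom.toAddMonoidHom x = 0} :=
    Nat.card_congr (Equiv.subtypeEquivRight fun a => (red_eq_zero h a).symm)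
  rw [h3]
  have h4 : Nat.card K ^ k = Nat.card K ^ (k - i) * Nat.card K ^ i := by
    rw [← pow_add, Nat.sub_add_cancel h]
  rw [h4] at h1
  exact Nat.eq_of_mul_eq_mul_right (pow_pos Nat.card_pos i) h1

end Pool.Agent.H56.CR
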