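import Pool.Agent.H56.CR.IGU
import Pool.Agent.H22.T7.ZST

/-!
# LIM: the algebra `Lim q`
-/

set_option autoImplicit false

namespace Pool.Agent.H56.CR

open Finset
open Pool.Agent.H37.SM Pool.Agent.H22.T7

/-! ### The shift of rational functions -/

theorem comp_inj (c : ℂ) : Function.Injective
    (Polynomial.aeval (R := ℂ) (Polynomial.X + Polynomial.C c : Polynomial ℂ)) := by
  intro p p' h
  have h1 := congrArg (Polynomial.aeval (R := ℂ) (Polynomial.X - Polynomial.C c : Polynomial ℂ)) h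
  rw [← Polynomial.aeval_algHom_apply, ← Polynomial.aeval_algHom_apply] at h1
  simpa using h1

/-- `Z(X + c)`. -/
noncomputable def sh (c : ℂ) : RatFunc ℂ →ₐ[ℂ] RatFunc ℂ :=
  RatFunc.mapAlgHom (Polynomial.aeval (R := ℂ) (Polynomial.X + Polynomial.C c : Polynomial ℂ))
    (nonZeroDivisors_le_comap_nonZeroDivisors_of_injective _ (comp_inj c))

theorem sh_div (c : ℂ) (p q : Polynomial ℂ) :
    sh c (algebraMap (Polynomial ℂ) (RatFunc ℂ) p / algebraMap (Polynomial ℂ) (RatFunc ℂ) q) =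
    algebraMap (Polynomial ℂ) (RatFunc ℂ) (Polynomial.aeval (Polynomial.X + Polynomial.C c) p) /
      algebraMap (Polynomial ℂ) (RatFunc ℂ) (Polynomial.aeval (Polynomial.X + Polynomial.C c) q) := by
  unfold sh
  rw [RatFunc.coe_mapAlgHom_eq_coe_map, RatFunc.map_apply_div]

theorem sh_poly (c : ℂ) (p : Polynomial ℂ) :
    sh c (algebraMap (Polynomial ℂ) (RatFunc ℂ) p) =
    algebraMap (Polynomial ℂ) (RatFunc ℂ) (Polynomial.aeval (Polynomial.X + Polynomial.C c) p) := by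
  have h := sh_div c p 1
  rwa [map_one, map_one, map_one, div_one, div_one] at h

theorem sh_X (c : ℂ) : sh c RatFunc.X = RatFunc.X + RatFunc.C c := by
  rw [← RatFunc.algebraMap_X, sh_poly, Polynomial.aeval_X, map_add, RatFunc.algebraMap_C]

theorem aeval_aeval (c : ℂ) (p : Polynomial ℂ) :
    Polynomial.aeval (Polynomial.X + Polynomial.C (-c) : Polynomial ℂ)
      (Polynomial.aeval (Polynomial.X + Polynomial.C c : Polynomial ℂ) p) = p := by
  rw [← Polynomial.aeval_algHom_apply]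
  simp

theorem sh_sh (c : ℂ) (Z : RatFunc ℂ) : sh (-c) (sh c Z) = Z := by
  conv_lhs => rw [← RatFunc.num_div_denom Z]
  rw [sh_div, sh_div, aeval_aeval, aeval_aeval, RatFunc.num_div_denom]

theorem eval_aeval (c s : ℂ) (p : Polynomial ℂ) :
    (Polynomial.aeval (Polynomial.X + Polynomial.C c : Polynomial ℂ) p).eval s =
      p.eval (s + c) := by
  rw [← Polynomial.coe_aeval_eq_eval, ← Polynomial.coe_aeval_eq_eval]
  have h := Polynomial.aeval_algHom_apply (Polynomial.aeval (R := ℂ) s)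
    (Polynomial.X + Polynomial.C c : Polynomial ℂ) p
  rw [← h]
  simp

theorem reg_sh (c s : ℂ) (Z : RatFunc ℂ) (h : Reg (s + c) Z) : Reg s (sh c Z) := by
  obtain ⟨p, q, hq, rfl⟩ := (reg_iff Z).1 h
  rw [sh_div]
  refine (reg_iff _).2 ⟨_, _, ?_, rfl⟩
  rwa [eval_aeval]

theorem reg_of_sh (c s : ℂ) (Z : RatFunc ℂ) (h : Reg s (sh c Z)) : Reg (s + c) Z := by
  have h1 := reg_sh (-c) (s + c) (sh c Z) (by rwa [add_neg_cancel_right])
  rwa [sh_sh] at h1

/-! ### Operations on `Lim q` -/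

/-- `(H, Z) ↦ (e ↦ H_e(q^{-e} T), Z(X + 1))`. -/
noncomputable def shL (q : ℕ) : ((ℕ → PowerSeries ℂ) × RatFunc ℂ) →ₐ[ℂ]
    ((ℕ → PowerSeries ℂ) × RatFunc ℂ) :=
  AlgHom.prodMap (AlgHom.pi fun e => (PowerSeries.rescaleAlgHom ((((q : ℂ) ^ (e + 1))⁻¹))).comp
    (Pi.evalAlgHom ℂ (fun _ : ℕ => PowerSeries ℂ) e)) (sh 1)

theorem shL_apply (q : ℕ) (H : ℕ → PowerSeries ℂ) (Z : RatFunc ℂ) :
    shL q (H, Z) = (fun e => PowerSeries.rescale (((q : ℂ) ^ (e + 1))⁻¹) (H e), sh 1 Z) := by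
  unfold shL
  refine Prod.ext ?_ rfl
  funext e
  exact RingHom.congr_fun (PowerSeries.coe_rescaleAlgHom (((q : ℂ) ^ (e + 1))⁻¹)) (H e)

theorem rescale_C (a c : ℂ) : PowerSeries.rescale a (PowerSeries.C c) = PowerSeries.C c := by
  ext k
  rw [PowerSeries.coeff_rescale, PowerSeries.coeff_C]
  split_ifs with h
  · rw [h, pow_zero, one_mul]
  · rw [mul_zero]

theorem rescale_geo (q : ℂ) (N ν : ℕ) (hN : 0 < N) :
    PowerSeries.rescale q⁻¹ (geo q N ν) = geo q N (ν + N) := by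
  have key : ∀ m : ℕ, PowerSeries.constantCoeff
      (1 - PowerSeries.C ((q ^ m)⁻¹) * PowerSeries.X ^ N : PowerSeries ℂ) ≠ 0 := by
    intro m
    simp [hN.ne']
  have h1 : PowerSeries.rescale q⁻¹ (1 - PowerSeries.C ((q ^ ν)⁻¹) * PowerSeries.X ^ N) =
      1 - PowerSeries.C ((q ^ (ν + N))⁻¹) * PowerSeries.X ^ N := by
    rw [map_sub, map_one, map_mul, map_pow, rescale_C, PowerSeries.rescale_X, mul_pow,
      ← mul_assoc, ← map_pow, ← map_mul, pow_add, mul_inv, inv_pow]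
  have h2 : PowerSeries.rescale q⁻¹ ((1 - PowerSeries.C ((q ^ ν)⁻¹) * PowerSeries.X ^ N)⁻¹) =
      (1 - PowerSeries.C ((q ^ (ν + N))⁻¹) * PowerSeries.X ^ N)⁻¹ := by
    rw [PowerSeries.eq_inv_iff_mul_eq_one (key _), ← h1, ← map_mul,
      PowerSeries.inv_mul_cancel _ (key _), map_one]
  unfold geo
  rw [map_mul, h2, map_mul, map_mul, map_pow, rescale_C, rescale_C, PowerSeries.rescale_X, mul_pow,
      ← mul_assoc (PowerSeries.C ((q ^ ν)⁻¹)), ← map_pow, ← map_mul PowerSeries.C, pow_add,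
      mul_inv, inv_pow]

theorem lim_C {q : ℕ} (l : ℂ) (hl : l ≠ 0) :
    ((fun e => PowerSeries.C (l ^ (e + 1)), 1) : (ℕ → PowerSeries ℂ) × RatFunc ℂ) ∈ Lim q :=
  Algebra.subset_adjoin (Or.inl ⟨l, hl, rfl⟩)

theorem lim_geo {q : ℕ} (N ν : ℕ) (hN : 0 < N) (hν : 0 < ν) :
    ((fun e => geo ((q : ℂ) ^ (e + 1)) N ν,
      1 / ((ν : RatFunc ℂ) + (N : RatFunc ℂ) * RatFunc.X)) :
      (ℕ → PowerSeries ℂ) × RatFunc ℂ) ∈ Lim q :=
  Algebra.subset_adjoin (Or.inr ⟨N, ν, hN, hν, rfl⟩)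

theorem lim_sh {q : ℕ} (z : (ℕ → PowerSeries ℂ) × RatFunc ℂ) (hz : z ∈ Lim q) :
    shL q z ∈ Lim q := by
  have h1 : (Lim q).map (shL q) ≤ Lim q := by
    unfold Lim
    rw [AlgHom.map_adjoin, Algebra.adjoin_le_iff]
    rintro _ ⟨z, (⟨l, hl, rfl⟩ | ⟨N, ν, hN, hν, rfl⟩), rfl⟩
    · rw [shL_apply]
      have h2 := lim_C (q := q) l hl
      have h3 : ((fun e => PowerSeries.rescale (((q : ℂ) ^ (e + 1))⁻¹)
          (PowerSeries.C (l ^ (e + 1))), sh 1 1) : (ℕ → PowerSeries ℂ) × RatFunc ℂ) =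
          (fun e => PowerSeries.C (l ^ (e + 1)), 1) := by
        refine Prod.ext ?_ (map_one _)
        funext e
        exact rescale_C _ _
      rw [h3]
      exact h2
    · rw [shL_apply]
      have h2 := lim_geo (q := q) N (ν + N) hN (by omega)
      have h3 : ((fun e => PowerSeries.rescale (((q : ℂ) ^ (e + 1))⁻¹)
          (geo ((q : ℂ) ^ (e + 1)) N ν),
          sh 1 (1 / ((ν : RatFunc ℂ) + (N : RatFunc ℂ) * RatFunc.X))) :
          (ℕ → PowerSeries ℂ) × RatFunc ℂ) =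
          (fun e => geo ((q : ℂ) ^ (e + 1)) N (ν + N),
            1 / (((ν + N : ℕ) : RatFunc ℂ) + (N : RatFunc ℂ) * RatFunc.X)) := by
        refine Prod.ext ?_ ?_
        · funext e
          exact rescale_geo _ _ _ hN
        · dsimp only
          rw [map_div₀, map_one, map_add, map_mul, sh_X, map_natCast, map_natCast, map_one]
          congr 1
          push_cast
          ring
      rw [h3]
      exact h2
  exact h1 ⟨z, hz, rfl⟩

/-- `1 / (X + 1)` written as in `Lim`. -/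
noncomputable def inv1 : RatFunc ℂ := 1 / (((1 : ℕ) : RatFunc ℂ) + ((1 : ℕ) : RatFunc ℂ) * RatFunc.X)

/-- The zeta function of `f + u v` from that of `f`. -/
noncomputable def stZ (Z : RatFunc ℂ) : RatFunc ℂ :=
  ((1 - 1) + 1 * inv1) ^ 2 + 1 * (1 - inv1) * (1 + 1 * inv1) * sh 1 Z

theorem lim_st {q : ℕ} (hq : 0 < q) (H : ℕ → PowerSeries ℂ) (Z : RatFunc ℂ)
    (hz : ((H, Z) : (ℕ → PowerSeries ℂ) × RatFunc ℂ) ∈ Lim q) :
    ((fun e => ((1 - PowerSeries.C (((q : ℂ) ^ (e + 1))⁻¹)) +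
        PowerSeries.C (((q : ℂ) ^ (e + 1))⁻¹) * geo ((q : ℂ) ^ (e + 1)) 1 1) ^ 2 +
      PowerSeries.C (((q : ℂ) ^ (e + 1))⁻¹) * (1 - geo ((q : ℂ) ^ (e + 1)) 1 1) *
        (1 + PowerSeries.C (((q : ℂ) ^ (e + 1))⁻¹) * geo ((q : ℂ) ^ (e + 1)) 1 1) *
        PowerSeries.rescale (((q : ℂ) ^ (e + 1))⁻¹) (H e), stZ Z) :
      (ℕ → PowerSeries ℂ) × RatFunc ℂ) ∈ Lim q := by
  have hqc : (q : ℂ) ≠ 0 := by exact_mod_cast hq.ne'
  have h1 := lim_sh _ hz
  rw [shL_apply] at h1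
  have h2 := lim_C (q := q) ((q : ℂ)⁻¹) (inv_ne_zero hqc)
  have h3 := lim_geo (q := q) 1 1 one_pos one_pos
  have h4 : ((fun e => PowerSeries.C (((q : ℂ)⁻¹) ^ (e + 1)), 1) :
      (ℕ → PowerSeries ℂ) × RatFunc ℂ) =
      (fun e => PowerSeries.C (((q : ℂ) ^ (e + 1))⁻¹), 1) := by
    refine Prod.ext ?_ rfl
    funext e
    dsimp only
    rw [inv_pow]
  rw [h4] at h2
  have h0 := (Lim q).one_mem
  have h5 := (Lim q).add_mem
    ((Lim q).pow_mem ((Lim q).add_mem ((Lim q).sub_mem h0 h2) ((Lim q).mul_mem h2 h3)) 2)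
    ((Lim q).mul_mem ((Lim q).mul_mem ((Lim q).mul_mem h2 ((Lim q).sub_mem h0 h3))
      ((Lim q).add_mem h0 ((Lim q).mul_mem h2 h3))) h1)
  refine (congrArg (· ∈ Lim q) ?_).mp h5
  refine Prod.ext ?_ ?_
  · funext e
    simp only [Prod.fst_add, Prod.fst_mul, Prod.fst_sub, Prod.pow_fst, Prod.fst_one,
      Pi.add_apply, Pi.mul_apply, Pi.sub_apply, Pi.pow_apply, Pi.one_apply]
  · simp only [Prod.snd_add, Prod.snd_mul, Prod.snd_sub, Prod.pow_snd, Prod.snd_one, stZ, inv1]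

theorem lim_mulY {q : ℕ} (hq : 0 < q) (H : ℕ → PowerSeries ℂ) (Z : RatFunc ℂ)
    (hz : ((H, Z) : (ℕ → PowerSeries ℂ) × RatFunc ℂ) ∈ Lim q) :
    ((fun e => ((1 - PowerSeries.C (((q : ℂ) ^ (e + 1))⁻¹)) +
        PowerSeries.C (((q : ℂ) ^ (e + 1))⁻¹) * geo ((q : ℂ) ^ (e + 1)) 1 1) * H e,
        ((1 - 1) + 1 * inv1) * Z) :
      (ℕ → PowerSeries ℂ) × RatFunc ℂ) ∈ Lim q := by
  have hqc : (q : ℂ) ≠ 0 := by exact_mod_cast hq.ne'
  have h2 := lim_C (q := q) ((q : ℂ)⁻¹) (inv_ne_zero hqc)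
  have h3 := lim_geo (q := q) 1 1 one_pos one_pos
  have h4 : ((fun e => PowerSeries.C (((q : ℂ)⁻¹) ^ (e + 1)), 1) :
      (ℕ → PowerSeries ℂ) × RatFunc ℂ) =
      (fun e => PowerSeries.C (((q : ℂ) ^ (e + 1))⁻¹), 1) := by
    refine Prod.ext ?_ rfl
    funext e
    dsimp only
    rw [inv_pow]
  rw [h4] at h2
  have h0 := (Lim q).one_mem
  have h5 := (Lim q).mul_mem
    ((Lim q).add_mem ((Lim q).sub_mem h0 h2) ((Lim q).mul_mem h2 h3)) hz
  refine (congrArg (· ∈ Lim q) ?_).mp h5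
  refine Prod.ext ?_ ?_
  · funext e
    simp only [Prod.fst_add, Prod.fst_mul, Prod.fst_sub, Prod.fst_one,
      Pi.add_apply, Pi.mul_apply, Pi.sub_apply, Pi.one_apply]
  · simp only [Prod.snd_add, Prod.snd_mul, Prod.snd_sub, Prod.snd_one, inv1]

/-- The poles of `Z` have negative real part. -/
theorem lim_reg {q : ℕ} (z : (ℕ → PowerSeries ℂ) × RatFunc ℂ) (hz : z ∈ Lim q) (s : ℂ)
    (hs : 0 ≤ s.re) : Reg s z.2 := by
  refine Algebra.adjoin_induction (p := fun z _ => Reg s z.2) ?_ ?_ ?_ ?_ hz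
  · rintro z (⟨l, hl, rfl⟩ | ⟨N, ν, hN, hν, rfl⟩)
    · have h := reg_natCast (s0 := s) 1
      rwa [Nat.cast_one] at h
    · dsimp only
      rw [one_div]
      refine reg_inv_linear _ _ ?_
      intro h
      have h1 := congrArg Complex.re h
      simp at h1
      have h2 : (0 : ℝ) < ν := by exact_mod_cast hν
      have h3 : (0 : ℝ) ≤ N * s.re := by positivity
      linarith
  · intro r
    exact reg_C s r
  · intro x y _ _ hx hy
    exact hx.add hy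
  · intro x y _ _ hx hy
    exact hx.mul hy

end Pool.Agent.H56.CR
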