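import Pool.Agent.H56.CR.CNT

/-!
# MEA: the measures `meas`
-/

set_option autoImplicit false

namespace Pool.Agent.H56.CR

open Finset MvPolynomial

variable {K : Type} [Field K] {A : Type} [CommRing A]

/-- The value of `f` at `x`. -/
noncomputable def ev {σ : Type} (ι : A →+* K) {k : ℕ} (x : σ → Jet K k) :
    MvPolynomial σ A →+* Jet K k :=
  MvPolynomial.eval₂Hom ((algebraMap K (Jet K k)).comp ι) x

theorem ev_X {σ : Type} (ι : A →+* K) {k : ℕ} (x : σ → Jet K k) (i : σ) : ev ι x (X i) = x i := by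
  unfold ev
  rw [coe_eval₂Hom, eval₂_X]

theorem ev_rename {σ τ : Type} (ι : A →+* K) {k : ℕ} (φ : σ → τ) (x : τ → Jet K k)
    (f : MvPolynomial σ A) : ev ι x (rename φ f) = ev ι (x ∘ φ) f := by
  unfold ev
  rw [coe_eval₂Hom, coe_eval₂Hom, eval₂_rename]

theorem meas_eq {σ : Type} (ι : A →+* K) (f : MvPolynomial σ A) (k : ℕ) :
    meas ι f k = (Nat.card {x : σ → Jet K k // ev ι x f = 0} : ℂ) /
      (Nat.card (σ → Jet K k) : ℂ) := rfl

theorem card_ne {σ : Type} [Finite σ] [Finite K] (k : ℕ) :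
    (Nat.card (σ → Jet K k) : ℂ) ≠ 0 := by
  have : Nonempty (σ → Jet K k) := ⟨0⟩
  have h := Nat.card_pos (α := σ → Jet K k)
  exact_mod_cast h.ne'

theorem meas_rename {σ τ : Type} (ι : A →+* K) (φ : σ ≃ τ) (f : MvPolynomial σ A) (k : ℕ) :
    meas ι (rename φ f) k = meas ι f k := by
  rw [meas_eq, meas_eq]
  have h1 : Nat.card {x : τ → Jet K k // ev ι x (rename φ f) = 0} =
      Nat.card {x : σ → Jet K k // ev ι x f = 0} := by
    refine Nat.card_congr ⟨fun x => ⟨x.1 ∘ φ, ?_⟩, fun x => ⟨x.1 ∘ φ.symm, ?_⟩, ?_, ?_⟩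
    · rw [← ev_rename]; exact x.2
    · rw [ev_rename]
      have h2 : (x.1 ∘ φ.symm) ∘ φ = x.1 := by
        funext i
        simp
      rw [h2]
      exact x.2
    · intro x
      ext i
      simp
    · intro x
      ext i
      simp
  have h2 : Nat.card (τ → Jet K k) = Nat.card (σ → Jet K k) :=
    Nat.card_congr (Equiv.arrowCongr φ.symm (Equiv.refl _))
  rw [h1, h2]

theorem meas_zero {σ : Type} [Finite σ] [Finite K] (ι : A →+* K) (f : MvPolynomial σ A) :
    meas ι f 0 = 1 := by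
  have h0 : Nat.card (Jet K 0) = 1 := by rw [jet_card, pow_zero]
  have h1 : Subsingleton (Jet K 0) := (Nat.card_eq_one_iff_unique.1 h0).1
  rw [meas_eq]
  have h2 : Nat.card {x : σ → Jet K 0 // ev ι x f = 0} = Nat.card (σ → Jet K 0) :=
    Nat.card_congr (Equiv.subtypeUnivEquiv fun x => Subsingleton.elim _ _)
  rw [h2]
  exact div_self (card_ne 0)

theorem red_ev {σ : Type} (ι : A →+* K) {k j : ℕ} (h : j ≤ k) (x : σ → Jet K k)
    (f : MvPolynomial σ A) : red K h (ev ι x f) = ev ι (fun i => red K h (x i)) f := by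
  unfold ev
  rw [coe_eval₂Hom, coe_eval₂Hom]
  have h1 := MvPolynomial.eval₂_comp_left (red K h).toRingHom
    ((algebraMap K (Jet K k)).comp ι) x f
  refine h1.trans ?_
  congr 1
  ext a
  exact (red K h).commutes (ι a)

theorem card_dvd_ev {σ : Type} [Finite σ] [Finite K] (ι : A →+* K) (f : MvPolynomial σ A)
    {k j : ℕ} (h : j ≤ k) :
    (Nat.card {x : σ → Jet K k // (jt K k) ^ j ∣ ev ι x f} : ℂ) =
      (Nat.card (σ → Jet K k) : ℂ) * meas ι f j := by
  have h1 := card_preimage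
    ((RingHom.pi fun i : σ => ((red K h).toRingHom.comp
      (Pi.evalRingHom (fun _ : σ => Jet K k) i))).toAddMonoidHom)
    (by
      intro y
      choose x hx using fun i => red_surj (K := K) h (y i)
      exact ⟨x, funext fun i => hx i⟩) (fun y => ev ι y f = 0)
  have h2 : Nat.card {x : σ → Jet K k // ev ι ((RingHom.pi fun i : σ => ((red K h).toRingHom.comp
      (Pi.evalRingHom (fun _ : σ => Jet K k) i))).toAddMonoidHom x) f = 0} =
      Nat.card {x : σ → Jet K k // (jt K k) ^ j ∣ ev ι x f} := by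
    refine Nat.card_congr (Equiv.subtypeEquivRight fun x => ?_)
    rw [← red_eq_zero h, red_ev]
    rfl
  rw [h2] at h1
  have h3 : (Nat.card {x : σ → Jet K k // (jt K k) ^ j ∣ ev ι x f} : ℂ) *
      (Nat.card (σ → Jet K j) : ℂ) = (Nat.card (σ → Jet K k) : ℂ) *
        (Nat.card {y : σ → Jet K j // ev ι y f = 0} : ℂ) := by exact_mod_cast h1
  rw [meas_eq, mul_div_assoc', eq_div_iff (card_ne j)]
  exact h3

open Classical in
theorem card_sum_ite {X : Type} [Fintype X] (P : X → Prop) :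
    ∑ x : X, (if P x then (1 : ℂ) else 0) = (Nat.card {x : X // P x} : ℂ) := by
  rw [Nat.card_eq_fintype_card, Fintype.card_subtype, Finset.sum_boole]

/-- `F(x) + u v = 0`. -/
theorem card_add_mul {X : Type} [Finite X] [Finite K] {k : ℕ} (F : X → Jet K k) :
    (Nat.card {z : X × (Jet K k × Jet K k) // F z.1 + z.2.1 * z.2.2 = 0} : ℂ) =
      (Nat.card K : ℂ) ^ k * ((1 - (Nat.card K : ℂ)⁻¹) *
        ∑ j ∈ range k, (Nat.card {x : X // (jt K k) ^ j ∣ F x} : ℂ) +
          (Nat.card {x : X // (jt K k) ^ k ∣ F x} : ℂ)) := by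
  classical
  have : Fintype X := Fintype.ofFinite X
  have e : {z : X × (Jet K k × Jet K k) // F z.1 + z.2.1 * z.2.2 = 0} ≃
      Σ x : X, {z : Jet K k × Jet K k // z.1 * z.2 = - F x} :=
    ⟨fun z => ⟨z.1.1, ⟨z.1.2, (neg_eq_of_add_eq_zero_right z.2).symm⟩⟩,
      fun z => ⟨(z.1, z.2.1), by rw [z.2.2, add_neg_cancel]⟩, fun _ => rfl, fun _ => rfl⟩
  rw [Nat.card_congr e, Nat.card_sigma]
  push_cast
  simp only [card_mul_eq, dvd_neg]
  rw [← mul_sum, sum_add_distrib, ← mul_sum, Finset.sum_comm]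
  congr 2
  · congr 1
    refine sum_congr rfl fun j _ => ?_
    rw [← card_sum_ite]
  · rw [← card_sum_ite]

/-- `y F(x) = 0`. -/
theorem card_mul_F {X : Type} [Finite X] [Finite K] {k : ℕ} (F : X → Jet K k) :
    (Nat.card {z : X × Jet K k // z.2 * F z.1 = 0} : ℂ) =
      ∑ i ∈ range k, ((Nat.card K : ℂ) ^ (i + 1) - (Nat.card K : ℂ) ^ i) *
        (Nat.card {x : X // (jt K k) ^ (i + 1) ∣ F x} : ℂ) + (Nat.card X : ℂ) := by
  classical
  have : Fintype X := Fintype.ofFinite X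
  have e : {z : X × Jet K k // z.2 * F z.1 = 0} ≃
      Σ x : X, {y : Jet K k // F x * y = 0} :=
    ⟨fun z => ⟨z.1.1, ⟨z.1.2, by rw [mul_comm]; exact z.2⟩⟩,
      fun z => ⟨(z.1, z.2.1), by rw [mul_comm]; exact z.2.2⟩, fun _ => rfl, fun _ => rfl⟩
  rw [Nat.card_congr e, Nat.card_sigma]
  push_cast
  simp only [card_ann]
  rw [sum_add_distrib, Finset.sum_comm]
  congr 1
  · refine sum_congr rfl fun j _ => ?_
    rw [← card_sum_ite, mul_sum]
  · rw [sum_const, Finset.card_univ, Nat.card_eq_fintype_card]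
    simp

/-- `g + u v - u h + p v`. -/
noncomputable def stepW {σ : Type} (g p h : MvPolynomial σ A) :
    MvPolynomial (σ ⊕ (Fin 1 ⊕ Fin 1)) A :=
  rename Sum.inl g + X (Sum.inr (Sum.inl 0)) * X (Sum.inr (Sum.inr 0)) -
    X (Sum.inr (Sum.inl 0)) * rename Sum.inl h + rename Sum.inl p * X (Sum.inr (Sum.inr 0))

theorem ev_stepW {σ : Type} (ι : A →+* K) {k : ℕ} (g p h : MvPolynomial σ A)
    (z : σ ⊕ (Fin 1 ⊕ Fin 1) → Jet K k) :
    ev ι z (stepW g p h) = ev ι (z ∘ Sum.inl) (g + p * h) +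
      (z (Sum.inr (Sum.inl 0)) + ev ι (z ∘ Sum.inl) p) *
        (z (Sum.inr (Sum.inr 0)) - ev ι (z ∘ Sum.inl) h) := by
  unfold stepW
  simp only [map_add, map_sub, map_mul, ev_X, ev_rename]
  ring

theorem meas_stepW {σ : Type} [Finite σ] [Finite K] (ι : A →+* K) (g p h : MvPolynomial σ A)
    (k : ℕ) : meas ι (stepW g p h) k = ((Nat.card K : ℂ)⁻¹) ^ k * ((1 - (Nat.card K : ℂ)⁻¹) *
      ∑ j ∈ range k, meas ι (g + p * h) j + meas ι (g + p * h) k) := by
  have hq : (Nat.card K : ℂ) ≠ 0 := by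
    have := Nat.card_pos (α := K)
    exact_mod_cast this.ne'
  have e : {z : σ ⊕ (Fin 1 ⊕ Fin 1) → Jet K k // ev ι z (stepW g p h) = 0} ≃
      {z : (σ → Jet K k) × (Jet K k × Jet K k) //
        ev ι z.1 (g + p * h) + z.2.1 * z.2.2 = 0} :=
    ⟨fun z => ⟨(z.1 ∘ Sum.inl, z.1 (Sum.inr (Sum.inl 0)) + ev ι (z.1 ∘ Sum.inl) p,
        z.1 (Sum.inr (Sum.inr 0)) - ev ι (z.1 ∘ Sum.inl) h), by
          have h1 := z.2
          rw [ev_stepW] at h1
          exact h1⟩,
      fun z => ⟨Sum.elim z.1.1 (Sum.elim (fun _ => z.1.2.1 - ev ι z.1.1 p)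
        (fun _ => z.1.2.2 + ev ι z.1.1 h)), by
          rw [ev_stepW, Sum.elim_comp_inl]
          simp only [Sum.elim_inr, Sum.elim_inl, sub_add_cancel, add_sub_cancel_right]
          exact z.2⟩,
      fun z => by
        apply Subtype.ext
        funext i
        rcases i with i | i | i
        · rfl
        · have : i = 0 := Subsingleton.elim _ _
          subst this
          simp
        · have : i = 0 := Subsingleton.elim _ _
          subst this
          simp,
      fun z => by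
        apply Subtype.ext
        simp only [Sum.elim_comp_inl, Sum.elim_inr, Sum.elim_inl, sub_add_cancel,
          add_sub_cancel_right]⟩
  rw [meas_eq, Nat.card_congr e,
    card_add_mul (fun x : σ → Jet K k => ev ι x (g + p * h))]
  have h1 : ∀ j ∈ range k, (Nat.card {x : σ → Jet K k // (jt K k) ^ j ∣ ev ι x (g + p * h)} : ℂ) =
      (Nat.card (σ → Jet K k) : ℂ) * meas ι (g + p * h) j := fun j hj =>
    card_dvd_ev ι _ (mem_range.1 hj).le
  rw [sum_congr rfl h1, card_dvd_ev ι _ le_rfl, ← mul_sum]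
  have h2 : (Nat.card (σ ⊕ (Fin 1 ⊕ Fin 1) → Jet K k) : ℂ) =
      (Nat.card (σ → Jet K k) : ℂ) * ((Nat.card K : ℂ) ^ k * (Nat.card K : ℂ) ^ k) := by
    have e2 : (σ ⊕ (Fin 1 ⊕ Fin 1) → Jet K k) ≃ (σ → Jet K k) × (Jet K k × Jet K k) :=
      (Equiv.sumArrowEquivProdArrow _ _ _).trans (Equiv.prodCongr (Equiv.refl _)
        ((Equiv.sumArrowEquivProdArrow _ _ _).trans
          (Equiv.prodCongr (Equiv.funUnique _ _) (Equiv.funUnique _ _))))
    rw [Nat.card_congr e2, Nat.card_prod, Nat.card_prod, jet_card]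
    push_cast
    rfl
  rw [h2]
  have h3 := card_ne (K := K) (σ := σ) k
  have h4 : (Nat.card K : ℂ) ^ k ≠ 0 := pow_ne_zero _ hq
  rw [inv_pow]
  field_simp

/-- `y f`. -/
noncomputable def mulY {σ : Type} (f : MvPolynomial σ A) : MvPolynomial (σ ⊕ Unit) A :=
  X (Sum.inr ()) * rename Sum.inl f

theorem meas_mulY {σ : Type} [Finite σ] [Finite K] (ι : A →+* K) (f : MvPolynomial σ A)
    (k : ℕ) : meas ι (mulY f) k = ((Nat.card K : ℂ)⁻¹) ^ k *
      (∑ i ∈ range k, ((Nat.card K : ℂ) ^ (i + 1) - (Nat.card K : ℂ) ^ i) * meas ι f (i + 1)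
        + 1) := by
  have hq : (Nat.card K : ℂ) ≠ 0 := by
    have := Nat.card_pos (α := K)
    exact_mod_cast this.ne'
  have e : {z : σ ⊕ Unit → Jet K k // ev ι z (mulY f) = 0} ≃
      {z : (σ → Jet K k) × Jet K k // z.2 * ev ι z.1 f = 0} :=
    ⟨fun z => ⟨(z.1 ∘ Sum.inl, z.1 (Sum.inr ())), by
          have h1 := z.2
          unfold mulY at h1
          rw [map_mul, ev_X, ev_rename] at h1
          exact h1⟩,
      fun z => ⟨Sum.elim z.1.1 (fun _ => z.1.2), by
          unfold mulY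
          rw [map_mul, ev_X, ev_rename, Sum.elim_comp_inl]
          exact z.2⟩,
      fun z => by
        apply Subtype.ext
        funext i
        rcases i with i | i
        · rfl
        · rfl,
      fun z => by
        apply Subtype.ext
        simp only [Sum.elim_comp_inl, Sum.elim_inr]⟩
  rw [meas_eq, Nat.card_congr e, card_mul_F (fun x : σ → Jet K k => ev ι x f)]
  have h1 : ∀ i ∈ range k, ((Nat.card K : ℂ) ^ (i + 1) - (Nat.card K : ℂ) ^ i) *
      (Nat.card {x : σ → Jet K k // (jt K k) ^ (i + 1) ∣ ev ι x f} : ℂ) =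
      (Nat.card (σ → Jet K k) : ℂ) *
        (((Nat.card K : ℂ) ^ (i + 1) - (Nat.card K : ℂ) ^ i) * meas ι f (i + 1)) :=
    fun i hi => by
      rw [card_dvd_ev ι _ (Nat.succ_le_of_lt (mem_range.1 hi))]
      ring
  rw [sum_congr rfl h1, ← mul_sum]
  have h2 : (Nat.card (σ ⊕ Unit → Jet K k) : ℂ) =
      (Nat.card (σ → Jet K k) : ℂ) * ((Nat.card K : ℂ) ^ k) := by
    have e2 : (σ ⊕ Unit → Jet K k) ≃ (σ → Jet K k) × Jet K k :=
      (Equiv.sumArrowEquivProdArrow _ _ _).trans (Equiv.prodCongr (Equiv.refl _)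
        (Equiv.funUnique _ _))
    rw [Nat.card_congr e2, Nat.card_prod, jet_card]
    push_cast
    rfl
  rw [h2]
  have h3 := card_ne (K := K) (σ := σ) k
  have h4 : (Nat.card K : ℂ) ^ k ≠ 0 := pow_ne_zero _ hq
  rw [inv_pow]
  field_simp

end Pool.Agent.H56.CR
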