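import Pool.Agent.H56.CR.TRF

/-!
# MPZ: images under homomorphisms, scalar multiples, number fields
-/

set_option autoImplicit false

namespace Pool.Agent.H56.CR

open Finset MvPolynomial
open Pool.Agent.H37.SM Pool.Agent.H22.T7 Pool.Agent.H56.ST

theorem exists_codRestrict (S : Finset ℂ) (φ : Subring.closure (S : Set ℂ) →+* ℂ) :
    ∃ (S' : Finset ℂ), ∀ x, φ x ∈ Subring.closure (S' : Set ℂ) := by
  classical
  refine ⟨S.attach.image fun s => φ ⟨s.1, Subring.subset_closure s.2⟩, ?_⟩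
  rintro ⟨x, hx⟩
  refine Subring.closure_induction
    (p := fun x hx => φ ⟨x, hx⟩ ∈ Subring.closure
      ((S.attach.image fun s => φ ⟨s.1, Subring.subset_closure s.2⟩ : Finset ℂ) : Set ℂ))
    ?_ ?_ ?_ ?_ ?_ ?_ hx
  · intro x hx
    apply Subring.subset_closure
    rw [Finset.mem_coe, Finset.mem_image]
    exact ⟨⟨x, hx⟩, Finset.mem_attach _ _, rfl⟩
  · exact (map_zero φ).symm ▸ Subring.zero_mem _
  · exact (map_one φ).symm ▸ Subring.one_mem _
  · intro x y hx hy h1 h2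
    have h3 := map_add φ ⟨x, hx⟩ ⟨y, hy⟩
    exact h3 ▸ Subring.add_mem _ h1 h2
  · intro x hx h1
    have h3 := map_neg φ ⟨x, hx⟩
    exact h3 ▸ Subring.neg_mem _ h1
  · intro x y hx hy h1 h2
    have h3 := map_mul φ ⟨x, hx⟩ ⟨y, hy⟩
    exact h3 ▸ Subring.mul_mem _ h1 h2

theorem isTop_map {σ : Type} (S : Finset ℂ) (f0 : MvPolynomial σ (Subring.closure (S : Set ℂ)))
    (Z : RatFunc ℂ) (h : TopData (Subring.closure (S : Set ℂ)) f0 Z)
    (φ : Subring.closure (S : Set ℂ) →+* ℂ) : IsTopZeta (MvPolynomial.map φ f0) Z := by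
  obtain ⟨S', hS'⟩ := exists_codRestrict S φ
  refine ⟨S', MvPolynomial.map (φ.codRestrict (Subring.closure (S' : Set ℂ)) hS') f0, ?_, ?_⟩
  · rw [MvPolynomial.map_map]
    rfl
  · intro F _ _ ι K _ _ hK
    have h1 := h F (ι.comp (φ.codRestrict (Subring.closure (S' : Set ℂ)) hS')) K hK
    refine (congrArg (· ∈ Lim (Nat.card F)) ?_).mp h1
    refine Prod.ext ?_ rfl
    funext e
    dsimp only
    rw [igusa_map, RingHom.comp_assoc]

theorem meas_smul {σ A K : Type} [CommRing A] [Field K] (ι : A →+* K) (c : A) (hc : ι c ≠ 0)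
    (f : MvPolynomial σ A) (k : ℕ) : meas ι (C c * f) k = meas ι f k := by
  rw [meas_eq, meas_eq]
  congr 2
  refine Nat.card_congr (Equiv.subtypeEquivRight fun x => ?_)
  have h1 : ev ι x (C c * f) = algebraMap K (Jet K k) (ι c) * ev ι x f := by
    rw [map_mul]
    congr 1
    unfold ev
    rw [coe_eval₂Hom, eval₂_C]
    rfl
  rw [h1]
  have h2 : IsUnit (algebraMap K (Jet K k) (ι c)) := (isUnit_iff_ne_zero.2 hc).map _
  exact h2.mul_right_eq_zero

theorem isTop_smul {σ : Type} (c : ℂ) (hc : c ≠ 0) (f : MvPolynomial σ ℂ) (Z : RatFunc ℂ)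
    (hT : IsTopZeta f Z) : IsTopZeta (C c * f) Z := by
  classical
  obtain ⟨S, f0, hS, hf, hZ⟩ := enlarge f Z hT {c, c⁻¹}
  have h1 : c ∈ Subring.closure (S : Set ℂ) :=
    Subring.subset_closure (hS (Finset.mem_insert_self _ _))
  have h2 : c⁻¹ ∈ Subring.closure (S : Set ℂ) :=
    Subring.subset_closure (hS (Finset.mem_insert_of_mem (Finset.mem_singleton_self _)))
  refine ⟨S, C ⟨c, h1⟩ * f0, ?_, ?_⟩
  · rw [map_mul, MvPolynomial.map_C, hf]
    rfl
  · intro F _ _ ι K _ _ hK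
    have h3 := hZ F ι K hK
    refine (congrArg (· ∈ Lim (Nat.card F)) ?_).mp h3
    refine Prod.ext ?_ rfl
    funext e
    dsimp only
    unfold igusa
    have hu : (⟨c, h1⟩ : Subring.closure (S : Set ℂ)) * ⟨c⁻¹, h2⟩ = 1 :=
      Subtype.ext (mul_inv_cancel₀ hc)
    have hne : ((algebraMap F (K e)).comp ι) (⟨c, h1⟩ : Subring.closure (S : Set ℂ)) ≠ 0 := by
      intro h
      have h4 := congrArg ((algebraMap F (K e)).comp ι) hu
      rw [map_mul, h, zero_mul, map_one] at h4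
      exact zero_ne_one h4
    simp only [meas_smul _ _ hne]

theorem fe_smul {σ : Type} (c : ℂ) (hc : c ≠ 0) (f : MvPolynomial σ ℂ) (b : Polynomial ℂ)
    (h : FEq (MvPolynomial σ ℂ) f b) : FEq (MvPolynomial σ ℂ) (C c * f) b := by
  obtain ⟨B, hB, hk⟩ := h
  refine ⟨c⁻¹ • B, Subalgebra.smul_mem _ hB _, fun k => ?_⟩
  rw [Pi.smul_apply, LinearMap.smul_apply, MvPolynomial.C_mul', smul_pow, smul_pow, map_smul, hk,
    one_mul, one_mul, pow_succ, smul_smul, smul_smul, smul_smul]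
  congr 1
  field_simp

theorem good_smul {σ : Type} (c : ℂ) (hc : c ≠ 0) (f : MvPolynomial σ ℂ) (h : Good (C c * f)) :
    Good f := by
  intro hf Z hZ b hb s hs
  refine h (fun d hd => ?_) Z (isTop_smul c hc f Z hZ) b (fe_smul c hc f b hb) s hs
  apply hf (c⁻¹ * d)
  rw [map_mul, ← hd, ← mul_assoc, ← map_mul, inv_mul_cancel₀ hc, map_one, one_mul]

/-- The poles of `Z` are rational. -/
theorem lim_rat {q : ℕ} (z : (ℕ → PowerSeries ℂ) × RatFunc ℂ) (hz : z ∈ Lim q) (s : ℂ)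
    (hs : ∀ N ν : ℕ, 0 < N → (ν : ℂ) + N * s ≠ 0) : Reg s z.2 := by
  refine Algebra.adjoin_induction (p := fun z _ => Reg s z.2) ?_ ?_ ?_ ?_ hz
  · rintro z (⟨l, hl, rfl⟩ | ⟨N, ν, hN, hν, rfl⟩)
    · exact reg_one s
    · dsimp only
      rw [one_div]
      exact reg_inv_linear _ _ (hs N ν hN)
  · intro r
    exact reg_C s r
  · intro x y _ _ hx hy
    exact hx.add hy
  · intro x y _ _ hx hy
    exact hx.mul hy

theorem isTop_rat {σ : Type} (f : MvPolynomial σ ℂ) (Z : RatFunc ℂ) (hT : IsTopZeta f Z)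
    (s : ℂ) (hs : ¬ Reg s Z) : ∃ N ν : ℕ, 0 < N ∧ (ν : ℂ) + N * s = 0 := by
  by_contra hne
  push Not at hne
  obtain ⟨S, f0, -, hZ⟩ := hT
  obtain ⟨F, hF1, hF2, ⟨ι⟩⟩ := exists_hom S
  obtain ⟨p, hp⟩ := CharP.exists F
  have hpp : Fact p.Prime := ⟨CharP.char_is_prime F p⟩
  have h1 := hZ F ι (fun e => FiniteField.Extension F p (e + 1))
    (fun e => FiniteField.natCard_extension F p (e + 1))
  exact hs (lim_rat _ h1 s hne)

/-- Homomorphisms to number fields. -/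
theorem exists_numberField (S : Finset ℂ) : ∃ (L : Type) (_ : Field L) (_ : Algebra ℚ L)
    (_ : FiniteDimensional ℚ L), Nonempty (Subring.closure (S : Set ℂ) →+* L) := by
  have h1 : Algebra.FiniteType ℚ (Algebra.adjoin ℚ (S : Set ℂ)) :=
    (Subalgebra.fg_iff_finiteType _).1 (Subalgebra.fg_adjoin_finset S)
  obtain ⟨m, hm⟩ := Ideal.exists_maximal (Algebra.adjoin ℚ (S : Set ℂ))
  let inst : Field (Algebra.adjoin ℚ (S : Set ℂ) ⧸ m) := Ideal.Quotient.field m
  have h2 : Algebra.FiniteType ℚ (Algebra.adjoin ℚ (S : Set ℂ) ⧸ m) :=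
    Algebra.FiniteType.of_surjective (Ideal.Quotient.mkₐ ℚ m) Ideal.Quotient.mk_surjective
  have h3 : Module.Finite ℚ (Algebra.adjoin ℚ (S : Set ℂ) ⧸ m) :=
    finite_of_finite_type_of_isJacobsonRing ℚ _
  refine ⟨Algebra.adjoin ℚ (S : Set ℂ) ⧸ m, inst, inferInstance, h3, ⟨?_⟩⟩
  exact (Ideal.Quotient.mk m).comp (Subring.inclusion
    (show Subring.closure (S : Set ℂ) ≤ (Algebra.adjoin ℚ (S : Set ℂ)).toSubring from by
      rw [Subring.closure_le]
      exact Algebra.subset_adjoin))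

end Pool.Agent.H56.CR
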