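import Pool.Agent.H56.CR.MPZ

/-!
# NRM: the product of all conjugates of a polynomial over a number field
-/

set_option autoImplicit false

namespace Pool.Agent.H56.CR

open Finset MvPolynomial

/-! ### Linear changes of variables -/

/-- `X_{l,i} ↦ ∑_j V_{ij} X_{l,j}`. -/
noncomputable def linF {σ : Type} {d : ℕ} (V : Matrix (Fin d) (Fin d) ℂ) :
    MvPolynomial (σ × Fin d) ℂ →ₐ[ℂ] MvPolynomial (σ × Fin d) ℂ :=
  aeval fun z => ∑ j, C (V z.2 j) * X (z.1, j)

theorem linF_comp {σ : Type} {d : ℕ} (V W : Matrix (Fin d) (Fin d) ℂ) (h : V * W = 1) :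
    (linF (σ := σ) W).comp (linF V) = AlgHom.id ℂ _ := by
  apply MvPolynomial.algHom_ext
  rintro ⟨l, i⟩
  rw [AlgHom.comp_apply]
  unfold linF
  rw [aeval_X, map_sum]
  have h1 : ∀ j ∈ (univ : Finset (Fin d)),
      (aeval fun z : σ × Fin d => ∑ j, C (W z.2 j) * X (z.1, j)) (C (V i j) * X (l, j) :
        MvPolynomial (σ × Fin d) ℂ) =
      ∑ m, C (V i j * W j m) * (X (l, m) : MvPolynomial (σ × Fin d) ℂ) := by
    intro j _
    rw [map_mul, MvPolynomial.algHom_C, aeval_X, MvPolynomial.algebraMap_eq, mul_sum]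
    refine sum_congr rfl fun m _ => ?_
    rw [map_mul, mul_assoc]
  dsimp only
  rw [sum_congr rfl h1, sum_comm]
  have h2 : ∀ m ∈ (univ : Finset (Fin d)),
      ∑ j, C (V i j * W j m) * (X (l, m) : MvPolynomial (σ × Fin d) ℂ) =
      if m = i then X (l, i) else 0 := by
    intro m _
    rw [← sum_mul, ← map_sum]
    have h3 : ∑ j, V i j * W j m = (V * W) i m := rfl
    rw [h3, h, Matrix.one_apply]
    by_cases hm : m = i
    · rw [if_pos hm, if_pos hm.symm, map_one, one_mul, hm]
    · rw [if_neg hm, if_neg (Ne.symm hm), map_zero, zero_mul]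
  rw [sum_congr rfl h2, sum_ite_eq' univ i, if_pos (mem_univ i)]
  rfl

theorem linF_cc {σ : Type} {d : ℕ} (V : Matrix (Fin d) (Fin d) ℂ)
    (F : MvPolynomial (σ × Fin d) ℂ) : constantCoeff (linF V F) = constantCoeff F := by
  have h1 : (constantCoeff : MvPolynomial (σ × Fin d) ℂ →+* ℂ).comp (linF V).toRingHom =
      constantCoeff := by
    apply MvPolynomial.ringHom_ext
    · intro r
      change constantCoeff (linF V (C r)) = _
      rw [MvPolynomial.algHom_C]
      rfl
    · intro z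
      change constantCoeff (linF V (X z)) = _
      unfold linF
      rw [aeval_X, map_sum]
      simp
  exact RingHom.congr_fun h1 F

/-- The linear change of variables of an invertible matrix. -/
noncomputable def linE {σ : Type} {d : ℕ} (V W : Matrix (Fin d) (Fin d) ℂ) (h : V * W = 1) :
    MvPolynomial (σ × Fin d) ℂ ≃ₐ[ℂ] MvPolynomial (σ × Fin d) ℂ :=
  AlgEquiv.ofAlgHom (linF V) (linF W) (linF_comp W V (mul_eq_one_comm.1 h)) (linF_comp V W h)

/-! ### The norm -/

section norm

variable {L : Type} [Field L] [Algebra ℚ L] {τ : Type} {d : ℕ}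

/-- The matrix of the multiplication by `g`. -/
noncomputable def MM (bb : Module.Basis (Fin d) ℚ L) (g : MvPolynomial τ L) :
    Matrix (Fin d) (Fin d) (MvPolynomial τ ℚ) :=
  fun a b => ∑ ρ ∈ g.support, monomial ρ (Algebra.leftMulMatrix bb (g.coeff ρ) a b)

theorem MM_coeff (bb : Module.Basis (Fin d) ℚ L) (g : MvPolynomial τ L) (a b : Fin d)
    (ρ : τ →₀ ℕ) : (MM bb g a b).coeff ρ = Algebra.leftMulMatrix bb (g.coeff ρ) a b := by
  classical
  unfold MM
  rw [MvPolynomial.coeff_sum]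
  simp only [MvPolynomial.coeff_monomial]
  rw [Finset.sum_ite_eq' g.support ρ]
  split_ifs with h
  · rfl
  · rw [MvPolynomial.notMem_support_iff.1 h, map_zero]
    rfl

theorem MM_key (bb : Module.Basis (Fin d) ℚ L) (g : MvPolynomial τ L) (s : L →ₐ[ℚ] ℂ)
    (b : Fin d) :
    ∑ a, C (s (bb a)) * MvPolynomial.map (algebraMap ℚ ℂ) (MM bb g a b) =
      MvPolynomial.map (s : L →+* ℂ) g * C (s (bb b)) := by
  ext ρ
  rw [mul_comm _ (C (s (bb b))), MvPolynomial.coeff_sum, MvPolynomial.coeff_C_mul,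
    MvPolynomial.coeff_map]
  simp only [MvPolynomial.coeff_C_mul, MvPolynomial.coeff_map, MM_coeff]
  have h1 : g.coeff ρ * bb b = ∑ a, Algebra.leftMulMatrix bb (g.coeff ρ) a b • bb a := by
    rw [← bb.sum_repr (g.coeff ρ * bb b)]
    refine sum_congr rfl fun a _ => ?_
    rw [Algebra.leftMulMatrix_eq_repr_mul]
  have h2 := congrArg s h1
  rw [map_mul, map_sum] at h2
  change _ = s (bb b) * s (g.coeff ρ)
  rw [mul_comm (s (bb b)), h2]
  refine sum_congr rfl fun a _ => ?_
  rw [map_smul, Algebra.smul_def, mul_comm]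

end norm

theorem norm_rat {σ : Type} (L : Type) [Field L] [Algebra ℚ L]
    [FiniteDimensional ℚ L] (fL : MvPolynomial σ L) :
    ∃ (d : ℕ) (s : Fin (d + 1) → (L →+* ℂ))
      (ψ : MvPolynomial (σ × Fin (d + 1)) ℂ ≃ₐ[ℂ] MvPolynomial (σ × Fin (d + 1)) ℂ)
      (G : MvPolynomial (σ × Fin (d + 1)) ℚ),
      ψ (∏ i, rename (fun l => (l, i)) (MvPolynomial.map (s i) fL)) =
        MvPolynomial.map (algebraMap ℚ ℂ) G ∧
      ∀ F, constantCoeff (ψ F) = constantCoeff F := by
  classical
  obtain ⟨d, hd⟩ : ∃ d, Module.finrank ℚ L = d + 1 :=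
    Nat.exists_eq_succ_of_ne_zero (Module.finrank_pos).ne'
  let bb := Module.finBasisOfFinrankEq ℚ L hd
  have hcard : Fintype.card (Fin (d + 1)) = Fintype.card (L →ₐ[ℚ] ℂ) := by
    rw [AlgHom.card ℚ L ℂ, hd, Fintype.card_fin]
  let e : Fin (d + 1) ≃ (L →ₐ[ℚ] ℂ) := Fintype.equivOfCardEq hcard
  let V : Matrix (Fin (d + 1)) (Fin (d + 1)) ℂ := fun i j => e i (bb j)
  have hdet : V.det ≠ 0 := by
    intro h
    have h1 := Algebra.discr_eq_det_embeddingsMatrixReindex_pow_two ℚ ℂ (fun j => bb j) e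
    have h2 : (Algebra.embeddingsMatrixReindex ℚ ℂ (fun j => bb j) e) = V.transpose := by
      ext i j
      rfl
    rw [h2, Matrix.det_transpose, h, zero_pow two_ne_zero] at h1
    have h3 := Algebra.discr_not_zero_of_basis ℚ bb
    apply h3
    have h4 : (algebraMap ℚ ℂ) (Algebra.discr ℚ bb) = 0 := h1
    exact (map_eq_zero _).1 h4
  have hVW : V * V⁻¹ = 1 := Matrix.mul_nonsing_inv V (isUnit_iff_ne_zero.2 hdet)
  let g : MvPolynomial (σ × Fin (d + 1)) L := aeval (fun l => ∑ j, C (bb j) * X (l, j)) fL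
  refine ⟨d, fun i => (e i : L →+* ℂ), linE V V⁻¹ hVW, (MM bb g).det, ?_,
    fun F => linF_cc V F⟩
  have h1 : ∀ i, linE V V⁻¹ hVW (rename (fun l => (l, i)) (MvPolynomial.map (e i : L →+* ℂ) fL)) =
      MvPolynomial.map (e i : L →+* ℂ) g := by
    intro i
    change linF V _ = _
    have h2 : ((linF V).toRingHom.comp ((rename (fun l : σ => (l, i))).toRingHom.comp
        (MvPolynomial.map (e i : L →+* ℂ)))) =
        (MvPolynomial.map (e i : L →+* ℂ)).comp
          (aeval (fun l => ∑ j, C (bb j) * X (l, j)) : MvPolynomial σ L →ₐ[L] _).toRingHom := by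
      apply MvPolynomial.ringHom_ext
      · intro r
        change linF V (rename (fun l : σ => (l, i)) (MvPolynomial.map (e i : L →+* ℂ) (C r))) =
          MvPolynomial.map (e i : L →+* ℂ) (aeval (fun l => ∑ j, C (bb j) * X (l, j)) (C r))
        rw [MvPolynomial.map_C, rename_C, MvPolynomial.algHom_C, MvPolynomial.algHom_C,
          MvPolynomial.algebraMap_eq, MvPolynomial.algebraMap_eq, MvPolynomial.map_C]
      · intro l
        change linF V (rename (fun l : σ => (l, i)) (MvPolynomial.map (e i : L →+* ℂ) (X l))) =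
          MvPolynomial.map (e i : L →+* ℂ) (aeval (fun l => ∑ j, C (bb j) * X (l, j)) (X l))
        rw [MvPolynomial.map_X, rename_X, aeval_X]
        unfold linF
        rw [aeval_X, map_sum]
        refine sum_congr rfl fun j _ => ?_
        rw [map_mul, MvPolynomial.map_C, MvPolynomial.map_X]
        rfl
    exact RingHom.congr_fun h2 fL
  rw [map_prod]
  simp only [h1]
  have hC : (C V.det : MvPolynomial (σ × Fin (d + 1)) ℂ) ≠ 0 := by
    rw [Ne, MvPolynomial.C_eq_zero]
    exact hdet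
  apply mul_right_cancel₀ hC
  have h3 : (V.map C) * ((MM bb g).map (MvPolynomial.map (algebraMap ℚ ℂ))) =
      (Matrix.diagonal fun i => MvPolynomial.map (e i : L →+* ℂ) g) * (V.map C) := by
    ext1 i b
    rw [Matrix.mul_apply, Matrix.diagonal_mul]
    exact MM_key bb g (e i) b
  have h4 := congrArg Matrix.det h3
  rw [Matrix.det_mul, Matrix.det_mul, Matrix.det_diagonal] at h4
  have h5 : (V.map (C : ℂ → MvPolynomial (σ × Fin (d + 1)) ℂ)).det = C V.det :=
    ((C : ℂ →+* MvPolynomial (σ × Fin (d + 1)) ℂ).map_det V).symm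
  have h6 : ((MM bb g).map (MvPolynomial.map (algebraMap ℚ ℂ))).det =
      MvPolynomial.map (algebraMap ℚ ℂ) (MM bb g).det :=
    ((MvPolynomial.map (algebraMap ℚ ℂ)).map_det (MM bb g)).symm
  rw [h5, h6] at h4
  rw [← h4, mul_comm]

end Pool.Agent.H56.CR
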