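import Pool.Agent.H56.CR.AUTF

/-!
# PRD: products of polynomials in different variables
-/

set_option autoImplicit false

namespace Pool.Agent.H56.CR

open Finset MvPolynomial
open Pool.Agent.H37.SM Pool.Agent.H22.T7 Pool.Agent.H56.ST

section meas

variable {K : Type} [Field K] {A : Type} [CommRing A]

theorem tele2 {X : Type} [Fintype X] {k : ℕ} (F : X → Jet K k) (h : X → ℂ) (v : ℕ → ℂ)
    (hv : ∀ j < k, ∀ x, (jt K k) ^ j ∣ F x → ¬ (jt K k) ^ (j + 1) ∣ F x → h x = v j)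
    (hk : ∀ x, (jt K k) ^ k ∣ F x → h x = v k) :
    ∑ x, h x = ∑ j ∈ range k, ((Nat.card {x : X // (jt K k) ^ j ∣ F x} : ℂ) -
      (Nat.card {x : X // (jt K k) ^ (j + 1) ∣ F x} : ℂ)) * v j +
        (Nat.card {x : X // (jt K k) ^ k ∣ F x} : ℂ) * v k := by
  classical
  set D : ℕ → Finset X := fun j => univ.filter fun x => (jt K k) ^ j ∣ F x with hD
  have hsub : ∀ j, D (j + 1) ⊆ D j := by
    intro j u hu
    rw [hD, mem_filter] at hu ⊢
    exact ⟨mem_univ _, (pow_dvd_pow _ (Nat.le_succ j)).trans hu.2⟩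
  have hcard : ∀ j, ((D j).card : ℂ) = (Nat.card {x : X // (jt K k) ^ j ∣ F x} : ℂ) := by
    intro j
    rw [Nat.card_eq_fintype_card, Fintype.card_subtype]
  have hstep : ∀ j < k, ∑ u ∈ D j, h u =
      ((Nat.card {x : X // (jt K k) ^ j ∣ F x} : ℂ) -
      (Nat.card {x : X // (jt K k) ^ (j + 1) ∣ F x} : ℂ)) * v j + ∑ u ∈ D (j + 1), h u := by
    intro j hj
    rw [← Finset.sum_sdiff (hsub j)]
    congr 1
    rw [Finset.sum_congr rfl (g := fun _ => v j), sum_const, nsmul_eq_mul]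
    · congr 1
      rw [Finset.card_sdiff_of_subset (hsub j), Nat.cast_sub (card_le_card (hsub j)),
        hcard j, hcard (j + 1)]
    · intro u hu
      rw [mem_sdiff, hD, mem_filter, mem_filter] at hu
      exact hv j hj u hu.1.2 fun h' => hu.2 ⟨mem_univ _, h'⟩
  have hall : ∀ i ≤ k, ∑ u, h u = ∑ j ∈ range i,
      ((Nat.card {x : X // (jt K k) ^ j ∣ F x} : ℂ) -
      (Nat.card {x : X // (jt K k) ^ (j + 1) ∣ F x} : ℂ)) * v j + ∑ u ∈ D i, h u := by
    intro i
    induction i with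
    | zero =>
      intro _
      rw [sum_range_zero, zero_add]
      refine sum_congr ?_ fun _ _ => rfl
      rw [hD]
      ext u
      simp
    | succ i ih =>
      intro hi
      rw [ih (by omega), hstep i (by omega), sum_range_succ, add_assoc]
  rw [hall k le_rfl]
  congr 1
  rw [← hcard, ← nsmul_eq_mul, ← sum_const]
  refine sum_congr rfl fun x hx => ?_
  rw [hD, mem_filter] at hx
  exact hk x hx.2

/-- `F(x) G(y) = 0`. -/
theorem card_FG {X Y : Type} [Finite X] [Finite Y] [Finite K] {k : ℕ} (F : X → Jet K k)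
    (G : Y → Jet K k) :
    (Nat.card {z : X × Y // F z.1 * G z.2 = 0} : ℂ) =
      ∑ j ∈ range k, ((Nat.card {x : X // (jt K k) ^ j ∣ F x} : ℂ) -
      (Nat.card {x : X // (jt K k) ^ (j + 1) ∣ F x} : ℂ)) *
        (Nat.card {y : Y // (jt K k) ^ (k - j) ∣ G y} : ℂ) +
        (Nat.card {x : X // (jt K k) ^ k ∣ F x} : ℂ) * (Nat.card Y : ℂ) := by
  classical
  have : Fintype X := Fintype.ofFinite X
  have e : {z : X × Y // F z.1 * G z.2 = 0} ≃ Σ x : X, {y : Y // F x * G y = 0} :=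
    ⟨fun z => ⟨z.1.1, ⟨z.1.2, z.2⟩⟩, fun z => ⟨(z.1, z.2.1), z.2.2⟩, fun _ => rfl, fun _ => rfl⟩
  rw [Nat.card_congr e, Nat.card_sigma]
  push_cast
  have hY : (Nat.card Y : ℂ) = (Nat.card {y : Y // (jt K k) ^ (k - k) ∣ G y} : ℂ) := by
    congr 1
    refine (Nat.card_congr (Equiv.subtypeUnivEquiv fun y => ?_)).symm
    rw [Nat.sub_self, pow_zero]
    exact one_dvd _
  rw [hY]
  refine tele2 F (fun x => (Nat.card {y : Y // F x * G y = 0} : ℂ))
    (fun j => (Nat.card {y : Y // (jt K k) ^ (k - j) ∣ G y} : ℂ)) ?_ ?_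
  · intro j hj x h1 h2
    obtain ⟨u, hu⟩ := unit_of_order (F x) h1 h2
    congr 1
    refine Nat.card_congr (Equiv.subtypeEquivRight fun y => ?_)
    rw [← jt_ann hj.le, hu]
    constructor
    · intro h
      have h3 := congrArg (fun z => z * ((u⁻¹ : (Jet K k)ˣ) : Jet K k)) h
      rw [zero_mul] at h3
      have h4 : (jt K k) ^ j * (u : Jet K k) * G y * ((u⁻¹ : (Jet K k)ˣ) : Jet K k) =
          G y * (jt K k) ^ j * ((u : Jet K k) * ((u⁻¹ : (Jet K k)ˣ) : Jet K k)) := by ring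
      rw [h4, Units.mul_inv, mul_one] at h3
      exact h3
    · intro h
      calc (jt K k) ^ j * (u : Jet K k) * G y = (G y * (jt K k) ^ j) * u := by ring
        _ = 0 := by rw [h, zero_mul]
  · intro x hx
    rw [jt_pow, zero_dvd_iff] at hx
    rw [← hY]
    congr 1
    refine Nat.card_congr (Equiv.subtypeUnivEquiv fun y => ?_)
    rw [hx, zero_mul]

/-- `f(x) g(y)`. -/
noncomputable def prd {σ τ : Type} (f : MvPolynomial σ A) (g : MvPolynomial τ A) :
    MvPolynomial (σ ⊕ τ) A := rename Sum.inl f * rename Sum.inr g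

theorem meas_prd {σ τ : Type} [Finite σ] [Finite τ] [Finite K] (ι : A →+* K)
    (f : MvPolynomial σ A) (g : MvPolynomial τ A) (k : ℕ) :
    meas ι (prd f g) k = ∑ j ∈ range k, (meas ι f j - meas ι f (j + 1)) * meas ι g (k - j) +
      meas ι f k := by
  have e : {z : σ ⊕ τ → Jet K k // ev ι z (prd f g) = 0} ≃
      {z : (σ → Jet K k) × (τ → Jet K k) // ev ι z.1 f * ev ι z.2 g = 0} := by
    refine (Equiv.sumArrowEquivProdArrow _ _ _).subtypeEquiv fun z => ?_
    unfold prd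
    rw [map_mul, ev_rename, ev_rename]
    rfl
  rw [meas_eq, Nat.card_congr e,
    card_FG (fun x : σ → Jet K k => ev ι x f) (fun y : τ → Jet K k => ev ι y g),
    card_dvd_ev ι f le_rfl]
  have h1 : ∀ j ∈ range k, ((Nat.card {x : σ → Jet K k // (jt K k) ^ j ∣ ev ι x f} : ℂ) -
      (Nat.card {x : σ → Jet K k // (jt K k) ^ (j + 1) ∣ ev ι x f} : ℂ)) *
        (Nat.card {y : τ → Jet K k // (jt K k) ^ (k - j) ∣ ev ι y g} : ℂ) =
      (Nat.card (σ → Jet K k) : ℂ) * (Nat.card (τ → Jet K k) : ℂ) *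
        ((meas ι f j - meas ι f (j + 1)) * meas ι g (k - j)) := by
    intro j hj
    rw [mem_range] at hj
    rw [card_dvd_ev ι f hj.le, card_dvd_ev ι f (Nat.succ_le_of_lt hj),
      card_dvd_ev ι g (Nat.sub_le k j)]
    ring
  rw [sum_congr rfl h1, ← mul_sum]
  have h2 : (Nat.card (σ ⊕ τ → Jet K k) : ℂ) =
      (Nat.card (σ → Jet K k) : ℂ) * (Nat.card (τ → Jet K k) : ℂ) := by
    rw [Nat.card_congr (Equiv.sumArrowEquivProdArrow σ τ (Jet K k)), Nat.card_prod]
    push_cast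
    rfl
  rw [h2]
  have h3 := card_ne (K := K) (σ := σ) k
  have h4 := card_ne (K := K) (σ := τ) k
  field_simp

theorem igusa_prd {σ τ : Type} [Finite σ] [Finite τ] [Finite K] (ι : A →+* K)
    (f : MvPolynomial σ A) (g : MvPolynomial τ A) :
    igusa ι (prd f g) = igusa ι f * igusa ι g := by
  have h0 := meas_zero (K := K) ι g
  unfold igusa
  ext k
  rw [PowerSeries.coeff_mul, Finset.Nat.sum_antidiagonal_eq_sum_range_succ_mk,
    PowerSeries.coeff_mk, meas_prd, meas_prd, sum_range_succ _ k, sum_range_succ _ k]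
  simp only [PowerSeries.coeff_mk, Nat.sub_self]
  have h1 : k + 1 - k = 1 := by omega
  rw [h1, zero_add, h0]
  have h2 : ∑ j ∈ range k, (meas ι f j - meas ι f (j + 1)) *
      (meas ι g (k - j) - meas ι g (k - j + 1)) =
      ∑ j ∈ range k, (meas ι f j - meas ι f (j + 1)) * meas ι g (k - j) -
      ∑ j ∈ range k, (meas ι f j - meas ι f (j + 1)) * meas ι g (k + 1 - j) := by
    rw [← sum_sub_distrib]
    refine sum_congr rfl fun j hj => ?_
    rw [mem_range] at hj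
    have h3 : k + 1 - j = k - j + 1 := by omega
    rw [h3]
    ring
  rw [h2]
  ring

end meas

theorem lim_mul {q : ℕ} (H H' : ℕ → PowerSeries ℂ) (Z Z' : RatFunc ℂ)
    (hz : ((H, Z) : (ℕ → PowerSeries ℂ) × RatFunc ℂ) ∈ Lim q)
    (hz' : ((H', Z') : (ℕ → PowerSeries ℂ) × RatFunc ℂ) ∈ Lim q) :
    ((fun e => H e * H' e, Z * Z') : (ℕ → PowerSeries ℂ) × RatFunc ℂ) ∈ Lim q :=
  (Lim q).mul_mem hz hz'

theorem isTop_prd {σ τ : Type} [Finite σ] [Finite τ] (f : MvPolynomial σ ℂ)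
    (g : MvPolynomial τ ℂ) (Z Z' : RatFunc ℂ) (hf : IsTopZeta f Z) (hg : IsTopZeta g Z') :
    IsTopZeta (prd f g) (Z * Z') := by
  classical
  obtain ⟨S1, f1, hf1, hZ1⟩ := hf
  obtain ⟨S2, g2, hg2, hZ2⟩ := hg
  obtain ⟨S, hS1, hS2⟩ : ∃ S : Finset ℂ, S1 ⊆ S ∧ S2 ⊆ S :=
    ⟨S1 ∪ S2, Finset.subset_union_left, Finset.subset_union_right⟩
  have hle1 : Subring.closure (S1 : Set ℂ) ≤ Subring.closure (S : Set ℂ) :=
    Subring.closure_mono (Finset.coe_subset.2 hS1)
  have hle2 : Subring.closure (S2 : Set ℂ) ≤ Subring.closure (S : Set ℂ) :=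
    Subring.closure_mono (Finset.coe_subset.2 hS2)
  have hf3 := map_incl hle1 f1 f hf1
  have hg3 := map_incl hle2 g2 g hg2
  have hZ3 := TopData.incl hle1 f1 Z hZ1
  have hZ4 := TopData.incl hle2 g2 Z' hZ2
  refine ⟨S, prd (MvPolynomial.map (Subring.inclusion hle1) f1)
    (MvPolynomial.map (Subring.inclusion hle2) g2), ?_, ?_⟩
  · unfold prd
    rw [map_mul, MvPolynomial.map_rename, MvPolynomial.map_rename, hf3, hg3]
  · intro F _ _ ι K _ _ hK
    have h1 := lim_mul _ _ _ _ (hZ3 F ι K hK) (hZ4 F ι K hK)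
    refine (congrArg (· ∈ Lim (Nat.card F)) ?_).mp h1
    refine Prod.ext ?_ rfl
    funext e
    dsimp only
    have hfin : Finite (K e) := card_pos_of (F := F) (K e) e (hK e)
    rw [igusa_prd]

/-- The functional equation of a product. -/
theorem fe_prd {σ τ : Type} (f : MvPolynomial σ ℂ) (g : MvPolynomial τ ℂ)
    (b b' : Polynomial ℂ) (hf : FEq (MvPolynomial σ ℂ) f b) (hg : FEq (MvPolynomial τ ℂ) g b') :
    FEq (MvPolynomial (σ ⊕ τ) ℂ) (prd f g) (b * b') := by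
  obtain ⟨B, hB, hBk⟩ := hf
  obtain ⟨d, D, hD, hBD⟩ := (PF_iff B).1 hB
  choose D' hD' hD'2 using fun i => extP (β := τ) (hD i)
  obtain ⟨B2, hB2, hBk2⟩ := hg
  obtain ⟨d2, D2, hD2, hBD2⟩ := (PF_iff B2).1 hB2
  choose E' hE' hE'2 using fun i => extP (β := σ) (hD2 i)
  -- conjugation with the swap
  choose E hE hE2 using fun i => AUT_conj
    (MvPolynomial.renameEquiv ℂ (Equiv.sumComm τ σ)) (E' i) (hE' i)
  have hsw : ∀ (p : MvPolynomial σ ℂ) (q : MvPolynomial τ ℂ),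
      (rename Sum.inl p * rename Sum.inr q : MvPolynomial (σ ⊕ τ) ℂ) =
      MvPolynomial.renameEquiv ℂ (Equiv.sumComm τ σ)
        (rename Sum.inl q * rename Sum.inr p) := by
    intro p q
    rw [MvPolynomial.renameEquiv_apply, map_mul, rename_rename, rename_rename, mul_comm]
    rfl
  have hE3 : ∀ i (p : MvPolynomial σ ℂ) (q : MvPolynomial τ ℂ),
      E i (rename Sum.inl p * rename Sum.inr q) = rename Sum.inl p * rename Sum.inr (D2 i q) := by
    intro i p q
    rw [hsw, hE2, hE'2, hsw]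
  have h1 : (fun c : ℂ => ∑ i : Fin d, c ^ (i : ℕ) • D' i) ∈ PF (MvPolynomial (σ ⊕ τ) ℂ) :=
    (PF_iff _).2 ⟨d, D', hD', fun c => rfl⟩
  have h2 : (fun c : ℂ => ∑ i : Fin d2, c ^ (i : ℕ) • E i) ∈ PF (MvPolynomial (σ ⊕ τ) ℂ) :=
    (PF_iff _).2 ⟨d2, E, hE, fun c => rfl⟩
  refine ⟨_, (PF _).mul_mem h2 h1, fun k => ?_⟩
  have h3 : (∑ i : Fin d, (k : ℂ) ^ (i : ℕ) • D' i) ((prd f g) ^ (k + 1)) =
      rename Sum.inl (B (k : ℂ) (f ^ (k + 1))) * rename Sum.inr (g ^ (k + 1)) := by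
    unfold prd
    rw [mul_pow, ← map_pow, ← map_pow, LinearMap.sum_apply, hBD, LinearMap.sum_apply, map_sum,
      Finset.sum_mul]
    refine Finset.sum_congr rfl fun i _ => ?_
    rw [LinearMap.smul_apply, LinearMap.smul_apply, hD'2, map_smul, smul_mul_assoc]
  have h4 : (∑ i : Fin d2, (k : ℂ) ^ (i : ℕ) • E i)
      (rename Sum.inl (B (k : ℂ) (f ^ (k + 1))) * rename Sum.inr (g ^ (k + 1))) =
      rename Sum.inl (B (k : ℂ) (f ^ (k + 1))) *
        rename Sum.inr (B2 (k : ℂ) (g ^ (k + 1))) := by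
    rw [LinearMap.sum_apply, hBD2, LinearMap.sum_apply, map_sum, Finset.mul_sum]
    refine Finset.sum_congr rfl fun i _ => ?_
    rw [LinearMap.smul_apply, LinearMap.smul_apply, hE3, map_smul, mul_smul_comm]
  rw [Pi.mul_apply, Module.End.mul_apply, h3, h4, hBk, hBk2, one_mul, one_mul, one_mul]
  unfold prd
  rw [mul_pow, map_smul, map_smul, map_pow, map_pow, Polynomial.eval_mul, smul_mul_smul_comm]

end Pool.Agent.H56.CR
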