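import Pool.Agent.H56.CR.PRD

/-!
# PRM: products of several polynomials in different variables
-/

set_option autoImplicit false

namespace Pool.Agent.H56.CR

open Finset MvPolynomial
open Pool.Agent.H37.SM Pool.Agent.H22.T7 Pool.Agent.H56.ST

/-- The renaming of the variables. -/
def snocF (σ : Type) (d : ℕ) : (σ × Fin d) ⊕ σ → σ × Fin (d + 1) :=
  Sum.elim (fun z => (z.1, Fin.castSucc z.2)) fun l => (l, Fin.last d)

theorem snocF_bij (σ : Type) (d : ℕ) : Function.Bijective (snocF σ d) := by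
  constructor
  · rintro (⟨l, i⟩ | l) (⟨l', i'⟩ | l') h
    all_goals simp only [snocF, Sum.elim_inl, Sum.elim_inr, Prod.mk.injEq] at h
    · obtain ⟨rfl, h2⟩ := h
      rw [Fin.castSucc_inj] at h2
      rw [h2]
    · exact absurd h.2 (Fin.castSucc_ne_last _)
    · exact absurd h.2.symm (Fin.castSucc_ne_last _)
    · rw [h.1]
  · rintro ⟨l, i⟩
    induction i using Fin.lastCases with
    | last => exact ⟨Sum.inr l, rfl⟩
    | cast i => exact ⟨Sum.inl (l, i), rfl⟩

theorem feq_rename {σ τ : Type} (φ : σ ≃ τ) (f : MvPolynomial σ ℂ) (b : Polynomial ℂ)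
    (h : FEq (MvPolynomial σ ℂ) f b) : FEq (MvPolynomial τ ℂ) (rename φ f) b :=
  aut (MvPolynomial.renameEquiv ℂ φ) f b h

theorem tz_prodN {σ : Type} [Finite σ] (Z : RatFunc ℂ) (d : ℕ) :
    ∀ (f : Fin (d + 1) → MvPolynomial σ ℂ) (b : Fin (d + 1) → Polynomial ℂ),
      (∀ i, IsTopZeta (f i) Z ∧ FEq (MvPolynomial σ ℂ) (f i) (b i)) →
      IsTopZeta (∏ i, rename (fun l => (l, i)) (f i)) (Z ^ (d + 1)) ∧
      FEq (MvPolynomial (σ × Fin (d + 1)) ℂ) (∏ i, rename (fun l => (l, i)) (f i)) (∏ i, b i) := by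
  induction d with
  | zero =>
    intro f b h
    obtain ⟨h1, h2⟩ := h 0
    rw [Fin.prod_univ_one, Fin.prod_univ_one, show Z ^ (0 + 1) = Z from pow_one Z]
    exact ⟨isTop_rename (Equiv.prodUnique σ (Fin 1)).symm _ _ h1,
      feq_rename (Equiv.prodUnique σ (Fin 1)).symm _ _ h2⟩
  | succ d ih =>
    intro f b h
    obtain ⟨h1, h2⟩ := ih (fun i => f (Fin.castSucc i)) (fun i => b (Fin.castSucc i))
      (fun i => h _)
    obtain ⟨h3, h4⟩ := h (Fin.last (d + 1))
    have h5 := isTop_rename (Equiv.ofBijective _ (snocF_bij σ (d + 1))) _ _ (isTop_prd _ _ _ _ h1 h3)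
    have h6 := feq_rename (Equiv.ofBijective _ (snocF_bij σ (d + 1))) _ _ (fe_prd _ _ _ _ h2 h4)
    have h7 : rename (Equiv.ofBijective _ (snocF_bij σ (d + 1)))
        (prd (∏ i, rename (fun l => (l, i)) (f (Fin.castSucc i))) (f (Fin.last (d + 1)))) =
        ∏ i, rename (fun l => (l, i)) (f i) := by
      rw [Fin.prod_univ_castSucc (fun i => rename (fun l => (l, i)) (f i))]
      unfold prd
      rw [map_mul, rename_rename, rename_rename, map_prod]
      simp only [rename_rename]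
      rfl
    rw [h7] at h5 h6
    rw [Fin.prod_univ_castSucc b, pow_succ]
    exact ⟨h5, h6⟩

end Pool.Agent.H56.CR
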