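import Pool.Agent.H56.CR.TOP
import Pool.Agent.H56.ST.FES
import Pool.Agent.H56.ST.UNS

/-!
# RED: one reduction step
-/

set_option autoImplicit false

namespace Pool.Agent.H56.CR

open Finset MvPolynomial
open Pool.Agent.H37.SM Pool.Agent.H22.T7 Pool.Agent.H56.ST

/-- The strong monodromy conjecture for `f`. -/
def Good {σ : Type} (f : MvPolynomial σ ℂ) : Prop :=
  (∀ c : ℂ, f ≠ C c) → ∀ Z : RatFunc ℂ, IsTopZeta f Z →
    ∀ b : Polynomial ℂ, FEq (MvPolynomial σ ℂ) f b → ∀ s : ℂ, Z.denom.IsRoot s → b.IsRoot s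

theorem nc_unit {σ : Type} (F : MvPolynomial σ ℂ) (hF : ∀ c : ℂ, F ≠ C c) : ¬ IsUnit F := by
  intro h
  rw [MvPolynomial.isUnit_iff_eq_C_of_isReduced] at h
  obtain ⟨r, -, hr⟩ := h
  exact hF r hr

theorem nc_zero {σ : Type} (F : MvPolynomial σ ℂ) (hF : ∀ c : ℂ, F ≠ C c) : F ≠ 0 := by
  intro h
  exact hF 0 (by rw [h, map_zero])

theorem nc_equiv {σ τ : Type} (φ : MvPolynomial σ ℂ ≃ₐ[ℂ] MvPolynomial τ ℂ)
    (F : MvPolynomial σ ℂ) (hF : ∀ c : ℂ, F ≠ C c) (c : ℂ) : φ F ≠ C c := by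
  intro h
  apply hF c
  apply φ.injective
  rw [h, ← MvPolynomial.algebraMap_eq, ← MvPolynomial.algebraMap_eq, φ.commutes]

theorem good_rename {σ τ : Type} (φ : σ ≃ τ) (f : MvPolynomial σ ℂ) (h : Good (rename φ f)) :
    Good f := by
  intro hf Z hZ b hb s hs
  refine h (nc_equiv (MvPolynomial.renameEquiv ℂ φ) f hf) Z (isTop_rename φ f Z hZ) b ?_ s hs
  exact aut (MvPolynomial.renameEquiv ℂ φ) f b hb

/-! ### The factor `y` -/

theorem fe_mulY {σ : Type} (f : MvPolynomial σ ℂ) (b : Polynomial ℂ)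
    (h : FEq (MvPolynomial σ ℂ) f b) :
    FEq (MvPolynomial (σ ⊕ Unit) ℂ) (mulY f) ((Polynomial.X + 1) * b) := by
  obtain ⟨B, hB, hBk⟩ := h
  obtain ⟨d, D, hD, hBD⟩ := (PF_iff B).1 hB
  choose D' hD' hD'2 using fun i => extP (β := Unit) (hD i)
  have h1 : (fun c : ℂ => ∑ i : Fin d, c ^ (i : ℕ) • D' i) ∈ PF (MvPolynomial (σ ⊕ Unit) ℂ) :=
    (PF_iff _).2 ⟨d, D', hD', fun c => rfl⟩
  refine ⟨(fun _ => (MvPolynomial.pderiv (R := ℂ) (Sum.inr () : σ ⊕ Unit)).toLinearMap) *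
    (fun c : ℂ => ∑ i : Fin d, c ^ (i : ℕ) • D' i),
    (PF _).mul_mem (const_mem (der_mem _)) h1, fun k => ?_⟩
  have h2 : (mulY f) ^ (k + 1) = rename Sum.inl (f ^ (k + 1)) *
      rename Sum.inr ((X () : MvPolynomial Unit ℂ) ^ (k + 1)) := by
    unfold mulY
    rw [map_pow, map_pow, rename_X, mul_pow, mul_comm]
  have h3 : (∑ i : Fin d, (k : ℂ) ^ (i : ℕ) • D' i) ((mulY f) ^ (k + 1)) =
      rename Sum.inl (B (k : ℂ) (f ^ (k + 1))) *
        rename Sum.inr ((X () : MvPolynomial Unit ℂ) ^ (k + 1)) := by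
    rw [h2, LinearMap.sum_apply, hBD, LinearMap.sum_apply, map_sum, Finset.sum_mul]
    refine Finset.sum_congr rfl fun i _ => ?_
    rw [LinearMap.smul_apply, LinearMap.smul_apply, hD'2, map_smul, smul_mul_assoc]
  rw [Pi.mul_apply, Module.End.mul_apply, h3, hBk, one_mul]
  change MvPolynomial.pderiv (R := ℂ) (Sum.inr () : σ ⊕ Unit) _ = _
  rw [Derivation.leibniz, pderiv_inr_inl, smul_zero, add_zero, map_pow, rename_X,
    Derivation.leibniz_pow, MvPolynomial.pderiv_X_self, one_mul, Polynomial.eval_mul,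
    Polynomial.eval_add, Polynomial.eval_X, Polynomial.eval_one]
  unfold mulY
  rw [map_smul, map_pow, mul_pow]
  simp only [Nat.add_sub_cancel, smul_eq_mul, mul_one, MvPolynomial.smul_eq_C_mul, nsmul_eq_mul,
    map_mul, map_add, map_one, map_natCast, Nat.cast_add, Nat.cast_one]
  ring

theorem mulY_nc {σ : Type} (f : MvPolynomial σ ℂ) (hf : ∀ c : ℂ, f ≠ C c) (c : ℂ) :
    mulY f ≠ C c := by
  intro h
  have h0 : c = 0 := by
    have h1 := congrArg (aeval (fun _ => 0 : σ ⊕ Unit → ℂ)) h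
    unfold mulY at h1
    rw [map_mul, aeval_X, zero_mul, MvPolynomial.algHom_C] at h1
    exact h1.symm
  rw [h0, map_zero] at h
  unfold mulY at h
  rcases mul_eq_zero.1 h with h1 | h1
  · exact MvPolynomial.X_ne_zero _ h1
  · exact nc_zero f hf (MvPolynomial.rename_injective _ Sum.inl_injective (h1.trans (map_zero _).symm))

theorem inv1_eq : inv1 = (RatFunc.X + 1)⁻¹ := by
  unfold inv1
  rw [Nat.cast_one, one_mul, one_div, add_comm]

theorem reg_inv1 (s : ℂ) (hs : s ≠ -1) : Reg s inv1 := by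
  unfold inv1
  rw [one_div]
  refine reg_inv_linear 1 1 ?_
  intro h
  apply hs
  push_cast at h
  linear_combination h

theorem reg_one (s : ℂ) : Reg s 1 := by
  have h := reg_natCast (s0 := s) 1
  rwa [Nat.cast_one] at h

theorem good_mulY {σ : Type} [Finite σ] (f : MvPolynomial σ ℂ) (h : Good (mulY f)) : Good f := by
  intro hf Z hZ b hb s hs
  have hdom : IsDomain (MvPolynomial σ ℂ) := NoZeroDivisors.to_isDomain _
  by_cases hs1 : s = -1
  · obtain ⟨B, hB, hBk⟩ := hb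
    have hq := qf f (nc_zero f hf) (nc_unit f hf) b hB (fun k => by rw [hBk k, one_mul])
    rw [hs1]
    exact hq.1
  · have h1 := h (mulY_nc f hf) _ (isTop_mulY f Z hZ) _ (fe_mulY f b hb) s (by
      by_contra hreg
      have h2 : Reg s (((1 - 1) + 1 * inv1) * Z) := hreg
      have h3 : Z = (RatFunc.X + 1) * (((1 - 1) + 1 * inv1) * Z) := by
        rw [sub_self, zero_add, one_mul, inv1_eq, ← mul_assoc, mul_inv_cancel₀ X_add_one_ne,
          one_mul]
      have h4 : Reg s Z := by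
        rw [h3]
        exact (reg_X.add (reg_one s)).mul h2
      exact h4 hs)
    rw [Polynomial.IsRoot, Polynomial.eval_mul, Polynomial.eval_add, Polynomial.eval_X,
      Polynomial.eval_one] at h1
    rcases mul_eq_zero.1 h1 with h2 | h2
    · exact absurd (by linear_combination h2) hs1
    · exact h2

/-! ### The step `f = g + p h ↦ g + u v - u h + p v` -/

/-- `u ↦ u + p`, `v ↦ v + h`. -/
noncomputable def trl {σ : Type} (p h : MvPolynomial σ ℂ) :
    MvPolynomial (σ ⊕ (Fin 1 ⊕ Fin 1)) ℂ →ₐ[ℂ] MvPolynomial (σ ⊕ (Fin 1 ⊕ Fin 1)) ℂ :=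
  aeval (Sum.elim (fun i => X (Sum.inl i)) (Sum.elim
    (fun _ => X (Sum.inr (Sum.inl 0)) + rename Sum.inl p)
    (fun _ => X (Sum.inr (Sum.inr 0)) + rename Sum.inl h)))

theorem trl_rename {σ : Type} (p h f : MvPolynomial σ ℂ) :
    trl p h (rename Sum.inl f) = rename Sum.inl f := by
  have h1 : (trl p h).comp (rename Sum.inl) = rename Sum.inl := by
    apply MvPolynomial.algHom_ext
    intro i
    rw [AlgHom.comp_apply, rename_X]
    unfold trl
    rw [aeval_X]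
    rfl
  exact AlgHom.congr_fun h1 f

theorem trl_u {σ : Type} (p h : MvPolynomial σ ℂ) (i : Fin 1) :
    trl p h (X (Sum.inr (Sum.inl i))) = X (Sum.inr (Sum.inl 0)) + rename Sum.inl p := by
  unfold trl
  rw [aeval_X]
  rfl

theorem trl_v {σ : Type} (p h : MvPolynomial σ ℂ) (i : Fin 1) :
    trl p h (X (Sum.inr (Sum.inr i))) = X (Sum.inr (Sum.inr 0)) + rename Sum.inl h := by
  unfold trl
  rw [aeval_X]
  rfl

theorem trl_comp {σ : Type} (p h : MvPolynomial σ ℂ) :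
    (trl (-p) (-h)).comp (trl p h) = AlgHom.id ℂ _ := by
  apply MvPolynomial.algHom_ext
  rintro (i | i | i)
  · rw [AlgHom.comp_apply]
    have h1 : (X (Sum.inl i) : MvPolynomial (σ ⊕ (Fin 1 ⊕ Fin 1)) ℂ) = rename Sum.inl (X i) := by
      rw [rename_X]
    rw [h1, trl_rename, trl_rename]
    rfl
  · rw [AlgHom.comp_apply, trl_u, map_add, trl_u, trl_rename, map_neg]
    have : i = 0 := Subsingleton.elim _ _
    subst this
    simp
  · rw [AlgHom.comp_apply, trl_v, map_add, trl_v, trl_rename, map_neg]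
    have : i = 0 := Subsingleton.elim _ _
    subst this
    simp

/-- `trl` as an isomorphism. -/
noncomputable def trlE {σ : Type} (p h : MvPolynomial σ ℂ) :
    MvPolynomial (σ ⊕ (Fin 1 ⊕ Fin 1)) ℂ ≃ₐ[ℂ] MvPolynomial (σ ⊕ (Fin 1 ⊕ Fin 1)) ℂ :=
  AlgEquiv.ofAlgHom (trl p h) (trl (-p) (-h)) (by
    have h1 := trl_comp (-p) (-h)
    rwa [neg_neg, neg_neg] at h1) (trl_comp p h)

/-- `f + u v`. -/
noncomputable def sus1 {σ : Type} (f : MvPolynomial σ ℂ) : MvPolynomial (σ ⊕ (Fin 1 ⊕ Fin 1)) ℂ :=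
  rename Sum.inl f + X (Sum.inr (Sum.inl 0)) * X (Sum.inr (Sum.inr 0))

theorem stepW_eq {σ : Type} (g p h : MvPolynomial σ ℂ) :
    stepW g p h = trlE p (-h) (sus1 (g + p * h)) := by
  change _ = trl p (-h) (sus1 (g + p * h))
  unfold sus1 stepW
  rw [map_add, map_mul, trl_rename, trl_u, trl_v, map_neg, map_add, map_mul]
  ring

theorem fe_sus1 {σ : Type} [Finite σ] (f : MvPolynomial σ ℂ) (hf : ∀ c : ℂ, f ≠ C c)
    (bt : Polynomial ℂ) (h : FEq (MvPolynomial σ ℂ) f ((Polynomial.X + 1) * bt)) :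
    FEq (MvPolynomial (σ ⊕ (Fin 1 ⊕ Fin 1)) ℂ) (sus1 f)
      ((Polynomial.X + 1) * bt.comp (Polynomial.X + Polynomial.C 1)) := by
  obtain ⟨n, ⟨e⟩⟩ := Finite.exists_equiv_fin σ
  have h1 := aut (MvPolynomial.renameEquiv ℂ e) f _ h
  have hF := nc_equiv (MvPolynomial.renameEquiv ℂ e) f hf
  have h2 := suspP _ (nc_zero _ hF) (nc_unit _ hF) 1 bt h1
  have h3 := aut (MvPolynomial.renameEquiv ℂ (Equiv.sumCongr e.symm (Equiv.refl (Fin 1 ⊕ Fin 1))))
    _ _ h2
  have h4 : (MvPolynomial.renameEquiv ℂ (Equiv.sumCongr e.symm (Equiv.refl (Fin 1 ⊕ Fin 1))))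
      (susP (MvPolynomial.renameEquiv ℂ e f) 1) = sus1 f := by
    have hc : ((Equiv.sumCongr e.symm (Equiv.refl (Fin 1 ⊕ Fin 1))) ∘ Sum.inl) ∘ e =
        (Sum.inl : σ → σ ⊕ (Fin 1 ⊕ Fin 1)) := by
      funext i
      simp
    unfold susP sus1
    rw [MvPolynomial.renameEquiv_apply, MvPolynomial.renameEquiv_apply, map_add,
      Fin.sum_univ_one, map_mul, rename_X, rename_X, rename_rename, rename_rename, hc]
    rfl
  rw [h4, Nat.cast_one] at h3
  exact h3

theorem sus1_nc {σ : Type} (f : MvPolynomial σ ℂ) (hf : ∀ c : ℂ, f ≠ C c) (c : ℂ) :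
    sus1 f ≠ C c := by
  intro h
  apply hf c
  have h1 := congrArg (aeval (Sum.elim X fun _ => 0) :
    MvPolynomial (σ ⊕ (Fin 1 ⊕ Fin 1)) ℂ →ₐ[ℂ] MvPolynomial σ ℂ) h
  unfold sus1 at h1
  rw [map_add, map_mul, aeval_X, aeval_X, aeval_rename, Sum.elim_comp_inl, aeval_X_left,
    AlgHom.id_apply, MvPolynomial.algHom_C] at h1
  simpa using h1

theorem stZ_reg (s : ℂ) (hs : s.re < 0) (hs1 : s ≠ -1) (Z : RatFunc ℂ)
    (h : Reg (s - 1) (stZ Z)) : Reg s Z := by
  have hs0 : s ≠ 0 := by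
    rintro rfl
    simp at hs
  have h1 : s ≠ 1 := by
    rintro rfl
    simp at hs
    linarith
  have hi : Reg (s - 1) inv1 := reg_inv1 _ (by
    intro h'
    apply hs0
    linear_combination h')
  have hX2 : Reg (s - 1) ((RatFunc.X)⁻¹) := by
    have h2 := reg_inv_linear (s0 := s - 1) 0 1 (by
      rw [Nat.cast_zero, Nat.cast_one, one_mul, zero_add]
      exact sub_ne_zero.2 h1)
    rwa [Nat.cast_zero, Nat.cast_one, one_mul, zero_add] at h2
  have hX3 : Reg (s - 1) ((2 + RatFunc.X)⁻¹) := by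
    have h2 := reg_inv_linear (s0 := s - 1) 2 1 (by
      intro h'
      apply hs1
      push_cast at h'
      linear_combination h')
    rwa [Nat.cast_one, one_mul, Nat.cast_ofNat] at h2
  have hne1 := X_add_one_ne
  have hne2 : (RatFunc.X : RatFunc ℂ) ≠ 0 := RatFunc.X_ne_zero
  have hne3 : (2 + RatFunc.X : RatFunc ℂ) ≠ 0 := by
    intro h'
    have h2 : (RatFunc.X : RatFunc ℂ) = algebraMap (Polynomial ℂ) (RatFunc ℂ) Polynomial.X :=
      RatFunc.algebraMap_X.symm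
    rw [h2, show (2 : RatFunc ℂ) = algebraMap (Polynomial ℂ) (RatFunc ℂ) 2 from
      (map_ofNat _ 2).symm, ← map_add] at h'
    have h3 := RatFunc.algebraMap_injective ℂ (h'.trans (map_zero _).symm)
    have h4 := congrArg (Polynomial.eval 0) h3
    simp at h4
  have key : sh 1 Z = (stZ Z - inv1 ^ 2) * ((RatFunc.X + 1) ^ 2 * ((RatFunc.X)⁻¹ *
      (2 + RatFunc.X)⁻¹)) := by
    unfold stZ
    rw [inv1_eq]
    field_simp
    ring
  have h2 : Reg (s - 1) (sh 1 Z) := by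
    rw [key]
    refine (h.sub ?_).mul (Reg.mul ?_ (hX2.mul hX3))
    · rw [pow_two]
      exact hi.mul hi
    · rw [pow_two]
      exact (reg_X.add (reg_one _)).mul (reg_X.add (reg_one _))
  have h3 := reg_of_sh 1 (s - 1) Z h2
  rwa [sub_add_cancel] at h3

theorem good_step {σ : Type} [Finite σ] (g p h : MvPolynomial σ ℂ)
    (hG : Good (stepW g p h)) : Good (g + p * h) := by
  intro hf Z hZ b hb s hs
  have hdom : IsDomain (MvPolynomial σ ℂ) := NoZeroDivisors.to_isDomain _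
  have hq : b.eval (-1) = 0 := by
    obtain ⟨B, hB, hBk⟩ := hb
    exact (qf _ (nc_zero _ hf) (nc_unit _ hf) b hB (fun k => by rw [hBk k, one_mul])).1
  by_cases hs1 : s = -1
  · rw [hs1]
    exact hq
  · have hre : s.re < 0 := by
      by_contra hre
      exact isTop_reg _ Z hZ s (not_lt.1 hre) hs
    obtain ⟨bt, hbt⟩ : ∃ bt : Polynomial ℂ, b = (Polynomial.X + 1) * bt := by
      have h1 : (Polynomial.X - Polynomial.C (-1 : ℂ)) ∣ b := Polynomial.dvd_iff_isRoot.2 hq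
      obtain ⟨bt, h2⟩ := h1
      refine ⟨bt, ?_⟩
      rw [h2]
      simp
    rw [hbt] at hb
    have h1 := fe_sus1 _ hf bt hb
    have h2 := aut (trlE p (-h)) _ _ h1
    rw [← stepW_eq] at h2
    have h3 : ∀ c : ℂ, stepW g p h ≠ C c := by
      intro c
      rw [stepW_eq]
      exact nc_equiv _ _ (sus1_nc _ hf) c
    have h4 := hG h3 (stZ Z) (isTop_step g p h Z hZ) _ h2 (s - 1) (by
      by_contra hreg
      exact stZ_reg s hre hs1 Z hreg hs)
    rw [Polynomial.IsRoot, Polynomial.eval_mul, Polynomial.eval_add, Polynomial.eval_X,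
      Polynomial.eval_one, Polynomial.eval_comp, Polynomial.eval_add, Polynomial.eval_X,
      Polynomial.eval_C, sub_add_cancel] at h4
    rw [hbt, Polynomial.IsRoot, Polynomial.eval_mul]
    rcases mul_eq_zero.1 h4 with h5 | h5
    · rw [h5] at hre
      simp at hre
    · rw [h5, mul_zero]

end Pool.Agent.H56.CR
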