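import Pool.Agent.H56.CR.LIM
import Pool.Agent.H56.CR.FINF

/-!
# TOP: the topological zeta function of `g + u v - u h + p v` and of `y f`
-/

set_option autoImplicit false

namespace Pool.Agent.H56.CR

open Finset MvPolynomial
open Pool.Agent.H37.SM Pool.Agent.H22.T7

theorem meas_map {σ A A' K : Type} [CommRing A] [CommRing A'] [Field K] (i : A →+* A')
    (ι : A' →+* K) (f : MvPolynomial σ A) (k : ℕ) :
    meas ι (MvPolynomial.map i f) k = meas (ι.comp i) f k := by
  unfold meas
  simp only [MvPolynomial.eval₂_map, RingHom.comp_assoc]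

theorem igusa_map {σ A A' K : Type} [CommRing A] [CommRing A'] [Field K] (i : A →+* A')
    (ι : A' →+* K) (f : MvPolynomial σ A) :
    igusa ι (MvPolynomial.map i f) = igusa (ι.comp i) f := by
  unfold igusa
  simp only [meas_map]

/-- The property in the definition of `IsTopZeta`. -/
def TopData {σ : Type} (A : Subring ℂ) (f0 : MvPolynomial σ A) (Z : RatFunc ℂ) : Prop :=
  ∀ (F : Type) [Field F] [Finite F] (ι : A →+* F)
      (K : ℕ → Type) [∀ e, Field (K e)] [∀ e, Algebra F (K e)],
      (∀ e, Nat.card (K e) = Nat.card F ^ (e + 1)) →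
      ((fun e => igusa ((algebraMap F (K e)).comp ι) f0, Z) :
        (ℕ → PowerSeries ℂ) × RatFunc ℂ) ∈ Lim (Nat.card F)

theorem TopData.incl {σ : Type} {A A' : Subring ℂ} (hle : A ≤ A') (f0 : MvPolynomial σ A)
    (Z : RatFunc ℂ) (h : TopData A f0 Z) :
    TopData A' (MvPolynomial.map (Subring.inclusion hle) f0) Z := by
  intro F _ _ ι K _ _ hK
  have h1 := h F (ι.comp (Subring.inclusion hle)) K hK
  have h2 : (fun e => igusa ((algebraMap F (K e)).comp ι)
      (MvPolynomial.map (Subring.inclusion hle) f0)) =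
      fun e => igusa ((algebraMap F (K e)).comp (ι.comp (Subring.inclusion hle))) f0 := by
    funext e
    rw [igusa_map, RingHom.comp_assoc]
  rw [h2]
  exact h1

theorem isTop_iff {σ : Type} (f : MvPolynomial σ ℂ) (Z : RatFunc ℂ) : IsTopZeta f Z ↔
    ∃ (S : Finset ℂ) (f0 : MvPolynomial σ (Subring.closure (S : Set ℂ))),
    MvPolynomial.map (Subring.subtype (Subring.closure (S : Set ℂ))) f0 = f ∧
    TopData (Subring.closure (S : Set ℂ)) f0 Z := Iff.rfl

theorem map_incl {σ : Type} {A A' : Subring ℂ} (hle : A ≤ A') (f0 : MvPolynomial σ A)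
    (f : MvPolynomial σ ℂ) (hf : MvPolynomial.map (Subring.subtype A) f0 = f) :
    MvPolynomial.map (Subring.subtype A') (MvPolynomial.map (Subring.inclusion hle) f0) = f := by
  rw [MvPolynomial.map_map]
  have h2 : (Subring.subtype A').comp (Subring.inclusion hle) = Subring.subtype A := by
    ext x
    rfl
  rw [h2]
  exact hf

theorem enlarge {σ : Type} (f : MvPolynomial σ ℂ) (Z : RatFunc ℂ) (h : IsTopZeta f Z)
    (T : Finset ℂ) : ∃ (S : Finset ℂ) (f0 : MvPolynomial σ (Subring.closure (S : Set ℂ))),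
    T ⊆ S ∧ MvPolynomial.map (Subring.subtype (Subring.closure (S : Set ℂ))) f0 = f ∧
    TopData (Subring.closure (S : Set ℂ)) f0 Z := by
  classical
  rw [isTop_iff] at h
  obtain ⟨S, f0, hf, hZ⟩ := h
  obtain ⟨S', hS1, hS2⟩ : ∃ S' : Finset ℂ, S ⊆ S' ∧ T ⊆ S' :=
    ⟨S ∪ T, Finset.subset_union_left, Finset.subset_union_right⟩
  have hle : Subring.closure (S : Set ℂ) ≤ Subring.closure (S' : Set ℂ) :=
    Subring.closure_mono (Finset.coe_subset.2 hS1)
  exact ⟨S', MvPolynomial.map (Subring.inclusion hle) f0, hS2, map_incl hle f0 f hf,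
    hZ.incl hle⟩

theorem exists_lift {σ : Type} (S : Finset ℂ) (g : MvPolynomial σ ℂ) (h : g.coeffs ⊆ S) :
    ∃ g0 : MvPolynomial σ (Subring.closure (S : Set ℂ)),
      MvPolynomial.map (Subring.subtype (Subring.closure (S : Set ℂ))) g0 = g := by
  have h1 : g ∈ Set.range (MvPolynomial.map (σ := σ)
      (Subring.subtype (Subring.closure (S : Set ℂ)))) := by
    rw [MvPolynomial.mem_range_map_iff_coeffs_subset]
    intro c hc
    exact ⟨⟨c, Subring.subset_closure (h hc)⟩, rfl⟩
  exact h1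

theorem card_pos_of {F : Type} [Finite F] [Nonempty F] (K : Type) (e : ℕ)
    (hK : Nat.card K = Nat.card F ^ (e + 1)) : Finite K := by
  apply Nat.finite_of_card_ne_zero
  rw [hK]
  exact pow_ne_zero _ Nat.card_pos.ne'

theorem isTop_step {σ : Type} [Finite σ] (g p h : MvPolynomial σ ℂ) (Z : RatFunc ℂ)
    (hT : IsTopZeta (g + p * h) Z) : IsTopZeta (stepW g p h) (stZ Z) := by
  classical
  obtain ⟨S, f0, hS, hf, hZ⟩ := enlarge _ Z hT (g.coeffs ∪ p.coeffs ∪ h.coeffs)
  obtain ⟨g0, hg⟩ := exists_lift S g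
    ((Finset.subset_union_left.trans Finset.subset_union_left).trans hS)
  obtain ⟨p0, hp⟩ := exists_lift S p
    ((Finset.subset_union_right.trans Finset.subset_union_left).trans hS)
  obtain ⟨h0, hh⟩ := exists_lift S h (Finset.subset_union_right.trans hS)
  have hinj : Function.Injective (MvPolynomial.map (σ := σ)
      (Subring.subtype (Subring.closure (S : Set ℂ)))) :=
    MvPolynomial.map_injective _ Subtype.val_injective
  have hf0 : f0 = g0 + p0 * h0 := by
    apply hinj
    rw [hf, map_add, map_mul, hg, hp, hh]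
  refine ⟨S, stepW g0 p0 h0, ?_, ?_⟩
  · unfold stepW
    simp only [map_add, map_sub, map_mul, MvPolynomial.map_X, MvPolynomial.map_rename, hg, hp, hh]
  · intro F _ _ ι K _ _ hK
    have h1 := lim_st (q := Nat.card F) Nat.card_pos _ _ (hZ F ι K hK)
    refine (congrArg (· ∈ Lim (Nat.card F)) ?_).mp h1
    refine Prod.ext ?_ rfl
    funext e
    dsimp only
    have hfin : Finite (K e) := card_pos_of (F := F) (K e) e (hK e)
    have hq : (Nat.card (K e) : ℂ) = (Nat.card F : ℂ) ^ (e + 1) := by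
      rw [hK e]
      push_cast
      rfl
    have hq0 : (Nat.card (K e) : ℂ) ≠ 0 := by exact_mod_cast Nat.card_pos.ne'
    rw [← hq, hf0]
    unfold igusa
    simp only [meas_stepW]
    exact (stab_id (Nat.card (K e) : ℂ) hq0 _ (meas_zero _ _)).symm

theorem isTop_mulY {σ : Type} [Finite σ] (f : MvPolynomial σ ℂ) (Z : RatFunc ℂ)
    (hT : IsTopZeta f Z) : IsTopZeta (mulY f) (((1 - 1) + 1 * inv1) * Z) := by
  classical
  obtain ⟨S, f0, hf, hZ⟩ := hT
  refine ⟨S, mulY f0, ?_, ?_⟩
  · unfold mulY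
    simp only [map_mul, MvPolynomial.map_X, MvPolynomial.map_rename, hf]
  · intro F _ _ ι K _ _ hK
    have h1 := lim_mulY (q := Nat.card F) Nat.card_pos _ _ (hZ F ι K hK)
    refine (congrArg (· ∈ Lim (Nat.card F)) ?_).mp h1
    refine Prod.ext ?_ rfl
    funext e
    dsimp only
    have hfin : Finite (K e) := card_pos_of (F := F) (K e) e (hK e)
    have hq : (Nat.card (K e) : ℂ) = (Nat.card F : ℂ) ^ (e + 1) := by
      rw [hK e]
      push_cast
      rfl
    have hq0 : (Nat.card (K e) : ℂ) ≠ 0 := by exact_mod_cast Nat.card_pos.ne'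
    rw [← hq]
    unfold igusa
    simp only [meas_mulY]
    exact (mulY_id (Nat.card (K e) : ℂ) hq0 _ (meas_zero _ _)).symm

theorem isTop_rename {σ τ : Type} (φ : σ ≃ τ) (f : MvPolynomial σ ℂ) (Z : RatFunc ℂ)
    (hT : IsTopZeta f Z) : IsTopZeta (rename φ f) Z := by
  obtain ⟨S, f0, hf, hZ⟩ := hT
  refine ⟨S, rename φ f0, ?_, ?_⟩
  · rw [MvPolynomial.map_rename, hf]
  · intro F _ _ ι K _ _ hK
    have h1 := hZ F ι K hK
    unfold igusa at h1 ⊢
    simp only [meas_rename]
    exact h1

/-- The poles of the topological zeta function have negative real part. -/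
theorem isTop_reg {σ : Type} (f : MvPolynomial σ ℂ) (Z : RatFunc ℂ) (hT : IsTopZeta f Z)
    (s : ℂ) (hs : 0 ≤ s.re) : Reg s Z := by
  obtain ⟨S, f0, -, hZ⟩ := hT
  obtain ⟨F, hF1, hF2, ⟨ι⟩⟩ := exists_hom S
  obtain ⟨p, hp⟩ := CharP.exists F
  have hpp : Fact p.Prime := ⟨CharP.char_is_prime F p⟩
  have h1 := hZ F ι (fun e => FiniteField.Extension F p (e + 1))
    (fun e => FiniteField.natCard_extension F p (e + 1))
  exact lim_reg _ h1 s hs

end Pool.Agent.H56.CR
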