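import Pool.Agent.H56.CR.PRM

/-!
# TRF: functional equations and ring homomorphisms
-/

set_option autoImplicit false

namespace Pool.Agent.H56.CR

open Finset MvPolynomial

section generic

variable {R R' : Type} [CommRing R] [CommRing R'] {n : ℕ}

/-- `∂^β`. -/
noncomputable def dpR (R : Type) [CommRing R] {n : ℕ} (β : Fin n →₀ ℕ) :
    MvPolynomial (Fin n) R →ₗ[R] MvPolynomial (Fin n) R :=
  ((List.finRange n).map fun j =>
    ((pderiv j : Derivation R (MvPolynomial (Fin n) R) (MvPolynomial (Fin n) R)).toLinearMap)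
      ^ (β j)).prod

theorem pderiv_pow_map (φ : R →+* R') (j : Fin n) (m : ℕ) (g : MvPolynomial (Fin n) R) :
    MvPolynomial.map φ ((((pderiv j : Derivation R (MvPolynomial (Fin n) R)
      (MvPolynomial (Fin n) R)).toLinearMap) ^ m) g) =
    (((pderiv j : Derivation R' (MvPolynomial (Fin n) R')
      (MvPolynomial (Fin n) R')).toLinearMap) ^ m) (MvPolynomial.map φ g) := by
  induction m generalizing g with
  | zero => rfl
  | succ m ih =>
    rw [pow_succ, pow_succ, Module.End.mul_apply, Module.End.mul_apply, ih]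
    congr 1
    exact (MvPolynomial.pderiv_map).symm

theorem dpR_map (φ : R →+* R') (β : Fin n →₀ ℕ) (g : MvPolynomial (Fin n) R) :
    MvPolynomial.map φ (dpR R β g) = dpR R' β (MvPolynomial.map φ g) := by
  unfold dpR
  generalize List.finRange n = l
  induction l generalizing g with
  | nil => rfl
  | cons j l ih =>
    rw [List.map_cons, List.map_cons, List.prod_cons, List.prod_cons, Module.End.mul_apply,
      Module.End.mul_apply, pderiv_pow_map, ih]

/-- `P(c) g`. -/
noncomputable def actR (P : (Fin n →₀ ℕ) →₀ MvPolynomial (Fin n) (Polynomial R)) (c : R)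
    (g : MvPolynomial (Fin n) R) : MvPolynomial (Fin n) R :=
  P.sum fun β p => MvPolynomial.map (Polynomial.evalRingHom c) p * dpR R β g

/-- The functional equation over `R`. -/
def FER (f : MvPolynomial (Fin n) R) (b : Polynomial R)
    (P : (Fin n →₀ ℕ) →₀ MvPolynomial (Fin n) (Polynomial R)) : Prop :=
  ∀ k : ℕ, actR P (k : R) (f ^ (k + 1)) = C (b.eval (k : R)) * f ^ k

/-- The image of an operator. -/
noncomputable def mapW (φ : R →+* R') (P : (Fin n →₀ ℕ) →₀ MvPolynomial (Fin n) (Polynomial R)) :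
    (Fin n →₀ ℕ) →₀ MvPolynomial (Fin n) (Polynomial R') :=
  P.mapRange (MvPolynomial.map (Polynomial.mapRingHom φ)) (map_zero _)

theorem actR_map (φ : R →+* R') (P : (Fin n →₀ ℕ) →₀ MvPolynomial (Fin n) (Polynomial R)) (k : ℕ)
    (g : MvPolynomial (Fin n) R) :
    MvPolynomial.map φ (actR P (k : R) g) = actR (mapW φ P) (k : R') (MvPolynomial.map φ g) := by
  unfold actR mapW
  rw [Finsupp.sum_mapRange_index (fun β => by rw [map_zero, zero_mul]), Finsupp.sum, Finsupp.sum,
    map_sum]
  refine sum_congr rfl fun β _ => ?_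
  rw [map_mul, dpR_map, MvPolynomial.map_map, MvPolynomial.map_map]
  congr 3
  apply Polynomial.ringHom_ext
  · intro a
    simp
  · simp

theorem FER_map (φ : R →+* R') (f : MvPolynomial (Fin n) R) (b : Polynomial R)
    (P : (Fin n →₀ ℕ) →₀ MvPolynomial (Fin n) (Polynomial R)) (h : FER f b P) :
    FER (MvPolynomial.map φ f) (b.map φ) (mapW φ P) := by
  intro k
  have h1 := congrArg (MvPolynomial.map φ) (h k)
  rw [actR_map, map_pow, map_mul, map_pow, MvPolynomial.map_C] at h1
  rw [h1]
  congr 2
  rw [Polynomial.eval_natCast_map]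

theorem FER_of_map (φ : R →+* R') (hφ : Function.Injective φ) (f : MvPolynomial (Fin n) R)
    (b : Polynomial R) (P : (Fin n →₀ ℕ) →₀ MvPolynomial (Fin n) (Polynomial R))
    (h : FER (MvPolynomial.map φ f) (b.map φ) (mapW φ P)) : FER f b P := by
  intro k
  apply MvPolynomial.map_injective φ hφ
  have h1 := h k
  rw [actR_map, map_pow, h1, map_mul, map_pow, MvPolynomial.map_C]
  congr 2
  rw [Polynomial.eval_natCast_map]

end generic

theorem fer_iff {n : ℕ} (f : MvPolynomial (Fin n) ℂ) (b : Polynomial ℂ) (P : H22.WeylS n) :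
    H22.FunctionalEquation f b P ↔ FER f b P := Iff.rfl

theorem lift_poly (S : Finset ℂ) (p : Polynomial ℂ) (h : p.coeffs ⊆ S) :
    ∃ q : Polynomial (Subring.closure (S : Set ℂ)),
      q.map (Subring.subtype (Subring.closure (S : Set ℂ))) = p := by
  have h1 : p ∈ Polynomial.lifts (Subring.subtype (Subring.closure (S : Set ℂ))) := by
    rw [Polynomial.lifts_iff_coeff_lifts]
    intro k
    by_cases hk : p.coeff k = 0
    · exact ⟨0, by rw [hk, map_zero]⟩
    · exact ⟨⟨p.coeff k, Subring.subset_closure (h (Polynomial.coeff_mem_coeffs hk))⟩, rfl⟩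
  exact h1

theorem transfer {n : ℕ} (f : MvPolynomial (Fin n) ℂ) (b : Polynomial ℂ) (P : H22.WeylS n)
    (hP : H22.FunctionalEquation f b P) : ∃ T : Finset ℂ, ∀ S : Finset ℂ, T ⊆ S →
      ∃ (f0 : MvPolynomial (Fin n) (Subring.closure (S : Set ℂ)))
        (b0 : Polynomial (Subring.closure (S : Set ℂ))),
        MvPolynomial.map (Subring.subtype (Subring.closure (S : Set ℂ))) f0 = f ∧
        b0.map (Subring.subtype (Subring.closure (S : Set ℂ))) = b ∧
        ∀ φ : Subring.closure (S : Set ℂ) →+* ℂ, ∃ P' : H22.WeylS n,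
          H22.FunctionalEquation (MvPolynomial.map φ f0) (b0.map φ) P' := by
  classical
  refine ⟨f.coeffs ∪ b.coeffs ∪ P.support.biUnion fun β => (P β).support.biUnion fun ρ =>
    ((P β).coeff ρ).coeffs, fun S hS => ?_⟩
  obtain ⟨f0, hf0⟩ := exists_lift S f
    ((Finset.subset_union_left.trans Finset.subset_union_left).trans hS)
  obtain ⟨b0, hb0⟩ := lift_poly S b
    ((Finset.subset_union_right.trans Finset.subset_union_left).trans hS)
  refine ⟨f0, b0, hf0, hb0, ?_⟩
  have hPS : ∀ β ρ, ((P β).coeff ρ).coeffs ⊆ S := by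
    intro β ρ
    by_cases h1 : (P β).coeff ρ = 0
    · rw [h1, Polynomial.coeffs_zero]
      exact Finset.empty_subset _
    have h2 : ρ ∈ (P β).support := MvPolynomial.mem_support_iff.2 h1
    have h3 : β ∈ P.support := by
      rw [Finsupp.mem_support_iff]
      rintro h4
      rw [h4] at h1
      exact h1 (MvPolynomial.coeff_zero _)
    refine Finset.Subset.trans ?_ (Finset.subset_union_right.trans hS)
    exact (Finset.subset_biUnion_of_mem (fun ρ => ((P β).coeff ρ).coeffs) h2).trans
      (Finset.subset_biUnion_of_mem (fun β => (P β).support.biUnion fun ρ =>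
        ((P β).coeff ρ).coeffs) h3)
  set σ := Subring.subtype (Subring.closure (S : Set ℂ)) with hσ
  have hσi : Function.Injective σ := Subtype.val_injective
  have hex : ∀ β, ∃ p0 : MvPolynomial (Fin n) (Polynomial (Subring.closure (S : Set ℂ))),
      MvPolynomial.map (Polynomial.mapRingHom σ) p0 = P β := by
    intro β
    have h1 : P β ∈ Set.range (MvPolynomial.map (σ := Fin n) (Polynomial.mapRingHom σ)) := by
      rw [MvPolynomial.mem_range_map_iff_coeffs_subset]
      intro c hc
      obtain ⟨ρ, hρ⟩ : ∃ ρ, c = (P β).coeff ρ := by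
        have h2 : c ∈ (P β).coeffs := hc
        rw [MvPolynomial.mem_coeffs_iff] at h2
        obtain ⟨ρ, -, h3⟩ := h2
        exact ⟨ρ, h3⟩
      rw [hρ]
      obtain ⟨q, hq⟩ := lift_poly S _ (hPS β ρ)
      exact ⟨q, hq⟩
    exact h1
  choose p0 hp0 using hex
  have hmi : Function.Injective (MvPolynomial.map (σ := Fin n) (Polynomial.mapRingHom σ)) :=
    MvPolynomial.map_injective _ (Polynomial.map_injective σ hσi)
  let P0 : (Fin n →₀ ℕ) →₀ MvPolynomial (Fin n) (Polynomial (Subring.closure (S : Set ℂ))) :=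
    Finsupp.onFinset P.support p0 (by
      intro β hβ
      rw [Finsupp.mem_support_iff]
      intro h
      apply hβ
      apply hmi
      rw [hp0, h, map_zero])
  have hP0 : mapW σ P0 = P := by
    ext1 β
    change MvPolynomial.map (Polynomial.mapRingHom σ) (p0 β) = P β
    exact hp0 β
  have h1 : FER f0 b0 P0 := by
    apply FER_of_map σ hσi
    rw [hP0, hf0, hb0]
    exact hP
  intro φ
  exact ⟨mapW φ P0, FER_map φ f0 b0 P0 h1⟩

end Pool.Agent.H56.CR
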