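import Pool.Agent.H56.CR.TOP

/-!
# UNI: the topological zeta function is unique
-/

set_option autoImplicit false

namespace Pool.Agent.H56.CR

open Finset Filter Topology
open Pool.Agent.H37.SM Pool.Agent.H22.T7

/-- Finite sums of `[μ] T^k`. -/
abbrev GA : Type := MonoidAlgebra ℂ (ℂˣ × Multiplicative ℕ)

/-- `[μ] T^k ↦ μ^{e+1} T^k`. -/
noncomputable def evH (e : ℕ) : ℂˣ × Multiplicative ℕ →* PowerSeries ℂ where
  toFun z := PowerSeries.C ((z.1 : ℂ) ^ (e + 1)) * PowerSeries.X ^ (Multiplicative.toAdd z.2)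
  map_one' := by simp
  map_mul' z w := by
    rw [Prod.fst_mul, Prod.snd_mul, Units.val_mul, mul_pow, map_mul, toAdd_mul, pow_add]
    ring

/-- The evaluation at `e`. -/
noncomputable def evS (e : ℕ) : GA →ₐ[ℂ] PowerSeries ℂ := MonoidAlgebra.lift ℂ _ _ (evH e)

/-- `[μ] T^k ↦ |μ|^x q^{-mkx}`. -/
noncomputable def evK (q m : ℕ) (x : ℝ) : ℂˣ × Multiplicative ℕ →* ℂ where
  toFun z := ((‖(z.1 : ℂ)‖ ^ x * ((q : ℝ) ^ (-(m * x))) ^ (Multiplicative.toAdd z.2) : ℝ) : ℂ)
  map_one' := by simp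
  map_mul' z w := by
    rw [← Complex.ofReal_mul, Prod.fst_mul, Prod.snd_mul, Units.val_mul, norm_mul,
      Real.mul_rpow (norm_nonneg _) (norm_nonneg _), toAdd_mul, pow_add]
    congr 1
    ring

/-- The evaluation at the real number `x`. -/
noncomputable def evR (q m : ℕ) (x : ℝ) : GA →ₐ[ℂ] ℂ := MonoidAlgebra.lift ℂ _ _ (evK q m x)

theorem evS_single (e : ℕ) (z : ℂˣ × Multiplicative ℕ) (c : ℂ) :
    evS e (MonoidAlgebra.single z c) = c • evH e z := MonoidAlgebra.lift_single _ _ _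

theorem evR_single (q m : ℕ) (x : ℝ) (z : ℂˣ × Multiplicative ℕ) (c : ℂ) :
    evR q m x (MonoidAlgebra.single z c) = c • evK q m x z := MonoidAlgebra.lift_single _ _ _

theorem inj_fun : Function.Injective (fun μ : ℂˣ =>
    ({ toFun := fun k => (μ : ℂ) ^ (Multiplicative.toAdd k), map_one' := by simp,
       map_mul' := fun a b => by rw [toAdd_mul, pow_add] } : Multiplicative ℕ →* ℂ)) := by
  intro μ μ' h
  have h1 := DFunLike.congr_fun h (Multiplicative.ofAdd 1)
  simp only [MonoidHom.coe_mk, OneHom.coe_mk, toAdd_ofAdd, pow_one] at h1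
  exact Units.ext h1

theorem lin_ind (s : Finset ℂˣ) (c : ℂˣ → ℂ)
    (h : ∀ e : ℕ, ∑ μ ∈ s, c μ * (μ : ℂ) ^ (e + 1) = 0) : ∀ μ ∈ s, c μ = 0 := by
  have h1 := (linearIndependent_monoidHom (Multiplicative ℕ) ℂ).comp _ inj_fun
  rw [linearIndependent_iff'] at h1
  intro μ hμ
  have h2 := h1 s (fun μ => c μ * μ) (by
    funext e
    rw [Finset.sum_apply, Pi.zero_apply, ← h (Multiplicative.toAdd e)]
    refine sum_congr rfl fun μ _ => ?_
    change (c μ * μ) * (μ : ℂ) ^ (Multiplicative.toAdd e) = _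
    ring) μ hμ
  exact (mul_eq_zero.1 h2).resolve_right μ.ne_zero

theorem evS_inj (N : GA) (h : ∀ e, evS e N = 0) : N = 0 := by
  classical
  have hc : N.coeff = 0 := by
    ext ⟨μ0, k0⟩
    rw [Finsupp.coe_zero, Pi.zero_apply]
    by_contra hne
    set s : Finset ℂˣ := N.coeff.support.image Prod.fst with hs
    have hμ : μ0 ∈ s := Finset.mem_image.2 ⟨(μ0, k0), Finsupp.mem_support_iff.2 hne, rfl⟩
    apply hne
    refine lin_ind s (fun μ => N.coeff (μ, k0)) (fun e => ?_) μ0 hμ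
    have h1 := congrArg (PowerSeries.coeff (Multiplicative.toAdd k0)) (h e)
    unfold evS at h1
    rw [MonoidAlgebra.lift_apply, Finsupp.sum, map_sum, map_zero] at h1
    have h2 : ∀ z ∈ N.coeff.support, PowerSeries.coeff (Multiplicative.toAdd k0)
        (N.coeff z • evH e z) = if z.2 = k0 then N.coeff z * (z.1 : ℂ) ^ (e + 1) else 0 := by
      intro z _
      rw [PowerSeries.coeff_smul]
      unfold evH
      simp only [MonoidHom.coe_mk, OneHom.coe_mk]
      rw [PowerSeries.coeff_C_mul, PowerSeries.coeff_X_pow]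
      by_cases hz : z.2 = k0
      · rw [if_pos (by rw [hz]), if_pos hz, mul_one, smul_eq_mul]
      · rw [if_neg (fun h' => hz (Multiplicative.toAdd.injective h'.symm)), if_neg hz, mul_zero,
          smul_zero]
    rw [sum_congr rfl h2, ← sum_filter] at h1
    rw [← h1]
    -- sum over the filtered support
    symm
    have h3 : ∑ μ ∈ s, N.coeff (μ, k0) * (μ : ℂ) ^ (e + 1) =
        ∑ μ ∈ s.filter (fun μ => N.coeff (μ, k0) ≠ 0), N.coeff (μ, k0) * (μ : ℂ) ^ (e + 1) := by
      rw [sum_filter]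
      refine sum_congr rfl fun μ _ => ?_
      split_ifs with h4
      · rfl
      · rw [not_not.1 h4, zero_mul]
    rw [h3]
    refine Finset.sum_bij' (fun z _ => z.1) (fun μ _ => (μ, k0)) ?_ ?_ ?_ ?_ ?_
    · intro z hz
      rw [mem_filter] at hz ⊢
      refine ⟨Finset.mem_image.2 ⟨z, hz.1, rfl⟩, ?_⟩
      have h4 := Finsupp.mem_support_iff.1 hz.1
      have h5 : (z.1, k0) = z := Prod.ext rfl hz.2.symm
      rw [h5]
      exact h4
    · intro μ hμ'
      rw [mem_filter] at hμ' ⊢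
      exact ⟨Finsupp.mem_support_iff.2 hμ'.2, rfl⟩
    · intro z hz
      rw [mem_filter] at hz
      exact Prod.ext rfl hz.2.symm
    · intro μ _
      rfl
    · intro z hz
      rw [mem_filter] at hz
      have h5 : (z.1, k0) = z := Prod.ext rfl hz.2.symm
      rw [h5]
  have h1 : N = MonoidAlgebra.ofCoeff N.coeff := rfl
  rw [h1, hc]
  rfl

/-- The property of the elements of `Lim q`. -/
def QP (q : ℕ) (z : (ℕ → PowerSeries ℂ) × RatFunc ℂ) : Prop :=
  (∀ m : ℕ, Reg (m : ℂ) z.2) ∧ ∃ N D : GA, (∀ e, evS e D * z.1 e = evS e N) ∧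
    (∀ (m : ℕ) (x : ℝ), 0 < x → evR q m x D ≠ 0) ∧
    ∀ m : ℕ, Tendsto (fun x : ℝ => evR q m x N / evR q m x D) (𝓝[>] 0)
      (𝓝 (RatFunc.eval (RingHom.id ℂ) (m : ℂ) z.2))

theorem qp_add {q : ℕ} (z w : (ℕ → PowerSeries ℂ) × RatFunc ℂ) (hz : QP q z) (hw : QP q w) :
    QP q (z + w) := by
  obtain ⟨hr1, N1, D1, h1, h2, h3⟩ := hz
  obtain ⟨hr2, N2, D2, h4, h5, h6⟩ := hw
  refine ⟨fun m => (hr1 m).add (hr2 m), N1 * D2 + N2 * D1, D1 * D2, fun e => ?_,
    fun m x hx => ?_, fun m => ?_⟩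
  · rw [map_mul, map_add, map_mul, map_mul, ← h1, ← h4, Prod.fst_add, Pi.add_apply]
    ring
  · rw [map_mul]
    exact mul_ne_zero (h2 m x hx) (h5 m x hx)
  · rw [Prod.snd_add, RatFunc.eval_add _ _ (hr1 m) (hr2 m)]
    refine ((h3 m).add (h6 m)).congr' ?_
    filter_upwards [self_mem_nhdsWithin] with x hx
    have e1 := h2 m x hx
    have e2 := h5 m x hx
    rw [map_mul, map_add, map_mul, map_mul]
    field_simp

theorem qp_mul {q : ℕ} (z w : (ℕ → PowerSeries ℂ) × RatFunc ℂ) (hz : QP q z) (hw : QP q w) :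
    QP q (z * w) := by
  obtain ⟨hr1, N1, D1, h1, h2, h3⟩ := hz
  obtain ⟨hr2, N2, D2, h4, h5, h6⟩ := hw
  refine ⟨fun m => (hr1 m).mul (hr2 m), N1 * N2, D1 * D2, fun e => ?_,
    fun m x hx => ?_, fun m => ?_⟩
  · rw [map_mul, map_mul, ← h1, ← h4, Prod.fst_mul, Pi.mul_apply]
    ring
  · rw [map_mul]
    exact mul_ne_zero (h2 m x hx) (h5 m x hx)
  · rw [Prod.snd_mul, RatFunc.eval_mul _ _ (hr1 m) (hr2 m)]
    refine ((h3 m).mul (h6 m)).congr' ?_
    filter_upwards [self_mem_nhdsWithin] with x hx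
    have e1 := h2 m x hx
    have e2 := h5 m x hx
    rw [map_mul, map_mul]
    field_simp

theorem qp_alg {q : ℕ} (c : ℂ) :
    QP q (algebraMap ℂ ((ℕ → PowerSeries ℂ) × RatFunc ℂ) c) := by
  refine ⟨fun m => reg_C _ c, algebraMap ℂ GA c, 1, fun e => ?_, fun m x hx => ?_, fun m => ?_⟩
  · rw [map_one, one_mul, AlgHom.commutes]
    rfl
  · rw [map_one]
    exact one_ne_zero
  · have h1 : RatFunc.eval (RingHom.id ℂ) (m : ℂ)
        (algebraMap ℂ ((ℕ → PowerSeries ℂ) × RatFunc ℂ) c).2 = c :=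
      RatFunc.eval_C _ _
    rw [h1]
    have h2 : (fun x : ℝ => evR q m x (algebraMap ℂ GA c) / evR q m x 1) = fun _ => c := by
      funext x
      rw [map_one, AlgHom.commutes, div_one]
      rfl
    rw [h2]
    exact tendsto_const_nhds

theorem qp_lam {q : ℕ} (l : ℂ) (hl : l ≠ 0) :
    QP q ((fun e => PowerSeries.C (l ^ (e + 1)), 1) : (ℕ → PowerSeries ℂ) × RatFunc ℂ) := by
  refine ⟨fun m => ?_, MonoidAlgebra.single (Units.mk0 l hl, 1) 1, 1, fun e => ?_,
    fun m x hx => ?_, fun m => ?_⟩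
  · have h := reg_natCast (s0 := (m : ℂ)) 1
    rwa [Nat.cast_one] at h
  · rw [map_one, one_mul, evS_single, one_smul]
    unfold evH
    simp
  · rw [map_one]
    exact one_ne_zero
  · dsimp only
    rw [RatFunc.eval_one]
    have h2 : (fun x : ℝ => evR q m x (MonoidAlgebra.single (Units.mk0 l hl, 1) 1) /
        evR q m x 1) = fun x => ((‖l‖ ^ x : ℝ) : ℂ) := by
      funext x
      rw [map_one, evR_single, one_smul, div_one]
      unfold evK
      simp
    rw [h2]
    have h3 : Tendsto (fun x : ℝ => ‖l‖ ^ x) (𝓝 0) (𝓝 (‖l‖ ^ (0 : ℝ))) :=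
      (Real.continuousAt_const_rpow (norm_ne_zero_iff.2 hl)).tendsto
    rw [Real.rpow_zero] at h3
    have h4 := (Complex.continuous_ofReal.tendsto 1).comp
      (h3.mono_left (nhdsWithin_le_nhds (s := Set.Ioi (0 : ℝ))))
    rw [Complex.ofReal_one] at h4
    exact h4

theorem slope_exp (c : ℝ) : Tendsto (fun x : ℝ => (Real.exp (c * x) - 1) / x) (𝓝[>] 0) (𝓝 c) := by
  have h1 : HasDerivAt (fun x : ℝ => Real.exp (c * x)) (Real.exp (c * 0) * (c * 1)) 0 :=
    ((hasDerivAt_id (0 : ℝ)).const_mul c).exp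
  have h2 := h1.tendsto_slope
  have h3 : 𝓝[>] (0 : ℝ) ≤ 𝓝[≠] (0 : ℝ) :=
    nhdsWithin_mono _ fun x (hx : 0 < x) => hx.ne'
  have h4 := h2.mono_left h3
  rw [mul_zero, Real.exp_zero, one_mul, mul_one] at h4
  refine h4.congr fun x => ?_
  rw [slope_def_field, mul_zero, Real.exp_zero, sub_zero]

theorem lim_quot (L a : ℝ) (hL : 0 < L) (ha : 0 < a) :
    Tendsto (fun x : ℝ => (Real.exp (L * x) - 1) * Real.exp (-(a * L) * x) /
      (1 - Real.exp (-(a * L) * x))) (𝓝[>] 0) (𝓝 (1 / a)) := by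
  have h1 := slope_exp L
  have h2 := slope_exp (-(a * L))
  have h3 : Tendsto (fun x : ℝ => Real.exp (-(a * L) * x)) (𝓝[>] 0) (𝓝 1) := by
    have h4 : Continuous (fun x : ℝ => Real.exp (-(a * L) * x)) := by fun_prop
    have h5 := h4.tendsto 0
    rw [mul_zero, Real.exp_zero] at h5
    exact h5.mono_left nhdsWithin_le_nhds
  have h4 := (h1.mul h3).div h2.neg (by
    rw [neg_neg]
    exact (mul_pos ha hL).ne')
  have h5 : L * 1 / -(-(a * L)) = 1 / a := by
    field_simp
  rw [h5] at h4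
  refine h4.congr' ?_
  filter_upwards [self_mem_nhdsWithin] with x hx
  have hx0 : x ≠ 0 := ne_of_gt hx
  have h6 : 1 - Real.exp (-(a * L) * x) ≠ 0 := by
    have h7 : Real.exp (-(a * L) * x) < 1 := by
      rw [Real.exp_lt_one_iff]
      have : 0 < a * L * x := mul_pos (mul_pos ha hL) hx
      linarith
    linarith
  have h8 : Real.exp (-(a * L) * x) - 1 ≠ 0 := by
    intro h9
    apply h6
    linarith
  simp only [Pi.div_apply]
  rw [div_eq_div_iff (neg_ne_zero.2 (div_ne_zero h8 hx0)) h6]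
  field_simp
  ring

theorem qp_geo {q : ℕ} (hq : 2 ≤ q) (N ν : ℕ) (hN : 0 < N) (hν : 0 < ν) :
    QP q ((fun e => geo ((q : ℂ) ^ (e + 1)) N ν,
      1 / ((ν : RatFunc ℂ) + (N : RatFunc ℂ) * RatFunc.X)) :
      (ℕ → PowerSeries ℂ) × RatFunc ℂ) := by
  have hq0 : (q : ℂ) ≠ 0 := by
    have : q ≠ 0 := by omega
    exact_mod_cast this
  have hqR : (0 : ℝ) < q := by
    have : 0 < q := by omega
    exact_mod_cast this
  have hq1 : (1 : ℝ) < q := by
    have : 1 < q := by omega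
    exact_mod_cast this
  have hL : 0 < Real.log q := Real.log_pos hq1
  obtain ⟨v, hv⟩ : ∃ v : GA, v = MonoidAlgebra.single (Units.mk0 (q : ℂ) hq0, 1) 1 := ⟨_, rfl⟩
  obtain ⟨w, hw⟩ : ∃ w : GA, w = MonoidAlgebra.single
    (((Units.mk0 (q : ℂ) hq0) ^ ν)⁻¹, Multiplicative.ofAdd N) 1 := ⟨_, rfl⟩
  have hvS : ∀ e, evS e v = PowerSeries.C ((q : ℂ) ^ (e + 1)) := by
    intro e
    rw [hv, evS_single, one_smul]
    unfold evH
    simp
  have hwS : ∀ e, evS e w = PowerSeries.C ((((q : ℂ) ^ (e + 1)) ^ ν)⁻¹) * PowerSeries.X ^ N := by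
    intro e
    rw [hw, evS_single, one_smul]
    unfold evH
    simp only [MonoidHom.coe_mk, OneHom.coe_mk, toAdd_ofAdd]
    rw [Units.val_inv_eq_inv_val, Units.val_pow_eq_pow_val, Units.val_mk0, inv_pow, ← pow_mul,
      ← pow_mul, mul_comm ν]
  have hvR : ∀ (m : ℕ) (x : ℝ), evR q m x v = ((Real.exp (Real.log q * x) : ℝ) : ℂ) := by
    intro m x
    rw [hv, evR_single, one_smul]
    unfold evK
    simp only [MonoidHom.coe_mk, OneHom.coe_mk, Units.val_mk0, toAdd_one, pow_zero, mul_one]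
    rw [Complex.norm_natCast, Real.rpow_def_of_pos hqR]
  have hwR : ∀ (m : ℕ) (x : ℝ), evR q m x w =
      ((Real.exp (-((ν + N * m : ℝ) * Real.log q) * x) : ℝ) : ℂ) := by
    intro m x
    rw [hw, evR_single, one_smul]
    unfold evK
    simp only [MonoidHom.coe_mk, OneHom.coe_mk, toAdd_ofAdd]
    rw [Units.val_inv_eq_inv_val, Units.val_pow_eq_pow_val, Units.val_mk0, norm_inv, norm_pow,
      Complex.norm_natCast, Real.rpow_def_of_pos (by positivity), Real.rpow_def_of_pos hqR,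
      Real.log_inv, Real.log_pow, ← Real.exp_nat_mul, ← Real.exp_add]
    congr 2
    ring
  refine ⟨fun m => ?_, (v - 1) * w, 1 - w, fun e => ?_, fun m x hx => ?_, fun m => ?_⟩
  · dsimp only
    rw [one_div]
    refine reg_inv_linear _ _ ?_
    have h1 : (ν : ℂ) + N * (m : ℂ) = ((ν + N * m : ℕ) : ℂ) := by push_cast; ring
    rw [h1]
    exact_mod_cast (by omega : ν + N * m ≠ 0)
  · dsimp only
    rw [map_sub, map_mul, map_sub, map_one, hvS, hwS]
    unfold geo
    have h0 : PowerSeries.constantCoeff (1 - PowerSeries.C ((((q : ℂ) ^ (e + 1)) ^ ν)⁻¹) *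
        PowerSeries.X ^ N : PowerSeries ℂ) ≠ 0 := by
      simp [hN.ne']
    have h1 := PowerSeries.inv_mul_cancel _ h0
    rw [mul_comm, mul_assoc, h1, mul_one, map_sub, map_one]
  · rw [map_sub, map_one, hwR, ← Complex.ofReal_one, ← Complex.ofReal_sub, Complex.ofReal_ne_zero]
    have h7 : Real.exp (-((ν + N * m : ℝ) * Real.log q) * x) < 1 := by
      rw [Real.exp_lt_one_iff]
      have hν' : (0 : ℝ) < ν := by exact_mod_cast hν
      have : 0 < (ν + N * m : ℝ) * Real.log q * x :=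
        mul_pos (mul_pos (by positivity) hL) hx
      linarith
    linarith
  · dsimp only
    have hν' : (0 : ℝ) < ν := by exact_mod_cast hν
    have h1 := lim_quot (Real.log q) (ν + N * m) hL (by positivity)
    have h2 := (Complex.continuous_ofReal.tendsto _).comp h1
    have h3 : RatFunc.eval (RingHom.id ℂ) (m : ℂ)
        (1 / ((ν : RatFunc ℂ) + (N : RatFunc ℂ) * RatFunc.X)) = ((1 / (ν + N * m : ℝ) : ℝ) : ℂ) := by
      have hr := reg_inv_linear (s0 := (m : ℂ)) ν N (by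
        have h1 : (ν : ℂ) + N * (m : ℂ) = ((ν + N * m : ℕ) : ℂ) := by push_cast; ring
        rw [h1]
        exact_mod_cast (by omega : ν + N * m ≠ 0))
      have hne : (ν : RatFunc ℂ) + (N : RatFunc ℂ) * RatFunc.X ≠ 0 := by
        intro h
        have h4 : (ν : RatFunc ℂ) + (N : RatFunc ℂ) * RatFunc.X =
            algebraMap (Polynomial ℂ) (RatFunc ℂ) ((ν : Polynomial ℂ) +
              (N : Polynomial ℂ) * Polynomial.X) := by
          rw [map_add, map_mul, map_natCast, map_natCast, RatFunc.algebraMap_X]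
        rw [h4] at h
        have h5 := RatFunc.algebraMap_injective ℂ (h.trans (map_zero _).symm)
        have h6 := congrArg (Polynomial.eval 0) h5
        simp at h6
        omega
      have hlin : RatFunc.eval (RingHom.id ℂ) (m : ℂ)
          ((ν : RatFunc ℂ) + (N : RatFunc ℂ) * RatFunc.X) = (ν : ℂ) + N * m := by
        have h4 : (ν : RatFunc ℂ) + (N : RatFunc ℂ) * RatFunc.X =
            algebraMap (Polynomial ℂ) (RatFunc ℂ) ((ν : Polynomial ℂ) +
              (N : Polynomial ℂ) * Polynomial.X) := by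
          rw [map_add, map_mul, map_natCast, map_natCast, RatFunc.algebraMap_X]
        rw [h4, RatFunc.eval_algebraMap]
        simp
      have hregl : Reg (m : ℂ) ((ν : RatFunc ℂ) + (N : RatFunc ℂ) * RatFunc.X) :=
        (reg_natCast ν).add ((reg_natCast N).mul reg_X)
      have h5 := RatFunc.eval_mul (RingHom.id ℂ) (m : ℂ) (x := (ν : RatFunc ℂ) +
        (N : RatFunc ℂ) * RatFunc.X) (y := ((ν : RatFunc ℂ) + (N : RatFunc ℂ) * RatFunc.X)⁻¹)
        hregl hr
      rw [mul_inv_cancel₀ hne, RatFunc.eval_one, hlin] at h5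
      rw [one_div]
      push_cast
      rw [one_div]
      exact (inv_eq_of_mul_eq_one_right h5.symm).symm
    rw [h3]
    refine h2.congr fun x => ?_
    rw [map_mul, map_sub, map_sub, map_one, hvR, hwR]
    simp only [Function.comp_apply]
    push_cast
    rfl

theorem qp_lim {q : ℕ} (hq : 2 ≤ q) (z : (ℕ → PowerSeries ℂ) × RatFunc ℂ) (hz : z ∈ Lim q) :
    QP q z := by
  refine Algebra.adjoin_induction (p := fun z _ => QP q z) ?_ ?_ ?_ ?_ hz
  · rintro z (⟨l, hl, rfl⟩ | ⟨N, ν, hN, hν, rfl⟩)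
    · exact qp_lam l hl
    · exact qp_geo hq N ν hN hν
  · intro c
    exact qp_alg c
  · intro x y _ _ hx hy
    exact qp_add x y hx hy
  · intro x y _ _ hx hy
    exact qp_mul x y hx hy

/-- The limit is unique. -/
theorem lim_unique {q : ℕ} (hq : 2 ≤ q) (H : ℕ → PowerSeries ℂ) (Z Z' : RatFunc ℂ)
    (h : ((H, Z) : (ℕ → PowerSeries ℂ) × RatFunc ℂ) ∈ Lim q)
    (h' : ((H, Z') : (ℕ → PowerSeries ℂ) × RatFunc ℂ) ∈ Lim q) : Z = Z' := by
  have h1 := (Lim q).sub_mem h h'
  rw [Prod.mk_sub_mk, sub_self] at h1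
  obtain ⟨hr, N, D, h2, h3, h4⟩ := qp_lim hq _ h1
  have hN : N = 0 := by
    apply evS_inj
    intro e
    rw [← h2]
    change evS e D * 0 = 0
    rw [mul_zero]
  have h5 : ∀ m : ℕ, RatFunc.eval (RingHom.id ℂ) (m : ℂ) (Z - Z') = 0 := by
    intro m
    have h6 := h4 m
    rw [hN] at h6
    have h7 : (fun x : ℝ => evR q m x 0 / evR q m x D) = fun _ => (0 : ℂ) := by
      funext x
      rw [map_zero, zero_div]
    rw [h7] at h6
    exact (tendsto_nhds_unique h6 tendsto_const_nhds)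
  have h6 : (Z - Z').num = 0 := by
    apply Polynomial.eq_zero_of_infinite_isRoot
    apply Set.infinite_of_injective_forall_mem (f := fun m : ℕ => (m : ℂ)) Nat.cast_injective
    intro m
    have h7 := h5 m
    unfold RatFunc.eval at h7
    rw [div_eq_zero_iff] at h7
    rcases h7 with h8 | h8
    · exact h8
    · exact absurd h8 (hr m)
  exact sub_eq_zero.1 (RatFunc.num_eq_zero_iff.1 h6)

/-- The topological zeta function is unique. -/
theorem isTop_unique {σ : Type} (f : MvPolynomial σ ℂ) (Z Z' : RatFunc ℂ)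
    (h : IsTopZeta f Z) (h' : IsTopZeta f Z') : Z = Z' := by
  classical
  obtain ⟨S2, f2, hf2, hZ2⟩ := h'
  obtain ⟨S, f1, hS, hf1, hZ1⟩ := enlarge f Z h S2
  have hle : Subring.closure (S2 : Set ℂ) ≤ Subring.closure (S : Set ℂ) :=
    Subring.closure_mono (Finset.coe_subset.2 hS)
  have hf3 := map_incl hle f2 f hf2
  have hZ3 := TopData.incl hle f2 Z' hZ2
  have h1 : MvPolynomial.map (Subring.inclusion hle) f2 = f1 := by
    apply MvPolynomial.map_injective (Subring.subtype (Subring.closure (S : Set ℂ)))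
      Subtype.val_injective
    rw [hf3, hf1]
  rw [h1] at hZ3
  obtain ⟨F, hF1, hF2, ⟨ι⟩⟩ := exists_hom S
  obtain ⟨p, hp⟩ := CharP.exists F
  have hpp : Fact p.Prime := ⟨CharP.char_is_prime F p⟩
  have h2 := hZ1 F ι (fun e => FiniteField.Extension F p (e + 1))
    (fun e => FiniteField.natCard_extension F p (e + 1))
  have h3 := hZ3 F ι (fun e => FiniteField.Extension F p (e + 1))
    (fun e => FiniteField.natCard_extension F p (e + 1))
  exact lim_unique (Finite.one_lt_card) _ _ _ h2 h3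

end Pool.Agent.H56.CR
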